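import Pool.Agent.Lib.MP_3184af_co.Tate.Band

set_option autoImplicit false

namespace Pool.Agent.Lib.MP_3184af_co.TateG

open Finset Tate

variable {C V : Type} [CommRing C] [AddCommGroup V] [Module C V]

/-- The anticommutation relations. -/
structure Car (D : Module.End C V) (η μ : ℕ → Module.End C V) (n : ℕ) : Prop where
  dd : D * D = 0
  de : ∀ k < n, D * η k = -(η k * D)
  dm : ∀ k < n, D * μ k = -(μ k * D)
  ee : ∀ k < n, ∀ l < n, η k * η l = -(η l * η k)
  e2 : ∀ k < n, η k * η k = 0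
  mm : ∀ k < n, ∀ l < n, μ k * μ l = -(μ l * μ k)
  m2 : ∀ k < n, μ k * μ k = 0
  me : ∀ k < n, ∀ l < n, μ k * η l = (if k = l then 1 else 0) - η l * μ k

/-- The weights of the operators. -/
structure Grd (p n : ℕ) (𝒱 : ℤ → AddSubgroup V) (D : Module.End C V)
    (η μ : ℕ → Module.End C V) : Prop where
  d : ∀ w, ∀ v ∈ 𝒱 w, D v ∈ 𝒱 (w + (p : ℤ) ^ n)
  e : ∀ k < n, ∀ w, ∀ v ∈ 𝒱 w, η k v ∈ 𝒱 (w + ((p : ℤ) ^ n - 2 * (p : ℤ) ^ k))
  m : ∀ k < n, ∀ w, ∀ v ∈ 𝒱 w, μ k v ∈ 𝒱 (w - ((p : ℤ) ^ n - 2 * (p : ℤ) ^ k))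

/-- An operator acting on sequences term by term. -/
def up : Module.End C V →+* Module.End C (ℕ → V) where
  toFun A := LinearMap.compLeft A ℕ
  map_one' := rfl
  map_mul' _ _ := rfl
  map_zero' := rfl
  map_add' _ _ := rfl

theorem up_apply (A : Module.End C V) (f : ℕ → V) (r : ℕ) : up A f r = A (f r) := rfl

variable (C V) in
/-- Multiplication by a divided power. -/
def gm (m : ℕ) : Module.End C (ℕ → V) where
  toFun f r := (r.choose m : C) • f (r - m)
  map_add' _ _ := funext fun _ => smul_add _ _ _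
  map_smul' _ _ := funext fun _ => smul_comm _ _ _

theorem gm_apply (m : ℕ) (f : ℕ → V) (r : ℕ) : gm C V m f r = (r.choose m : C) • f (r - m) := rfl

/-- The operator of the levels `k, ..., k + m` on sequences. -/
def dB (p : ℕ) (D : Module.End C V) (η μ : ℕ → Module.End C V) (k m : ℕ)
    (G : ℕ → Module.End C (ℕ → V)) : Module.End C (ℕ → V) :=
  up D + ∑ j ∈ range (m + 1), G (p ^ j) * up (η (k + j)) + G (p ^ m) ^ (p - 1) * up (μ (k + m))

/-- Sequences of given weight. -/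
def Wn (𝒱 : ℤ → AddSubgroup V) (u w : ℤ) : AddSubgroup (ℕ → V) where
  carrier := {f | ∀ r : ℕ, f r ∈ 𝒱 (w - u * r)}
  add_mem' h h' r := add_mem (h r) (h' r)
  zero_mem' _ := zero_mem _
  neg_mem' h r := neg_mem (h r)

variable (C V) in
/-- Sequences whose first `N` terms vanish. -/
def Nb (N : ℕ) : Submodule C (ℕ → V) where
  carrier := {f | ∀ r < N, f r = 0}
  add_mem' h h' r hr := by rw [Pi.add_apply, h r hr, h' r hr, add_zero]
  zero_mem' _ _ := rfl
  smul_mem' c f h r hr := by rw [Pi.smul_apply, h r hr, smul_zero]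

variable {p n k m : ℕ} {D : Module.End C V} {η μ : ℕ → Module.End C V}
  {G : ℕ → Module.End C (ℕ → V)} {𝒱 : ℤ → AddSubgroup V}

theorem gm_zero : gm C V 0 = 1 := by
  refine LinearMap.ext fun f => funext fun r => ?_
  simp [gm_apply]

theorem gm_mul (a b : ℕ) : gm C V a * gm C V b = ((a + b).choose a : C) • gm C V (a + b) := by
  refine LinearMap.ext fun f => funext fun r => ?_
  have := Nat.choose_mul (n := r) (Nat.le_add_right a b)
  rw [Nat.add_sub_cancel_left] at this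
  rw [Module.End.mul_apply, LinearMap.smul_apply, Pi.smul_apply, gm_apply, gm_apply, gm_apply,
    smul_smul, smul_smul, ← Nat.cast_mul, ← Nat.cast_mul, ← this, mul_comm, Nat.sub_sub]

theorem gm_comm (a b : ℕ) : gm C V a * gm C V b = gm C V b * gm C V a := by
  rw [gm_mul, gm_mul, Nat.choose_symm_add, add_comm a b]

theorem gm_up (a : ℕ) (A : Module.End C V) : gm C V a * up A = up A * gm C V a := by
  refine LinearMap.ext fun f => funext fun r => ?_
  rw [Module.End.mul_apply, Module.End.mul_apply, gm_apply, up_apply, up_apply, gm_apply, map_smul]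

theorem gm_pow (hp : p.Prime) (hC : (p : C) = 0) (j : ℕ) : gm C V (p ^ j) ^ p = 0 := by
  have h : ∀ a i : ℕ, ∃ c : C, gm C V a ^ i = c • gm C V (i * a) := fun a i => by
    induction i with
    | zero => exact ⟨1, by rw [pow_zero, zero_mul, gm_zero, one_smul]⟩
    | succ i ih =>
      obtain ⟨c, hc⟩ := ih
      exact ⟨_, by rw [pow_succ, hc, smul_mul_assoc, gm_mul, smul_smul, add_one_mul]⟩
  obtain ⟨i, hi⟩ := Nat.exists_eq_succ_of_ne_zero hp.ne_zero
  obtain ⟨c, hc⟩ := h (p ^ j) i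
  have e : p ^ j + i * p ^ j = p * p ^ j := by rw [add_comm, ← add_one_mul, ← Nat.succ_eq_add_one, ← hi]
  conv_lhs => rw [show ∀ x : Module.End C (ℕ → V), x ^ p = x * x ^ i from fun x => by
    rw [← pow_succ', hi]]
  rw [hc, mul_smul_comm, gm_mul, e, Nat.choose_mul_right (pow_ne_zero _ hp.ne_zero), Nat.cast_mul,
    hC, zero_mul, zero_smul, smul_zero]

theorem gm_nb (a : ℕ) {N : ℕ} {f : ℕ → V} (hf : f ∈ Nb C V N) : gm C V a f ∈ Nb C V (N + a) := by
  intro r hr
  rw [gm_apply]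
  rcases lt_or_ge r a with h | h
  · rw [Nat.choose_eq_zero_of_lt h, Nat.cast_zero, zero_smul]
  · rw [hf _ (by omega), smul_zero]

theorem up_nb (A : Module.End C V) {N : ℕ} {f : ℕ → V} (hf : f ∈ Nb C V N) :
    up A f ∈ Nb C V N := by
  intro r hr
  rw [up_apply, hf r hr, map_zero]

theorem Nb_mono {M N : ℕ} (h : M ≤ N) {f : ℕ → V} (hf : f ∈ Nb C V N) : f ∈ Nb C V M := by
  exact fun r hr => hf r (by omega)

theorem gm_mem (a : ℕ) {u w : ℤ} {f : ℕ → V} (hf : f ∈ Wn 𝒱 u w) :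
    gm C V a f ∈ Wn 𝒱 u (w + u * a) := by
  intro r
  rw [gm_apply]
  rcases lt_or_ge r a with h | h
  · rw [Nat.choose_eq_zero_of_lt h, Nat.cast_zero, zero_smul]
    exact zero_mem _
  · exact band_mem (band_sh_nat _) (hf (r - a)) (by push_cast [h]; ring)

theorem band0_sq {A : Type} [Ring A] (s : Finset ℕ) (f : ℕ → A) (h0 : ∀ i ∈ s, f i * f i = 0)
    (h : ∀ i ∈ s, ∀ j ∈ s, f i * f j + f j * f i = 0) : (∑ i ∈ s, f i) * (∑ i ∈ s, f i) = 0 := by
  induction s using Finset.induction_on with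
  | empty => simp
  | insert m s hm ih =>
    have : f m * ∑ l ∈ s, f l + (∑ l ∈ s, f l) * f m = 0 := by
      rw [mul_sum, sum_mul, ← sum_add_distrib]
      exact sum_eq_zero fun l hl => h _ (mem_insert_self _ _) _ (mem_insert_of_mem hl)
    rw [sum_insert hm, add_mul, mul_add, mul_add, ih (fun i hi => h0 i (mem_insert_of_mem hi))
      fun i hi j hj => h i (mem_insert_of_mem hi) j (mem_insert_of_mem hj),
      h0 _ (mem_insert_self _ _), zero_add, add_zero, this]

theorem band0_mul {x y : Module.End C (ℕ → V)} (hy : ∀ A, y * up A = up A * y)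
    (A B : Module.End C V) : x * up A * (y * up B) = x * y * up (A * B) := by
  rw [mul_assoc, ← mul_assoc (up A), ← hy, map_mul, mul_assoc, mul_assoc]

theorem band0_anti {x y : Module.End C (ℕ → V)} (hx : ∀ A, x * up A = up A * x)
    (hy : ∀ A, y * up A = up A * y) (h : x * y = y * x) (A B : Module.End C V) :
    x * up A * (y * up B) + y * up B * (x * up A) = x * y * up (A * B + B * A) := by
  rw [band0_mul hy, band0_mul hx, ← h, map_add, mul_add]

theorem dB_sq (hp : 1 ≤ p) (hc : Car D η μ n) (hn : k + m < n)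
    (h1 : ∀ a b, G a * G b = G b * G a) (h2 : ∀ a A, G a * up A = up A * G a)
    (h3 : G (p ^ m) ^ p = 0) : dB p D η μ k m G * dB p D η μ k m G = 0 := by
  have h4 : ∀ A, G (p ^ m) ^ (p - 1) * up A = up A * G (p ^ m) ^ (p - 1) := fun A =>
    (Commute.pow_left (h2 _ A) _).eq
  have h5 : ∀ A : Module.End C V, 1 * up A = up A * 1 := fun A => by rw [one_mul, mul_one]
  have hj : ∀ j ∈ range (m + 1), k + j < n := fun j hj => by have := mem_range.1 hj; omega
  have e1 : up D * up D = 0 := by rw [← map_mul, hc.dd, map_zero]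
  have e2 := band0_sq (range (m + 1)) (fun j => G (p ^ j) * up (η (k + j)))
    (fun i hi => by rw [band0_mul (h2 _), hc.e2 _ (hj i hi), map_zero, mul_zero])
    fun i hi j hj' => by
      rw [band0_anti (h2 _) (h2 _) (h1 _ _), hc.ee _ (hj i hi) _ (hj j hj'), neg_add_cancel,
        map_zero, mul_zero]
  have e3 : G (p ^ m) ^ (p - 1) * up (μ (k + m)) * (G (p ^ m) ^ (p - 1) * up (μ (k + m))) = 0 := by
    rw [band0_mul h4, hc.m2 _ hn, map_zero, mul_zero]
  have e4 : up D * ∑ j ∈ range (m + 1), G (p ^ j) * up (η (k + j)) +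
      (∑ j ∈ range (m + 1), G (p ^ j) * up (η (k + j))) * up D = 0 := by
    rw [mul_sum, sum_mul, ← sum_add_distrib]
    refine sum_eq_zero fun j hj' => ?_
    rw [← one_mul (up D), band0_anti h5 (h2 _) (by simp), hc.de _ (hj j hj'), neg_add_cancel,
      map_zero, mul_zero]
  have e5 : up D * (G (p ^ m) ^ (p - 1) * up (μ (k + m))) +
      G (p ^ m) ^ (p - 1) * up (μ (k + m)) * up D = 0 := by
    rw [← one_mul (up D), band0_anti h5 h4 (by simp), hc.dm _ hn, neg_add_cancel, map_zero, mul_zero]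
  have e6 : G (p ^ m) ^ (p - 1) * up (μ (k + m)) * ∑ j ∈ range (m + 1), G (p ^ j) * up (η (k + j)) +
      (∑ j ∈ range (m + 1), G (p ^ j) * up (η (k + j))) *
        (G (p ^ m) ^ (p - 1) * up (μ (k + m))) = 0 := by
    rw [mul_sum, sum_mul, ← sum_add_distrib]
    refine sum_eq_zero fun j hj' => ?_
    rw [band0_anti h4 (h2 _) (Commute.pow_left (h1 _ _) _).eq, hc.me _ hn _ (hj j hj'),
      sub_add_cancel]
    split_ifs with h
    · rw [← Nat.add_left_cancel h, ← pow_succ, Nat.sub_add_cancel hp, h3, zero_mul]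
    · rw [map_zero, mul_zero]
  rw [dB]
  simp only [add_mul, mul_add]
  linear_combination (norm := abel1) e1 + e2 + e3 + e4 + e5 + e6

theorem dB_nb {N : ℕ} (h : ∀ a, ∀ f ∈ Nb C V N, G a f ∈ Nb C V N) {f : ℕ → V}
    (hf : f ∈ Nb C V N) : dB p D η μ k m G f ∈ Nb C V N := by
  have h1 : ∀ (a i : ℕ), ∀ f ∈ Nb C V N, (G a ^ i) f ∈ Nb C V N := fun a i => by
    induction i with
    | zero => exact fun f hf => hf
    | succ i ih => exact fun f hf => by rw [pow_succ]; exact ih _ (h a f hf)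
  rw [dB, LinearMap.add_apply, LinearMap.add_apply, LinearMap.sum_apply]
  exact add_mem (add_mem (up_nb _ hf) (sum_mem fun j _ => h _ _ (up_nb _ hf)))
    (h1 _ _ _ (up_nb _ hf))

theorem dB_mem (hp : 1 ≤ p) (hg : Grd p n 𝒱 D η μ) (hn : k + m + 1 = n)
    (h : ∀ (a : ℕ) (w : ℤ), ∀ f ∈ Wn 𝒱 (2 * (p : ℤ) ^ k) w,
      G a f ∈ Wn 𝒱 (2 * (p : ℤ) ^ k) (w + 2 * (p : ℤ) ^ k * a))
    {w : ℤ} {f : ℕ → V} (hf : f ∈ Wn 𝒱 (2 * (p : ℤ) ^ k) w) :
    dB p D η μ k m G f ∈ Wn 𝒱 (2 * (p : ℤ) ^ k) (w + (p : ℤ) ^ n) := by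
  have h1 : ∀ (a i : ℕ) (w : ℤ), ∀ f ∈ Wn 𝒱 (2 * (p : ℤ) ^ k) w,
      (G a ^ i) f ∈ Wn 𝒱 (2 * (p : ℤ) ^ k) (w + 2 * (p : ℤ) ^ k * a * i) := fun a i => by
    induction i with
    | zero => exact fun w f hf => by simpa using hf
    | succ i ih =>
      intro w f hf
      rw [pow_succ (G a)]
      exact band_cast (𝒲 := Wn 𝒱 _) (ih _ _ (h a w f hf)) (by push_cast; ring)
  have h2 : ∀ {A : Module.End C V} {s : ℤ}, (∀ w, ∀ v ∈ 𝒱 w, A v ∈ 𝒱 (w + s)) →
      up A f ∈ Wn 𝒱 (2 * (p : ℤ) ^ k) (w + s) := fun hA r =>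
    band_cast (hA _ _ (hf r)) (by ring)
  rw [dB, LinearMap.add_apply, LinearMap.add_apply, LinearMap.sum_apply]
  refine add_mem (add_mem (h2 hg.d) (sum_mem fun j hj => ?_)) ?_
  · exact band_cast (𝒲 := Wn 𝒱 _) (h _ _ _ (h2 (hg.e (k + j) (by have := mem_range.1 hj; omega))))
      (by push_cast; ring)
  · refine band_cast (𝒲 := Wn 𝒱 _) (h1 _ _ _ _ (h2 (s := -((p : ℤ) ^ n - 2 * (p : ℤ) ^ (k + m)))
      fun w v hv => sub_eq_add_neg w _ ▸ hg.m (k + m) (by omega) w v hv)) ?_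
    rw [← hn]
    push_cast [hp]
    ring

/-- A map of sequences that commutes with the pieces commutes with the operator. -/
theorem dB_map {G' : ℕ → Module.End C (ℕ → V)} (φ : Module.End C (ℕ → V))
    (h1 : ∀ A, φ * up A = up A * φ) (h2 : ∀ j ≤ m, φ * G (p ^ j) = G' (p ^ j) * φ) :
    φ * dB p D η μ k m G = dB p D η μ k m G' * φ := by
  have h3 : ∀ i, φ * G (p ^ m) ^ i = G' (p ^ m) ^ i * φ := fun i =>
    SemiconjBy.pow_right (h2 m le_rfl) i
  simp only [dB, mul_add, add_mul, mul_sum, sum_mul]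
  rw [h1, ← mul_assoc, h3, mul_assoc, h1, ← mul_assoc]
  refine congrArg (_ + · + _) (sum_congr rfl fun j hj => ?_)
  rw [← mul_assoc, h2 j (Nat.lt_succ_iff.1 (mem_range.1 hj)), mul_assoc, h1, ← mul_assoc]

end Pool.Agent.Lib.MP_3184af_co.TateG
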