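import Pool.Agent.Lib.MP_3184af_co.TateG.Band0

set_option autoImplicit false

namespace Pool.Agent.Lib.MP_3184af_co.TateG

open Finset Tate

variable {C V : Type} [CommRing C] [AddCommGroup V] [Module C V]
  {p n k m : ℕ} {D : Module.End C V} {η μ : ℕ → Module.End C V} {𝒱 : ℤ → AddSubgroup V}

namespace BandH

theorem exists_u (hp : p.Prime) (hC : (p : C) = 0) : ∃ u : ℕ → ℕ, (∀ r, p ∣ r → u r = 0) ∧
    (∀ r, ¬ p ∣ r → (u r : C) * r = 1) ∧ ∀ r a, p ∣ a → u (r + a) = u r := by
  have := Fact.mk hp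
  refine ⟨fun r => ((r : ZMod p)⁻¹).val, fun r h => ?_, fun r h => ?_, fun r a h => ?_⟩
  · simp [(ZMod.natCast_eq_zero_iff r p).2 h]
  · have h1 : ((((r : ZMod p)⁻¹).val * r : ℕ) : ZMod p) = (1 : ℕ) := by
      rw [Nat.cast_mul, ZMod.natCast_zmod_val, Nat.cast_one]
      exact inv_mul_cancel₀ fun e => h ((ZMod.natCast_eq_zero_iff r p).1 e)
    obtain ⟨c, hc⟩ := ((ZMod.natCast_eq_natCast_iff _ _ _).1 h1).dvd
    have h2 := congrArg (Int.cast : ℤ → C) hc
    push_cast at h2
    rw [hC, zero_mul, sub_eq_zero] at h2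
    exact h2.symm
  · simp [(ZMod.natCast_eq_zero_iff a p).2 h]

variable (C V) in
/-- The weighted shift. -/
def sh (u : ℕ → ℕ) : Module.End C (ℕ → V) where
  toFun f r := (u (r + 1) : C) • f (r + 1)
  map_add' _ _ := funext fun _ => smul_add _ _ _
  map_smul' _ _ := funext fun _ => smul_comm _ _ _

theorem sh_apply (u : ℕ → ℕ) (f : ℕ → V) (r : ℕ) :
    sh C V u f r = (u (r + 1) : C) • f (r + 1) := rfl

theorem sh_up (u : ℕ → ℕ) (A : Module.End C V) : sh C V u * up A = up A * sh C V u :=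
  LinearMap.ext fun _ => funext fun _ => (A.map_smul _ _).symm

theorem sh_gm (hC : (p : C) = 0) {u : ℕ → ℕ} (h1 : ∀ r, p ∣ r → u r = 0)
    (h2 : ∀ r, ¬ p ∣ r → (u r : C) * r = 1) (h3 : ∀ r a, p ∣ a → u (r + a) = u r) {a : ℕ}
    (ha : p ∣ a) (h0 : a ≠ 0) : sh C V u * gm C V a = gm C V a * sh C V u := by
  refine LinearMap.ext fun f => funext fun r => ?_
  obtain ⟨b, rfl⟩ := Nat.exists_eq_succ_of_ne_zero h0
  have e : (u (r + 1) : C) * (r.choose b : C) = 0 := by
    by_cases h : p ∣ r + 1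
    · rw [h1 _ h, Nat.cast_zero, zero_mul]
    · obtain ⟨c, hc⟩ := ha
      have e1 := congrArg (Nat.cast : ℕ → C) (Nat.add_one_mul_choose_eq r b)
      rw [show b + 1 = p * c from hc, Nat.cast_mul, Nat.cast_mul, Nat.cast_mul, hC, zero_mul,
        mul_zero] at e1
      linear_combination (u (r + 1) : C) * u (r + 1) * e1 - u (r + 1) * r.choose b * h2 _ h
  rw [Module.End.mul_apply, Module.End.mul_apply, sh_apply, gm_apply, gm_apply, sh_apply,
    smul_smul, smul_smul, Nat.choose_succ_succ, Nat.cast_add, mul_add, e, zero_add]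
  rcases lt_or_ge r b.succ with h | h
  · simp [Nat.choose_eq_zero_of_lt h]
  · rw [← h3 (r - b.succ + 1) _ ha, mul_comm, show r - b.succ + 1 + b.succ = r + 1 by omega,
      show r + 1 - b.succ = r - b.succ + 1 by omega]

theorem term {G S : Module.End C (ℕ → V)} (hG : ∀ A, G * up A = up A * G)
    (hS : ∀ A, S * up A = up A * S) (A B : Module.End C V) :
    G * up A * (S * up B) + S * up B * (G * up A) =
      G * S * up (A * B) + S * G * up (B * A) := by
  rw [map_mul, map_mul, mul_assoc G, ← mul_assoc (up A), ← hS, mul_assoc S (up B),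
    ← mul_assoc (up B), ← hG]
  simp only [mul_assoc]

theorem term_zero {G S : Module.End C (ℕ → V)} (hG : ∀ A, G * up A = up A * G)
    (hS : ∀ A, S * up A = up A * S) {A B : Module.End C V} (h : S * G = G * S ∨ A * B = 0)
    (e : B * A = -(A * B)) : G * up A * (S * up B) + S * up B * (G * up A) = 0 := by
  rw [term hG hS, e]
  rcases h with h | h
  · rw [h, ← mul_add, ← map_add, add_neg_cancel, map_zero, mul_zero]
  · simp [h]

theorem pow_nb (a i : ℕ) {N : ℕ} {f : ℕ → V} (hf : f ∈ Nb C V N) :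
    (gm C V a ^ i) f ∈ Nb C V (N + i * a) := by
  induction i with
  | zero => simpa using hf
  | succ i ih =>
    rw [pow_succ', add_one_mul, ← add_assoc]
    exact gm_nb a ih

/-- Inside a block only two terms of the operator act. -/
theorem dB_blk (hp : p.Prime) {M r : ℕ} {f : ℕ → V} (hf : f ∈ Nb C V M) (hr : r + 1 < M + p) :
    dB p D η μ k m (gm C V) f r = D (f r) + (r : C) • η k (f (r - 1)) := by
  have h1 : (gm C V (p ^ m) ^ (p - 1)) (up (μ (k + m)) f) r = 0 := by
    refine pow_nb _ _ (up_nb _ hf) r ?_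
    have := Nat.le_mul_of_pos_right (p - 1) (pow_pos hp.pos m)
    omega
  have h2 : ∀ j ∈ range m, gm C V (p ^ (j + 1)) (up (η (k + (j + 1))) f) r = 0 := fun j _ => by
    refine gm_nb _ (up_nb _ hf) r ?_
    have := Nat.le_self_pow (Nat.succ_ne_zero j) p
    rw [Nat.succ_eq_add_one] at this
    omega
  rw [dB, sum_range_succ', LinearMap.add_apply, LinearMap.add_apply, LinearMap.add_apply,
    LinearMap.sum_apply, Pi.add_apply, Pi.add_apply, Pi.add_apply, Finset.sum_apply]
  simp only [Module.End.mul_apply]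
  rw [h1, sum_eq_zero h2]
  simp [gm_apply, up_apply]

end BandH

open BandH

/-- The homotopy of the lowest level. -/
theorem exists_hom (hp : p.Prime) (hC : (p : C) = 0) (hc : Car D η μ n) (hn : k + m < n) :
    ∃ u : ℕ → ℕ, (∀ r, p ∣ r → u r = 0) ∧ (∀ r, ¬ p ∣ r → (u r : C) * r = 1) ∧
      ∀ (f : ℕ → V) (r : ℕ),
        dB p D η μ k m (gm C V) (fun r => (u (r + 1) : C) • μ k (f (r + 1))) r +
          (u (r + 1) : C) • μ k (dB p D η μ k m (gm C V) f (r + 1)) =
        f r - (if p ∣ r + 1 then μ k (η k (f r)) else 0) -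
          if p ∣ r then η k (μ k (f r)) else 0 := by
  obtain ⟨u, h1, h2, h3⟩ := exists_u hp hC
  refine ⟨u, h1, h2, fun f r => ?_⟩
  have hk : k < n := by omega
  have hs : ∀ j, j ≠ 0 → sh C V u * gm C V (p ^ j) = gm C V (p ^ j) * sh C V u := fun j hj =>
    sh_gm hC h1 h2 h3 (dvd_pow_self p hj) (pow_ne_zero _ hp.ne_zero)
  have e1 := term_zero (G := 1) (fun _ => by simp) (sh_up u) (.inl (by simp))
    (neg_eq_iff_eq_neg.1 (hc.dm k hk).symm)
  have e2 : ∀ j ∈ range m, gm C V (p ^ (j + 1)) * up (η (k + (j + 1))) * (sh C V u * up (μ k)) +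
      sh C V u * up (μ k) * (gm C V (p ^ (j + 1)) * up (η (k + (j + 1)))) = 0 := fun j hj =>
    term_zero (gm_up _) (sh_up u) (.inl (hs _ j.succ_ne_zero)) (by
      rw [hc.me k hk _ (by have := mem_range.1 hj; omega), if_neg (by omega), zero_sub])
  have e3 := term_zero (G := gm C V (p ^ m) ^ (p - 1))
    (fun A => (Commute.pow_left (gm_up _ A) _).eq) (sh_up u) (A := μ (k + m)) (B := μ k)
    ((eq_or_ne m 0).symm.imp (fun h => (Commute.pow_right (hs m h) _).eq) fun h => by
      rw [h]; exact hc.m2 k hk) (hc.mm k hk _ hn)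
  have e : dB p D η μ k m (gm C V) * (sh C V u * up (μ k)) +
      sh C V u * up (μ k) * dB p D η μ k m (gm C V) =
      gm C V 1 * sh C V u * up (η k * μ k) + sh C V u * gm C V 1 * up (μ k * η k) := by
    rw [one_mul] at e1
    rw [← term (gm_up 1) (sh_up u), dB, sum_range_succ', add_mul, add_mul, add_mul, mul_add,
      mul_add, mul_add, sum_mul, mul_sum, pow_zero, add_zero]
    have e4 := sum_eq_zero e2
    rw [sum_add_distrib] at e4
    rw [← sub_eq_zero, ← add_zero 0, ← add_zero (0 + 0)]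
    nth_rw 1 [← e1]
    nth_rw 1 [← e3]
    rw [← e4]
    abel
  have e5 : η k (μ k (f r)) + μ k (η k (f r)) = f r := by
    have := congr($(hc.me k hk k hk) (f r))
    rw [if_pos rfl] at this
    exact eq_sub_iff_add_eq'.1 this
  have e6 : ∀ (t : ℕ) (v : V), ((u t : C) * t) • v = v - if p ∣ t then v else 0 := fun t v => by
    split_ifs with h
    · simp [h1 t h]
    · simp [h2 t h]
  refine congr($e f r).trans ?_
  simp only [LinearMap.add_apply, Pi.add_apply, Module.End.mul_apply, sh_apply, gm_apply, up_apply,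
    smul_smul, Nat.choose_one_right, Nat.add_sub_cancel]
  have e7 : ((r : C) * u (r - 1 + 1)) • η k (μ k (f (r - 1 + 1))) =
      ((u r : C) * r) • η k (μ k (f r)) := by
    rcases r with _ | r
    · simp
    · rw [mul_comm]; rfl
  rw [e7, e6, e6]
  nth_rw 5 [← e5]
  abel

/-- The last block, which is not full. -/
theorem band_part (hp : p.Prime) (hC : (p : C) = 0) (hc : Car D η μ n) (hg : Grd p n 𝒱 D η μ)
    (hn : k + m + 1 = n) (s : ℤ) (h0 : ∀ w < s, Ex D 𝒱 ((p : ℤ) ^ n) w) (M N : ℕ) (hM : p ∣ M)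
    (h1 : M < N) (h2 : N < M + p) (w : ℤ) (hw1 : w < s + 2 * (p : ℤ) ^ k * (N - 1))
    (hw2 : w < s + 2 * (p : ℤ) ^ k * M + ((p : ℤ) ^ n - 2 * (p : ℤ) ^ k))
    (x : ℕ → V) (hx : x ∈ Wn 𝒱 (2 * (p : ℤ) ^ k) w) (hxM : x ∈ Nb C V M)
    (hd : dB p D η μ k m (gm C V) x ∈ Nb C V N) :
    ∃ z ∈ Wn 𝒱 (2 * (p : ℤ) ^ k) (w - (p : ℤ) ^ n),
      dB p D η μ k m (gm C V) z - x ∈ Nb C V N := by
  obtain ⟨u, u1, u2, -⟩ := exists_u hp hC
  have hk : k < n := by omega
  have de : ∀ v, D (η k v) = -η k (D v) := fun v => congr($(hc.de k hk) v)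
  have dm : ∀ v, D (μ k v) = -μ k (D v) := fun v => congr($(hc.dm k hk) v)
  have ee : ∀ v, η k (η k v) = 0 := fun v => congr($(hc.e2 k hk) v)
  have me : ∀ v, η k (μ k v) + μ k (η k v) = v := fun v => by
    have := congr($(hc.me k hk k hk) v)
    rw [if_pos rfl] at this
    exact eq_sub_iff_add_eq'.1 this
  have dx : ∀ r < N, D (x r) = -((r : C) • η k (x (r - 1))) := fun r hr =>
    eq_neg_of_add_eq_zero_left ((dB_blk hp hxM (by omega)).symm.trans (hd r hr))
  have nd : ∀ r, M < r → r < N → (u r : C) * r = 1 := fun r h3 h4 => u2 r fun h =>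
    absurd (Nat.le_of_dvd (by omega) (Nat.dvd_sub h hM)) (by omega)
  have hM0 : (M : C) = 0 := by
    obtain ⟨c, rfl⟩ := hM
    rw [Nat.cast_mul, hC, zero_mul]
  obtain ⟨L, rfl⟩ : ∃ L, N = L + 1 := ⟨N - 1, by omega⟩
  obtain ⟨A, hA, eA⟩ := h0 _ (by push_cast at hw1; linarith) _
    (hg.m k hk _ _ (hg.e k hk _ _ (hx L)))
    (by rw [dm, de, dx L (by omega)]; simp [ee])
  obtain ⟨B, hB, eB⟩ := h0 _ (by linarith) _ (hg.m k hk _ _ (hx M))
    (by rw [dm, dx M h1]; simp [hM0])
  obtain ⟨z, hz⟩ : ∃ z : ℕ → V, ∀ r, z r = (if r < L then (u (r + 1) : C) • μ k (x (r + 1)) else 0)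
    + (if r = L then A else 0) - if r = M then η k B else 0 := ⟨_, fun _ => rfl⟩
  have hzM : z ∈ Nb C V M := fun r hr => by
    rw [hz, if_neg (c := r = L) (by omega), if_neg (c := r = M) hr.ne, add_zero, sub_zero]
    split_ifs
    · rcases (Nat.succ_le_of_lt hr).eq_or_lt with h | h
      · rw [show r + 1 = M from h, u1 _ hM, Nat.cast_zero, zero_smul]
      · rw [hxM _ h, map_zero, smul_zero]
    · rfl
  refine ⟨z, fun r => ?_, fun r hr => ?_⟩
  · rw [hz]
    refine sub_mem (add_mem ?_ ?_) ?_ <;> split_ifs with h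
    · rw [Nat.cast_smul_eq_nsmul]
      refine nsmul_mem ?_ _
      convert hg.m k hk _ _ (hx (r + 1)) using 2
      push_cast
      ring
    · exact zero_mem _
    · convert hA using 2
      rw [h]
      ring
    · exact zero_mem _
    · convert hg.e k hk _ _ hB using 2
      rw [h]
      ring
    · exact zero_mem _
  rw [Pi.sub_apply, dB_blk hp hzM (by omega), sub_eq_zero]
  rcases lt_or_ge r M with h | h
  · rw [hzM r h, hzM _ (by omega), hxM r h, map_zero, map_zero, smul_zero, add_zero]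
  have e1 : D (z r) = μ k (η k (x r)) + if r = M then η k (μ k (x r)) else 0 := by
    rw [hz, map_sub, map_add, sub_eq_add_neg]
    congr 1
    · rcases (Nat.le_of_lt_succ hr).eq_or_lt with h3 | h3
      · rw [if_neg h3.not_lt, if_pos h3, map_zero, zero_add, eA, h3]
      · rw [if_pos h3, if_neg h3.ne, map_zero, add_zero, map_smul, dm, dx _ (by omega), map_neg,
          neg_neg, map_smul, smul_smul, nd _ (by omega) (by omega), one_smul, Nat.add_sub_cancel]
    · split_ifs with h3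
      · rw [de, neg_neg, eB, h3]
      · rw [map_zero, neg_zero]
  rw [e1]
  rcases h.eq_or_lt with h3 | h3
  · rw [if_pos h3.symm, ← h3, hM0, zero_smul, add_zero, add_comm, me]
  · obtain ⟨t, rfl⟩ : ∃ t, r = t + 1 := ⟨r - 1, by omega⟩
    have e2 : η k (if t = M then η k B else 0) = 0 := by split_ifs <;> simp [ee]
    rw [if_neg h3.ne', add_zero, Nat.add_sub_cancel, hz, if_pos (by omega),
      if_neg (c := t = L) (by omega), add_zero, map_sub, e2, sub_zero, map_smul, smul_smul,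
      mul_comm, nd _ h3 hr, one_smul, add_comm, me]

end Pool.Agent.Lib.MP_3184af_co.TateG
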