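import Pool.Agent.Lib.MP_3184af_co.TateG.BandV

set_option autoImplicit false

namespace Pool.Agent.Lib.MP_3184af_co.TateG

open Finset Tate

variable {ι C V : Type} [DecidableEq ι] [CommRing C] [AddCommGroup V] [Module C V]

namespace BM

variable (V) in
/-- Multiplication by the divided power of a sum. -/
def Gam (c : ℕ → C) (m : ℕ) : Module.End C (ℕ → V) := ∑ j ∈ range (m + 1), c (m - j) • gm C V j

variable (C V) in
/-- The shift of sequences. -/
def sh : Module.End C (ℕ → V) where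
  toFun f r := f (r + 1)
  map_add' _ _ := rfl
  map_smul' _ _ := rfl

theorem sh_apply (f : ℕ → V) (r : ℕ) : sh C V f r = f (r + 1) := rfl

variable (V) in
/-- The substitution operator. -/
def phi (t : C) : Module.End C (ℕ → V) := 1 + t • sh C V

theorem phi_apply (t : C) (f : ℕ → V) (r : ℕ) : phi V t f r = f r + t • f (r + 1) := rfl

variable {c c' : ℕ → C} {t : C}

theorem Gam_zero (h : c 0 = 1) : Gam V c 0 = 1 := by
  simp [Gam, h, gm_zero]

theorem Gam_empty (h0 : c 0 = 1) (h : ∀ m, c (m + 1) = 0) : Gam V c = gm C V := by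
  funext m
  rw [Gam, sum_range_succ, Nat.sub_self, h0, one_smul, sum_eq_zero, zero_add]
  intro j hj
  have := mem_range.1 hj
  rw [show m - j = m - j - 1 + 1 by omega, h, zero_smul]

theorem Gam_succ (h0 : c' 0 = c 0) (h : ∀ m, c' (m + 1) = c (m + 1) + t * c m) (m : ℕ) :
    Gam V c' (m + 1) = Gam V c (m + 1) + t • Gam V c m := by
  rw [Gam, Gam, Gam, sum_range_succ, sum_range_succ _ (m + 1), Nat.sub_self, h0, smul_sum,
    add_right_comm, ← sum_add_distrib]
  refine congrArg (· + _) (sum_congr rfl fun j hj => ?_)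
  have := mem_range.1 hj
  rw [show m + 1 - j = m - j + 1 by omega, h, add_smul, smul_smul]

theorem Gam_comm (a b : ℕ) : Gam V c a * Gam V c b = Gam V c b * Gam V c a :=
  (Commute.sum_left _ _ _ fun i _ => Commute.sum_right _ _ _ fun j _ =>
    (Commute.smul_left (Commute.smul_right (gm_comm i j) _) _)).eq

theorem Gam_up (a : ℕ) (A : Module.End C V) : Gam V c a * up A = up A * Gam V c a :=
  (Commute.sum_left _ _ _ fun i _ => Commute.smul_left (gm_up i A) _).eq

theorem Gam_nb {N : ℕ} (a : ℕ) (f : ℕ → V) (hf : f ∈ Nb C V N) : Gam V c a f ∈ Nb C V N := by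
  rw [Gam, LinearMap.sum_apply]
  exact sum_mem fun j _ => Submodule.smul_mem _ _ (Nb_mono (Nat.le_add_right N j) (gm_nb j hf))

theorem Gam_mem {𝒲 : ℤ → AddSubgroup V} (h : ∀ m : ℕ, Sh 𝒲 (c m) (2 * m)) (a : ℕ) (w : ℤ)
    (f : ℕ → V) (hf : f ∈ Wn 𝒲 2 w) : Gam V c a f ∈ Wn 𝒲 2 (w + 2 * a) := by
  rw [Gam, LinearMap.sum_apply]
  refine sum_mem fun j hj r => ?_
  have hj' : j ≤ a := Nat.lt_succ_iff.1 (mem_range.1 hj)
  exact band_mem (h _) (gm_mem (C := C) j hf r) (by push_cast [hj']; ring)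

theorem Gam_at (m : ℕ) (f : ℕ → V) : Gam V c m f 0 = c m • f 0 := by
  rw [Gam, LinearMap.sum_apply, Finset.sum_apply, sum_range_succ', sum_eq_zero, zero_add]
  · simp [gm_apply]
  · intro j _
    simp [gm_apply]

theorem Gam_pow_at (m i : ℕ) (f : ℕ → V) : (Gam V c m ^ i) f 0 = c m ^ i • f 0 := by
  induction i with
  | zero => simp
  | succ i ih => rw [pow_succ', Module.End.mul_apply, Gam_at, ih, smul_smul, pow_succ']

theorem sh_gm (m : ℕ) : sh C V * gm C V (m + 1) = gm C V (m + 1) * sh C V + gm C V m := by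
  refine LinearMap.ext fun f => funext fun r => ?_
  rw [Module.End.mul_apply, LinearMap.add_apply, Pi.add_apply, Module.End.mul_apply, sh_apply,
    gm_apply, gm_apply, gm_apply, sh_apply, Nat.choose_succ_succ', Nat.cast_add, add_smul,
    Nat.add_sub_add_right, add_comm]
  rcases lt_or_ge r (m + 1) with h | h
  · rw [Nat.choose_eq_zero_of_lt h, Nat.cast_zero, zero_smul, zero_smul]
  · rw [show r - (m + 1) + 1 = r - m by omega]

theorem sh_Gam (m : ℕ) : sh C V * Gam V c (m + 1) = Gam V c (m + 1) * sh C V + Gam V c m := by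
  rw [Gam, Gam, sum_range_succ', mul_add, add_mul, mul_sum, sum_mul, add_right_comm,
    ← sum_add_distrib, gm_zero, mul_smul_comm, smul_mul_assoc, mul_one, one_mul]
  refine congrArg (· + _) (sum_congr rfl fun j _ => ?_)
  rw [mul_smul_comm, sh_gm, smul_add, smul_mul_assoc, Nat.add_sub_add_right]

theorem smul_eq_zero_of (ht : ∀ v : V, t • v = 0) (A : Module.End C (ℕ → V)) : t • A = 0 :=
  LinearMap.ext fun _ => funext fun _ => ht _

theorem phi_Gam (ht : ∀ v : V, (t * t) • v = 0) (h0 : c' 0 = c 0)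
    (h : ∀ m, c' (m + 1) = c (m + 1) + t * c m) (m : ℕ) :
    phi V t * Gam V c (m + 1) = Gam V c' (m + 1) * phi V t := by
  have := smul_eq_zero_of ht (Gam V c m * sh C V)
  rw [Gam_succ h0 h, phi]
  simp only [add_mul, mul_add, one_mul, mul_one, smul_mul_assoc, mul_smul_comm, sh_Gam, smul_add,
    smul_smul, this, add_zero]
  abel

theorem phi_up (A : Module.End C V) : phi V t * up A = up A * phi V t := by
  refine LinearMap.ext fun f => funext fun r => ?_
  rw [Module.End.mul_apply, Module.End.mul_apply, phi_apply, up_apply, up_apply, up_apply,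
    phi_apply, map_add, map_smul]

theorem psi_Gam {x : C} (ht : ∀ v : V, (x * t) • v = 0) (h0 : c' 0 = c 0)
    (h : ∀ m, c' (m + 1) = c (m + 1) + t * c m) (m : ℕ) :
    (x • (1 : Module.End C (ℕ → V))) * Gam V c (m + 1) = Gam V c' (m + 1) * (x • 1) := by
  have := smul_eq_zero_of ht (Gam V c m)
  rw [Gam_succ h0 h, smul_mul_assoc, one_mul, mul_smul_comm, mul_one, smul_add, smul_smul, this,
    add_zero]

theorem add_pow_sq {R : Type} [Ring R] {A B : R} (h : A * B = B * A) (hB : B * B = 0) (k : ℕ) :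
    (A + B) ^ (k + 1) = A ^ (k + 1) + ((k + 1 : ℕ) : R) * (A ^ k * B) := by
  induction k with
  | zero => simp
  | succ k ih =>
    have e1 : A ^ k * B * A = A ^ (k + 1) * B := by rw [mul_assoc, ← h, ← mul_assoc, ← pow_succ]
    have e2 : A ^ k * B * B = 0 := by rw [mul_assoc, hB, mul_zero]
    rw [pow_succ, ih, add_mul, mul_add, mul_add, mul_assoc _ _ A, mul_assoc _ _ B, e1, e2,
      ← pow_succ, mul_zero, add_zero, Nat.cast_succ (k + 1), add_mul, one_mul]
    abel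

theorem Gam_pow {p : ℕ} (hp : p ≠ 0) (hC : (p : C) = 0) (ht : ∀ v : V, (t * t) • v = 0)
    (h0 : c' 0 = c 0) (h : ∀ m, c' (m + 1) = c (m + 1) + t * c m) (m : ℕ)
    (hm : Gam V c (m + 1) ^ p = 0) : Gam V c' (m + 1) ^ p = 0 := by
  obtain ⟨k, rfl⟩ := Nat.exists_eq_succ_of_ne_zero hp
  have e : ((k + 1 : ℕ) : Module.End C (ℕ → V)) = 0 := by
    rw [← map_natCast (algebraMap C (Module.End C (ℕ → V))), hC, map_zero]
  rw [Gam_succ h0 h, add_pow_sq, hm, e, zero_mul, add_zero]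
  · rw [mul_smul_comm, smul_mul_assoc, Gam_comm]
  · rw [smul_mul_smul_comm]
    exact smul_eq_zero_of ht _

theorem dB_at (p : ℕ) (D : Module.End C V) (η μ : ℕ → Module.End C V) (J : ℕ) (f : ℕ → V) :
    dB p D η μ 0 J (Gam V c) f 0 =
      (D + ∑ k ∈ range (J + 1), c (p ^ k) • η k + c (p ^ J) ^ (p - 1) • μ J) (f 0) := by
  simp only [dB, LinearMap.add_apply, LinearMap.sum_apply, Pi.add_apply, Finset.sum_apply,
    Module.End.mul_apply, Gam_at, Gam_pow_at, up_apply, zero_add, LinearMap.smul_apply]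

/-- One more variable. -/
theorem step (𝒲 𝒲' : ℤ → AddSubgroup V) (d d' : Module.End C (ℕ → V)) (a x b : C) (q w : ℤ)
    (N : ℕ) (hb : b * a = 1) (hbs : Sh 𝒲 b 0) (ha : Sh 𝒲 a 0) (hxs : Sh 𝒲' x 2)
    (hmono : ∀ w, 𝒲 w ≤ 𝒲' w)
    (hdec : ∀ w, ∀ y ∈ 𝒲' w, ∃ y0 ∈ 𝒲 w, ∃ y1 ∈ 𝒲 (w - 2), y = y0 + x • y1)
    (huniq : ∀ w w', ∀ y0 ∈ 𝒲 w, ∀ y1 ∈ 𝒲 w', y0 + x • y1 = 0 → y0 = 0 ∧ y1 = 0)
    (hd : ∀ w, ∀ f ∈ Wn 𝒲 2 w, d f ∈ Wn 𝒲 2 (w + q)) (hdd : ∀ f, d (d f) = 0)
    (hφ : ∀ f, d' (phi V (a * x) f) = phi V (a * x) (d f)) (hψ : ∀ f, d' (x • f) = x • d f)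
    (hnb : ∀ f ∈ Nb C V (N + 1), d' f ∈ Nb C V (N + 1))
    (h1 : ExM d (Wn 𝒲 2) (Nb C V N) q (w - 2)) (h2 : ExM d (Wn 𝒲 2) (Nb C V (N + 2)) q w) :
    ExM d' (Wn 𝒲' 2) (Nb C V (N + 1)) q w := by
  have key : ∀ {u u' : ℤ} {f0 f1 : ℕ → V}, f0 ∈ Wn 𝒲 2 u → f1 ∈ Wn 𝒲 2 u' → u' = u - 2 →
      phi V (a * x) f0 + x • f1 ∈ Nb C V (N + 1) →
      ∀ r < N + 1, f0 r = 0 ∧ a • f0 (r + 1) + f1 r = 0 := by
    intro u u' f0 f1 m0 m1 hu h r hr
    refine huniq _ (u' - 2 * r) _ (m0 r) _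
      (add_mem (band_mem ha (m0 (r + 1)) (by rw [hu]; push_cast; ring)) (m1 r)) ?_
    have := h r hr
    rw [Pi.add_apply, phi_apply, Pi.smul_apply] at this
    linear_combination (norm := module) this
  have mem : ∀ {u u' : ℤ} {f0 f1 : ℕ → V}, f0 ∈ Wn 𝒲 2 u → f1 ∈ Wn 𝒲 2 u' → u' = u - 2 →
      phi V (a * x) f0 + x • f1 ∈ Wn 𝒲' 2 u := by
    intro u u' f0 f1 m0 m1 hu r
    rw [Pi.add_apply, phi_apply, Pi.smul_apply, mul_comm a, mul_smul]
    exact add_mem (add_mem (hmono _ (m0 r))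
      (band_mem hxs (hmono _ (ha _ _ (m0 (r + 1)))) (by push_cast; ring)))
      (band_mem hxs (hmono _ (m1 r)) (by rw [hu]; ring))
  intro g hg hdg
  choose g0 m0 g2 m2 hdec' using fun r => hdec _ _ (hg r)
  obtain ⟨g1, m1, rfl⟩ : ∃ g1 ∈ Wn 𝒲 2 (w - 2), g = phi V (a * x) g0 + x • g1 := by
    refine ⟨fun r => g2 r - a • g0 (r + 1), fun r => sub_mem (band_cast (m2 r) (by ring))
      (band_mem ha (m0 (r + 1)) (by push_cast; ring)), funext fun r => ?_⟩
    rw [hdec' r, Pi.add_apply, phi_apply, Pi.smul_apply]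
    module
  clear hdec' m2 g2
  replace m0 : g0 ∈ Wn 𝒲 2 w := m0
  have k1 := key (hd _ _ m0) (hd _ _ m1) (by ring) (by rwa [map_add, hφ, hψ] at hdg)
  obtain ⟨z1, n1, c1⟩ := h1 g1 m1 fun r hr => by
    have := (k1 r (by omega)).2
    rwa [(k1 (r + 1) (by omega)).1, smul_zero, zero_add] at this
  obtain ⟨e, me, ne, he⟩ : ∃ e ∈ Wn 𝒲 2 w, e ∈ Nb C V (N + 1) ∧
      phi V (a * x) e = e + x • (g1 - d z1) := by
    have mz : g1 - d z1 ∈ Wn 𝒲 2 (w - 2) :=
      sub_mem m1 (band_cast (𝒲 := Wn 𝒲 2) (hd _ _ n1) (by ring))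
    refine ⟨fun r => Nat.casesOn r 0 fun r => b • (g1 - d z1) r, fun r => ?_, fun r hr => ?_,
      funext fun r => ?_⟩
    · rcases r with _ | r
      · exact zero_mem _
      · exact band_mem hbs (mz r) (by push_cast; ring)
    · rcases r with _ | r
      · rfl
      · have := c1 r (by omega)
        change b • (g1 - d z1) r = 0
        rw [← neg_sub, Pi.neg_apply, this, neg_zero, smul_zero]
    · rw [phi_apply, Pi.add_apply, Pi.smul_apply]
      refine congrArg (_ + ·) ?_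
      change (a * x) • b • (g1 - d z1) r = _
      rw [smul_smul, show a * x * b = x * (b * a) by ring, hb, mul_one]
  have k2 := key (hd _ _ (add_mem m0 me)) (zero_mem (Wn 𝒲 2 (w + q - 2))) rfl (by
    have e1 : phi V (a * x) (g0 + e) = phi V (a * x) g0 + x • g1 + e - x • d z1 := by
      rw [map_add, he]; module
    rw [smul_zero, add_zero, ← hφ, e1, map_sub, hψ, hdd, smul_zero, sub_zero, map_add]
    exact add_mem hdg (hnb _ ne))
  obtain ⟨z0, n0, c0⟩ := h2 (g0 + e) (add_mem m0 me) fun r hr => by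
    rcases r with _ | r
    · exact (k2 0 (by omega)).1
    · have := (k2 r (by omega)).2
      rw [Pi.zero_apply, add_zero] at this
      rw [← one_smul C (d (g0 + e) (r + 1)), ← hb, mul_smul, this, smul_zero]
  refine ⟨phi V (a * x) z0 + x • z1, mem n0 n1 (by ring), ?_⟩
  have e2 : d' (phi V (a * x) z0 + x • z1) - (phi V (a * x) g0 + x • g1) =
      phi V (a * x) (d z0 - (g0 + e)) + e := by
    rw [map_add, hφ, hψ, map_sub, map_add, he]; module
  rw [e2]
  refine add_mem (fun r hr => ?_) ne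
  rw [phi_apply, c0 r (by omega), c0 (r + 1) (by omega), smul_zero, add_zero]

end BM

open BM

/-- Every new variable moves the start of the complex by one. -/
theorem bandG {p : ℕ} (hp : p.Prime) (hC : (p : C) = 0) (x a : ι → C) (γ : Finset ι → ℕ → C)
    (𝒱 : Finset ι → ℤ → AddSubgroup V) (D : Module.End C V) (η μ : ℕ → Module.End C V) (J : ℕ)
    (S : Finset ι) (s0 : ℤ) (hc : Car D η μ (J + 1)) (hg : ∀ T, Grd p (J + 1) (𝒱 T) D η μ)
    (g0 : ∀ T, γ T 0 = 1) (ge : ∀ m, γ ∅ (m + 1) = 0)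
    (gi : ∀ T i m, i ∉ T → γ (insert i T) (m + 1) = γ T (m + 1) + a i * x i * γ T m)
    (hx : ∀ i, ∀ v : V, (x i * x i) • v = 0)
    (hu : ∀ i ∈ S, ∃ b : C, b * a i = 1 ∧ ∀ T, Sh (𝒱 T) b 0)
    (ha : ∀ i ∈ S, ∀ T, Sh (𝒱 T) (a i) 0) (hxs : ∀ T ⊆ S, ∀ i ∈ T, Sh (𝒱 T) (x i) 2)
    (hmono : ∀ T i w, 𝒱 T w ≤ 𝒱 (insert i T) w)
    (hdec : ∀ T ⊆ S, ∀ i ∈ S, i ∉ T → ∀ w, ∀ y ∈ 𝒱 (insert i T) w,
      ∃ y0 ∈ 𝒱 T w, ∃ y1 ∈ 𝒱 T (w - 2), y = y0 + x i • y1)
    (huniq : ∀ T ⊆ S, ∀ i ∈ S, i ∉ T → ∀ w w', ∀ y0 ∈ 𝒱 T w, ∀ y1 ∈ 𝒱 T w',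
      y0 + x i • y1 = 0 → y0 = 0 ∧ y1 = 0)
    (h0 : ∀ w < s0, Ex D (𝒱 ∅) ((p : ℤ) ^ (J + 1)) w) (w : ℤ) (hw : w < s0 + S.card) :
    Ex (D + ∑ k ∈ range (J + 1), γ S (p ^ k) • η k + γ S (p ^ J) ^ (p - 1) • μ J) (𝒱 S)
      ((p : ℤ) ^ (J + 1)) w := by
  have hq : ∀ j, ∃ m, p ^ j = m + 1 := fun j =>
    Nat.exists_eq_succ_of_ne_zero (pow_ne_zero j hp.ne_zero)
  have ht : ∀ i, ∀ v : V, (a i * x i * (a i * x i)) • v = 0 := fun i v => by
    rw [show a i * x i * (a i * x i) = a i * a i * (x i * x i) by ring, mul_smul, hx, smul_zero]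
  have ht' : ∀ i, ∀ v : V, (x i * (a i * x i)) • v = 0 := fun i v => by
    rw [show x i * (a i * x i) = a i * (x i * x i) by ring, mul_smul, hx, smul_zero]
  have hpow : ∀ T, Gam V (γ T) (p ^ J) ^ p = 0 := fun T => by
    induction T using Finset.induction_on with
    | empty => rw [Gam_empty (g0 _) ge]; exact gm_pow hp hC J
    | insert i T hi ih =>
      obtain ⟨m, hm⟩ := hq J
      rw [hm] at ih ⊢
      exact Gam_pow hp.ne_zero hC (ht i) (by rw [g0, g0]) (fun m => gi T i m hi) m ih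
  have hsh : ∀ T ⊆ S, ∀ T' ⊆ T, ∀ m : ℕ, Sh (𝒱 T) (γ T' m) (2 * m) := fun T hT T' => by
    induction T' using Finset.induction_on with
    | empty =>
      intro _ m
      rcases m with _ | m
      · rw [g0]; exact Sh.one.cast (by simp)
      · rw [ge]; exact Sh.zero _
    | insert i T' hi ih =>
      intro h m
      have hiT := h (mem_insert_self _ _)
      have ih' := ih ((subset_insert _ _).trans h)
      rcases m with _ | m
      · rw [g0]; exact Sh.one.cast (by simp)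
      · rw [gi T' i m hi]
        exact (ih' _).add ((((ha i (hT hiT) T).mul (hxs T hT i hiT)).mul (ih' m)).cast
          (by push_cast; ring))
  have key : ∀ T ⊆ S, ∀ (N : ℕ) (w : ℤ), w < s0 + T.card + N - 1 →
      ExM (dB p D η μ 0 J (Gam V (γ T))) (Wn (𝒱 T) 2) (Nb C V N) ((p : ℤ) ^ (J + 1)) w := by
    intro T
    induction T using Finset.induction_on with
    | empty =>
      intro _ N w hw
      have := bandV (k := 0) (m := J) hp hC hc (hg ∅) (by omega) s0 h0 N w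
        (by rw [card_empty] at hw; push_cast at hw; rw [pow_zero]; omega)
      rw [pow_zero, mul_one] at this
      rwa [Gam_empty (g0 _) ge]
    | insert i T hi ih =>
      intro hT N w hw
      rcases N with _ | N
      · exact fun v _ _ => ⟨0, zero_mem _, fun r hr => absurd hr (Nat.not_lt_zero r)⟩
      have hiS : i ∈ S := hT (mem_insert_self _ _)
      have hTS : T ⊆ S := (subset_insert _ _).trans hT
      obtain ⟨b, hb, hbs⟩ := hu i hiS
      rw [card_insert_of_notMem hi] at hw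
      have e0 : γ (insert i T) 0 = γ T 0 := by rw [g0, g0]
      refine step (𝒱 T) (𝒱 (insert i T)) (dB p D η μ 0 J (Gam V (γ T))) _ (a i) (x i) b _ w N hb
        (hbs T) (ha i hiS T) (hxs _ hT i (mem_insert_self _ _)) (hmono T i)
        (hdec T hTS i hiS hi) (huniq T hTS i hiS hi) (fun w f hf => ?_) (fun f => ?_)
        (fun f => ?_) (fun f => ?_) (fun f hf => dB_nb Gam_nb hf)
        (ih hTS _ _ (by push_cast at hw ⊢; omega)) (ih hTS _ _ (by push_cast at hw ⊢; omega))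
      · have := dB_mem (k := 0) (m := J) (G := Gam V (γ T)) hp.one_le (hg T) (by omega)
          (by rw [pow_zero, mul_one]; exact Gam_mem (hsh T hTS T Subset.rfl)) (w := w) (f := f)
          (by rwa [pow_zero, mul_one])
        rwa [pow_zero, mul_one] at this
      · exact LinearMap.congr_fun
          (dB_sq (k := 0) (m := J) hp.one_le hc (by omega) Gam_comm Gam_up (hpow T)) f
      · exact (LinearMap.congr_fun (dB_map (phi V (a i * x i)) phi_up fun j _ => by
          obtain ⟨m, hm⟩ := hq j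
          rw [hm]
          exact phi_Gam (ht i) e0 (fun m => gi T i m hi) m) f).symm
      · exact (LinearMap.congr_fun (dB_map (x i • (1 : Module.End C (ℕ → V)))
          (fun A => by rw [smul_mul_assoc, mul_smul_comm, one_mul, mul_one]) fun j _ => by
          obtain ⟨m, hm⟩ := hq j
          rw [hm]
          exact psi_Gam (ht' i) e0 (fun m => gi T i m hi) m) f).symm
  intro v hv hdv
  obtain ⟨z, hz, h⟩ := key S Subset.rfl 1 w (by push_cast; omega) (Pi.single 0 v)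
    (fun r => by
      rcases r with _ | r
      · rw [Pi.single_eq_same]; exact band_cast hv (by simp)
      · rw [Pi.single_eq_of_ne (Nat.succ_ne_zero r)]; exact zero_mem _)
    fun r hr => by
      obtain rfl : r = 0 := by omega
      rw [dB_at, Pi.single_eq_same, hdv]
  refine ⟨z 0, band_cast (hz 0) (by simp), ?_⟩
  have := h 0 Nat.one_pos
  rwa [Pi.sub_apply, dB_at, Pi.single_eq_same, sub_eq_zero] at this

end Pool.Agent.Lib.MP_3184af_co.TateG
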