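import Pool.Agent.Lib.MP_3184af_co.TateG.BandH

set_option autoImplicit false

namespace Pool.Agent.Lib.MP_3184af_co.TateG

open Finset Tate

variable {C V : Type} [CommRing C] [AddCommGroup V] [Module C V]
  {p n k m : ℕ} {D : Module.End C V} {η μ : ℕ → Module.End C V} {𝒱 : ℤ → AddSubgroup V}

namespace BV

variable (C V) in
/-- Spread a sequence over the residue class `c` modulo `p`. -/
def ec (p c : ℕ) : Module.End C (ℕ → V) where
  toFun g r := if r % p = c then g (r / p) else 0
  map_add' _ _ := funext fun r => by by_cases h : r % p = c <;> simp [h]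
  map_smul' _ _ := funext fun r => by by_cases h : r % p = c <;> simp [h]

theorem ec_apply (c : ℕ) (g : ℕ → V) (r : ℕ) :
    ec C V p c g r = if r % p = c then g (r / p) else 0 := rfl

theorem ec_at {c : ℕ} (hc : c < p) (c' : ℕ) (g : ℕ → V) (r : ℕ) :
    ec C V p c' g (p * r + c) = if c = c' then g r else 0 := by
  rw [ec_apply, Nat.mul_add_mod, Nat.mod_eq_of_lt hc, Nat.mul_add_div (by omega),
    Nat.div_eq_of_lt hc, add_zero]

theorem ec_up (c : ℕ) (A : Module.End C V) : up A * ec C V p c = ec C V p c * up A :=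
  LinearMap.ext fun g => funext fun r => by
    simp only [Module.End.mul_apply, up_apply, ec_apply]
    split_ifs <;> simp

theorem ec_nb (c : ℕ) {M : ℕ} {g : ℕ → V} (h : g ∈ Nb C V M) : ec C V p c g ∈ Nb C V (p * M) :=
  fun r hr => by
    rw [ec_apply]
    split_ifs
    exacts [h _ (Nat.div_lt_of_lt_mul hr), rfl]

theorem ec_mem (c : ℕ) {u w : ℤ} {g : ℕ → V} (h : g ∈ Wn 𝒱 (u * p) (w - u * c)) :
    ec C V p c g ∈ Wn 𝒱 u w := fun r => by
  rw [ec_apply]
  split_ifs with e
  · refine band_cast (h (r / p)) ?_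
    have := congrArg (Nat.cast : ℕ → ℤ) (Nat.div_add_mod r p)
    rw [e, Nat.cast_add, Nat.cast_mul] at this
    rw [← this]
    ring
  · exact zero_mem _

theorem cast_eq (hC : (p : C) = 0) {a b : ℕ} (h : a ≡ b [MOD p]) : (a : C) = b := by
  rw [← Nat.div_add_mod a p, ← Nat.div_add_mod b p, show a % p = b % p from h]
  simp [hC]

theorem gm_ec (hp : p.Prime) (hC : (p : C) = 0) (a c : ℕ) :
    gm C V (p * a) * ec C V p c = ec C V p c * gm C V a :=
  LinearMap.ext fun g => funext fun r => by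
    have := Fact.mk hp
    have h := cast_eq hC (Choose.choose_modEq_choose_mod_mul_choose_div_nat (n := r) (k := p * a)
      (p := p))
    rw [Nat.mul_mod_right, Nat.choose_zero_right, one_mul, Nat.mul_div_cancel_left _ hp.pos] at h
    simp only [Module.End.mul_apply, gm_apply, ec_apply]
    rcases lt_or_ge r (p * a) with k | k
    · rw [← h, Nat.choose_eq_zero_of_lt k]
      simp
    · rw [h, Nat.sub_mul_mod k, Nat.sub_mul_div]
      split_ifs <;> simp

theorem gm_pow_ec (hp : p.Prime) (hC : (p : C) = 0) (a c i : ℕ) :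
    gm C V (p * a) ^ i * ec C V p c = ec C V p c * gm C V a ^ i := by
  induction i with
  | zero => simp
  | succ i ih => rw [pow_succ, mul_assoc, gm_ec hp hC, ← mul_assoc, ih, mul_assoc, ← pow_succ]

theorem gm_one_ec (hC : (p : C) = 0) {c : ℕ} (hc : c + 1 < p) :
    gm C V 1 * ec C V p c = ((c + 1 : ℕ) : C) • ec C V p (c + 1) :=
  LinearMap.ext fun g => funext fun r => by
    simp only [Module.End.mul_apply, gm_apply, ec_apply, LinearMap.smul_apply, Pi.smul_apply,
      Nat.choose_one_right]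
    rcases r with _ | r
    · simp
    obtain ⟨a, b, hb, rfl⟩ : ∃ a b, b < p ∧ r = p * a + b :=
      ⟨r / p, r % p, Nat.mod_lt _ (by omega), (Nat.div_add_mod r p).symm⟩
    rw [Nat.add_sub_cancel, ← ec_apply (C := C), ← ec_apply (C := C), ec_at hb, add_assoc]
    rcases (Nat.succ_le_of_lt hb).lt_or_eq with k | k
    · rw [ec_at k]
      by_cases e : b = c
      · subst e
        simp [hC]
      · simp [e]
    · have k' : b + 1 = p := k
      rw [if_neg (by omega), k', ← Nat.mul_succ, ← add_zero (p * a.succ), ec_at (by omega)]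
      simp

theorem gm_one_top (hp : p.Prime) (hC : (p : C) = 0) : gm C V 1 * ec C V p (p - 1) = 0 :=
  LinearMap.ext fun g => funext fun r => by
    have := hp.two_le
    simp only [Module.End.mul_apply, gm_apply, ec_apply, Nat.choose_one_right]
    rcases r with _ | r
    · simp
    rw [Nat.add_sub_cancel]
    split_ifs with e
    · have h : r + 1 = p * (r / p + 1) := by
        have := Nat.div_add_mod r p
        rw [mul_add]
        omega
      rw [h]
      simp [hC]
    · simp

theorem gm_one_pow (hC : (p : C) = 0) {i : ℕ} (hi : i < p) :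
    gm C V 1 ^ i * ec C V p 0 = (i.factorial : C) • ec C V p i := by
  induction i with
  | zero => simp
  | succ i ih =>
    rw [pow_succ', mul_assoc, ih (by omega), mul_smul_comm, gm_one_ec hC hi, smul_smul,
      Nat.factorial_succ, Nat.cast_mul, mul_comm]

theorem wilson (hp : p.Prime) (hC : (p : C) = 0) : ((p - 1).factorial : C) = -1 := by
  have := Fact.mk hp
  have h : (((p - 1).factorial + 1 : ℕ) : ZMod p) = 0 := by
    rw [Nat.cast_add, ZMod.wilsons_lemma]
    simp
  obtain ⟨a, ha⟩ := (ZMod.natCast_eq_zero_iff _ _).1 h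
  have := congrArg (Nat.cast : ℕ → C) ha
  rw [Nat.cast_mul, hC, zero_mul, Nat.cast_add, Nat.cast_one] at this
  exact eq_neg_of_add_eq_zero_left this

theorem mn (a b : Module.End C (ℕ → V)) : a * -b = -(a * b) :=
  LinearMap.ext fun g => map_neg a (b g)

theorem dB_succ (hp : p.Prime) (hC : (p : C) = 0) (c : ℕ) :
    dB p D η μ k (m + 1) (gm C V) * ec C V p c =
      ec C V p c * dB p D η μ (k + 1) m (gm C V) + gm C V 1 * ec C V p c * up (η k) := by
  have e : ∀ j, k + (j + 1) = k + 1 + j := fun j => by omega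
  rw [dB, dB, sum_range_succ']
  simp only [add_mul, mul_add, sum_mul, mul_sum, mul_assoc, ec_up, pow_succ' p, add_zero,
    pow_zero]
  simp only [← mul_assoc, gm_ec hp hC, gm_pow_ec hp hC]
  rw [e m, sum_congr rfl fun j _ => by rw [e j]]
  abel

theorem dB_anti {A : Module.End C V} (h1 : D * A = -(A * D))
    (h2 : ∀ j ≤ m, η (k + j) * A = -(A * η (k + j))) (h3 : μ (k + m) * A = -(A * μ (k + m))) :
    dB p D η μ k m (gm C V) * up A = -(up A * dB p D η μ k m (gm C V)) := by
  have e : ∀ i, gm C V (p ^ m) ^ i * up A = up A * gm C V (p ^ m) ^ i := fun i =>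
    (Commute.pow_left (gm_up _ A) i).eq
  rw [dB, add_mul, add_mul, mul_add, mul_add, neg_add, neg_add, sum_mul, mul_sum, ← sum_neg_distrib]
  congr 2
  · rw [← map_mul, h1, map_neg, map_mul]
  · refine sum_congr rfl fun j hj => ?_
    rw [mul_assoc, ← map_mul, h2 j (by simpa [Nat.lt_succ_iff] using hj), map_neg, map_mul, mn,
      ← mul_assoc, gm_up, mul_assoc]
  · rw [mul_assoc, ← map_mul, h3, map_neg, map_mul, mn, ← mul_assoc, e, mul_assoc]

/-- Reduction to the two residue classes. -/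
theorem split (hp : p.Prime) (hC : (p : C) = 0) (hc : Car D η μ n) (hg : Grd p n 𝒱 D η μ)
    (hn : k + m < n) {M : ℕ} {w : ℤ} {x : ℕ → V} (hx : x ∈ Wn 𝒱 (2 * (p : ℤ) ^ k) w)
    (hd : dB p D η μ k m (gm C V) x ∈ Nb C V (p * M)) :
    ∃ z ∈ Wn 𝒱 (2 * (p : ℤ) ^ k) (w - (p : ℤ) ^ n),
      ∃ x1 ∈ Wn 𝒱 (2 * (p : ℤ) ^ (k + 1)) (w - 2 * (p : ℤ) ^ k * (p - 1)),
      ∃ x2 ∈ Wn 𝒱 (2 * (p : ℤ) ^ (k + 1)) (w - ((p : ℤ) ^ n - 2 * (p : ℤ) ^ k)),
      up (μ k) x1 = 0 ∧ up (μ k) x2 = 0 ∧
      dB p D η μ k m (gm C V) z + (ec C V p (p - 1) x1 + ec C V p 0 (up (η k) x2)) - x ∈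
        Nb C V (p * M) ∧
      dB p D η μ k m (gm C V) (ec C V p (p - 1) x1 + ec C V p 0 (up (η k) x2)) ∈
        Nb C V (p * M) := by
  have h2 := hp.two_le
  have hk : k < n := by omega
  obtain ⟨u, u1, -, u3⟩ := exists_hom hp hC hc hn
  have mm : ∀ v, μ k (μ k v) = 0 := fun v => LinearMap.congr_fun (hc.m2 k hk) v
  have key : dB p D η μ k m (gm C V) (fun r => (u (r + 1) : C) • μ k (x (r + 1))) +
      (ec C V p (p - 1) (fun r => μ k (η k (x (p * r + (p - 1))))) +
        ec C V p 0 (up (η k) fun r => μ k (x (p * r)))) - x ∈ Nb C V (p * M) := fun r hr => by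
    have e := u3 x r
    have e0 : (u (r + 1) : C) • μ k (dB p D η μ k m (gm C V) x (r + 1)) = 0 := by
      rcases (Nat.succ_le_of_lt hr).lt_or_eq with q | q
      · rw [hd _ q, map_zero, smul_zero]
      · rw [u1 (r + 1) ⟨M, q⟩, Nat.cast_zero, zero_smul]
    have e1 := Nat.div_add_mod r p
    have e2 := Nat.mod_lt r hp.pos
    have e3 : p ∣ r + 1 ↔ r % p = p - 1 := by
      refine ⟨fun ⟨a, ha⟩ => ?_, fun h => ⟨r / p + 1, by rw [mul_add]; omega⟩⟩
      obtain ⟨a, rfl⟩ : ∃ b, a = b + 1 := ⟨a - 1, by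
        rcases a with _ | a
        · omega
        · rfl⟩
      rw [show r = p * a + (p - 1) by rw [mul_add] at ha; omega, Nat.mul_add_mod,
        Nat.mod_eq_of_lt (by omega)]
    rw [e0, add_zero] at e
    simp only [e3, Nat.dvd_iff_mod_eq_zero] at e
    rw [Pi.sub_apply, Pi.add_apply, Pi.add_apply, e, ec_apply, ec_apply, up_apply]
    split_ifs with a b b
    · omega
    · rw [← a, e1]
      abel
    · rw [show p * (r / p) = r by omega]
      abel
    · abel
  refine ⟨_, fun r => ?_, _, fun r => ?_, _, fun r => ?_, funext fun r => mm _,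
    funext fun r => mm _, key, ?_⟩
  · exact band_mem (band_sh_nat _) (hg.m k hk _ _ (hx (r + 1))) (by push_cast; ring)
  · refine band_cast (hg.m k hk _ _ (hg.e k hk _ _ (hx _))) ?_
    push_cast [hp.one_le]
    ring
  · exact band_cast (hg.m k hk _ _ (hx _)) (by push_cast; ring)
  · have a := dB_nb (p := p) (D := D) (η := η) (μ := μ) (k := k) (m := m)
      (fun a f hf => Nb_mono (Nat.le_add_right _ a) (gm_nb a hf)) key
    rw [map_sub, map_add, ← Module.End.mul_apply,
      dB_sq hp.one_le hc hn gm_comm gm_up (gm_pow hp hC m), LinearMap.zero_apply, zero_add] at a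
    simpa using add_mem a hd

theorem nb_of (hp : p.Prime) {M : ℕ} {a b : ℕ → V}
    (h : ec C V p (p - 1) a + ec C V p 0 b ∈ Nb C V (p * M)) : a ∈ Nb C V M ∧ b ∈ Nb C V M := by
  have h2 := hp.two_le
  have k : ∀ r < M, ∀ c < p, p * r + c < p * M := fun r hr c hc => by
    have := Nat.mul_le_mul_left p (Nat.succ_le_of_lt hr)
    rw [Nat.mul_succ] at this
    omega
  refine ⟨fun r hr => ?_, fun r hr => ?_⟩
  · have := h _ (k r hr (p - 1) (by omega))
    rwa [Pi.add_apply, ec_at (by omega), ec_at (by omega), if_pos rfl, if_neg (by omega),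
      add_zero] at this
  · have := h _ (k r hr 0 (by omega))
    rwa [Pi.add_apply, ec_at (by omega), ec_at (by omega), if_pos rfl, if_neg (by omega),
      zero_add] at this

theorem mu_eta (hc : Car D η μ n) (hk : k < n) {x : ℕ → V} (h : up (μ k) x = 0) :
    up (μ k) (up (η k) x) = x := by
  rw [← Module.End.mul_apply, ← map_mul, hc.me k hk k hk, if_pos rfl, map_sub, map_one, map_mul,
    LinearMap.sub_apply, Module.End.mul_apply, h, map_zero, sub_zero, Module.End.one_apply]

theorem up_mem (hg : Grd p n 𝒱 D η μ) (hk : k < n) {u w : ℤ} {x : ℕ → V} (h : x ∈ Wn 𝒱 u w) :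
    up (η k) x ∈ Wn 𝒱 u (w + ((p : ℤ) ^ n - 2 * (p : ℤ) ^ k)) := fun r =>
  band_cast (hg.e k hk _ _ (h r)) (by ring)

end BV

open BV

/-- Full blocks on the top level. -/
theorem band_top (hp : p.Prime) (hC : (p : C) = 0) (hc : Car D η μ n) (hg : Grd p n 𝒱 D η μ)
    (hn : k + 1 = n) (M : ℕ) (w : ℤ) :
    ExM (dB p D η μ k 0 (gm C V)) (Wn 𝒱 (2 * (p : ℤ) ^ k)) (Nb C V (p * M)) ((p : ℤ) ^ n) w := by
  intro x hx hd
  have h2 := hp.two_le
  have hk : k < n := by omega
  obtain ⟨z, hz, x1, h1, x2, -, m1, m2, a, b⟩ := split hp hC hc hg (by omega) hx hd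
  have d1 : dB p D η μ k 0 (gm C V) * ec C V p (p - 1) = ec C V p (p - 1) * up D := by
    obtain ⟨i, hi⟩ : ∃ i, p - 1 = i + 1 := ⟨p - 2, by omega⟩
    have : gm C V 1 ^ (p - 1) * ec C V p (p - 1) = 0 := by
      nth_rewrite 1 [hi]
      rw [pow_succ, mul_assoc, gm_one_top hp hC, mul_zero]
    simp only [dB, zero_add, range_one, sum_singleton, pow_zero, add_zero, add_mul, mul_assoc,
      ec_up]
    simp only [← mul_assoc, this, gm_one_top hp hC, zero_mul, add_zero]
  have d2 : ∀ g, up (μ k) g = 0 → dB p D η μ k 0 (gm C V) (ec C V p 0 (up (η k) g)) =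
      -ec C V p (p - 1) g - ec C V p 0 (up (η k) (up D g)) := fun g hg => by
    have e : dB p D η μ k 0 (gm C V) * ec C V p 0 * up (η k) =
        -(ec C V p (p - 1) * (up (μ k) * up (η k))) - ec C V p 0 * (up (η k) * up D) := by
      simp only [dB, zero_add, range_one, sum_singleton, pow_zero, add_zero, add_mul,
        mul_assoc _ _ (ec C V p 0), ec_up]
      rw [← mul_assoc (gm C V 1 ^ (p - 1)), gm_one_pow hC (by omega), wilson hp hC]
      simp only [mul_assoc, ← map_mul, hc.e2 k hk, hc.de k hk, map_zero, mul_zero, map_neg,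
        mn, add_zero, smul_mul_assoc]
      rw [show ∀ a : Module.End C (ℕ → V), (-1 : C) • a = -a from fun a =>
        LinearMap.ext fun g => neg_one_smul C (a g)]
      abel
    have := LinearMap.congr_fun e g
    simp only [Module.End.mul_apply, LinearMap.sub_apply, LinearMap.neg_apply] at this
    rw [this, mu_eta hc hk hg]
  rw [map_add, d2 x2 m2, ← Module.End.mul_apply, d1, Module.End.mul_apply] at b
  have c := (nb_of hp (a := up D x1 - x2) (b := -up (η k) (up D x2)) (by
    rw [map_sub, map_neg]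
    convert b using 1
    abel)).1
  refine ⟨z - ec C V p 0 (up (η k) x1), sub_mem hz (ec_mem 0 ?_), ?_⟩
  · have := up_mem hg hk h1
    rw [mul_assoc, ← pow_succ]
    convert this using 2
    rw [← hn]
    push_cast
    ring
  · have := add_mem a (ec_nb (p := p) 0 (up_nb (η k) c))
    rw [map_sub, map_sub] at this
    rw [map_sub, d2 x1 m1]
    convert this using 1
    abel

/-- Full blocks below the top level. -/
theorem band_full (hp : p.Prime) (hC : (p : C) = 0) (hc : Car D η μ n) (hg : Grd p n 𝒱 D η μ)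
    (hn : k + m + 2 = n) (M : ℕ) (w : ℤ)
    (h1 : ExM (dB p D η μ (k + 1) m (gm C V)) (Wn 𝒱 (2 * (p : ℤ) ^ (k + 1))) (Nb C V M)
      ((p : ℤ) ^ n) (w - 2 * (p : ℤ) ^ k * (p - 1)))
    (h2 : ExM (dB p D η μ (k + 1) m (gm C V)) (Wn 𝒱 (2 * (p : ℤ) ^ (k + 1))) (Nb C V M)
      ((p : ℤ) ^ n) (w - ((p : ℤ) ^ n - 2 * (p : ℤ) ^ k))) :
    ExM (dB p D η μ k (m + 1) (gm C V)) (Wn 𝒱 (2 * (p : ℤ) ^ k)) (Nb C V (p * M))
      ((p : ℤ) ^ n) w := by
  intro x hx hd
  have hk : k < n := by omega
  obtain ⟨z, hz, x1, a1, x2, a2, -, m2, a, b⟩ := split hp hC hc hg (by omega) hx hd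
  have d1 : ∀ g, dB p D η μ k (m + 1) (gm C V) (ec C V p (p - 1) g) =
      ec C V p (p - 1) (dB p D η μ (k + 1) m (gm C V) g) := fun g => by
    rw [← Module.End.mul_apply, dB_succ hp hC, gm_one_top hp hC, zero_mul, add_zero,
      Module.End.mul_apply]
  have ae : dB p D η μ (k + 1) m (gm C V) * up (η k) = -(up (η k) * dB p D η μ (k + 1) m (gm C V)) :=
    dB_anti (hc.de k hk) (fun j hj => hc.ee _ (by omega) k hk) (by
      rw [hc.me _ (by omega) k hk, if_neg (by omega), zero_sub])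
  have am : dB p D η μ (k + 1) m (gm C V) * up (μ k) = -(up (μ k) * dB p D η μ (k + 1) m (gm C V)) :=
    dB_anti (hc.dm k hk) (fun j hj => by
      rw [hc.me k hk _ (by omega), if_neg (by omega), zero_sub, neg_neg]) (hc.mm _ (by omega) k hk)
  have d2 : ∀ g, dB p D η μ k (m + 1) (gm C V) (ec C V p 0 (up (η k) g)) =
      ec C V p 0 (-up (η k) (dB p D η μ (k + 1) m (gm C V) g)) := fun g => by
    rw [← Module.End.mul_apply, ← Module.End.mul_apply, dB_succ hp hC, add_mul, mul_assoc, ae,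
      mul_assoc, ← map_mul, hc.e2 k hk, map_zero, mul_zero, add_zero]
    rfl
  rw [map_add, d1, d2] at b
  obtain ⟨b1, b2⟩ := nb_of hp b
  have b3 := up_nb (μ k) (neg_mem b2)
  rw [neg_neg, mu_eta hc hk (by
    have := LinearMap.congr_fun am x2
    rw [Module.End.mul_apply, m2, map_zero, LinearMap.neg_apply, eq_comm, neg_eq_zero] at this
    exact this)] at b3
  obtain ⟨z1, c1, e1⟩ := h1 x1 a1 b1
  obtain ⟨z2, c2, e2⟩ := h2 x2 a2 b3
  refine ⟨z + ec C V p (p - 1) z1 - ec C V p 0 (up (η k) z2),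
    sub_mem (add_mem hz (ec_mem _ ?_)) (ec_mem 0 ?_), ?_⟩
  · rw [mul_assoc, ← pow_succ]
    convert c1 using 2
    push_cast [hp.one_le]
    ring
  · rw [mul_assoc, ← pow_succ]
    convert up_mem hg hk c2 using 2
    push_cast
    ring
  · have := add_mem (add_mem a (ec_nb (p := p) (p - 1) e1)) (ec_nb (p := p) 0 (up_nb (η k) e2))
    simp only [map_sub] at this
    rw [map_sub, map_add, d1, d2, map_neg]
    convert this using 1
    abel

/-- The complex of a truncated divided power algebra. -/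
theorem bandV (hp : p.Prime) (hC : (p : C) = 0) (hc : Car D η μ n) (hg : Grd p n 𝒱 D η μ)
    (hn : k + m + 1 = n) (s : ℤ) (h0 : ∀ w < s, Ex D 𝒱 ((p : ℤ) ^ n) w) (N : ℕ) (w : ℤ)
    (hw : w < s + (p : ℤ) ^ k * (N - 1)) :
    ExM (dB p D η μ k m (gm C V)) (Wn 𝒱 (2 * (p : ℤ) ^ k)) (Nb C V N) ((p : ℤ) ^ n) w := by
  have h2 : (2 : ℤ) ≤ p := by exact_mod_cast hp.two_le
  have key : ∀ (k m N : ℕ) (w : ℤ), k + m + 1 = n → w < s + (p : ℤ) ^ k * (N - 1) →
      ExM (dB p D η μ k m (gm C V)) (Wn 𝒱 (2 * (p : ℤ) ^ k)) (Nb C V (p * (N / p)))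
        ((p : ℤ) ^ n) w →
      ExM (dB p D η μ k m (gm C V)) (Wn 𝒱 (2 * (p : ℤ) ^ k)) (Nb C V N) ((p : ℤ) ^ n) w := by
    intro k m N w hn hw h x hx hd
    have e1 := Nat.div_add_mod N p
    have e2 := Nat.mod_lt N hp.pos
    obtain ⟨z, hz, a⟩ := h x hx (Nb_mono (by omega) hd)
    rcases Nat.eq_zero_or_pos (N % p) with q | q
    · exact ⟨z, hz, Nb_mono (by omega) a⟩
    have hq : (0 : ℤ) < (p : ℤ) ^ k := by positivity
    have hq' : (p : ℤ) ^ k * p ≤ (p : ℤ) ^ n := by
      rw [← pow_succ]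
      exact pow_le_pow_right₀ (by omega) (by omega)
    have b := dB_mem hp.one_le hg hn (fun a _ _ hf => gm_mem a hf) hz
    rw [sub_add_cancel] at b
    have e3 : (N : ℤ) + 1 ≤ (p * (N / p) : ℕ) + p := by omega
    have e4 : (1 : ℤ) ≤ N := by omega
    have e5 : (0 : ℤ) ≤ (p * (N / p) : ℕ) := by omega
    obtain ⟨z', hz', a'⟩ := band_part hp hC hc hg hn s h0 (p * (N / p)) N ⟨_, rfl⟩ (by omega)
      (by omega) w (by nlinarith) (by nlinarith) (x - dB p D η μ k m (gm C V) z) (sub_mem hx b)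
      (by simpa using neg_mem a) (by
        rw [map_sub, ← Module.End.mul_apply,
          dB_sq hp.one_le hc (by omega) gm_comm gm_up (gm_pow hp hC m), LinearMap.zero_apply,
          sub_zero]
        exact hd)
    refine ⟨z + z', add_mem hz hz', ?_⟩
    rw [map_add]
    convert a' using 1
    abel
  induction m generalizing k N w with
  | zero => exact key k 0 N w hn hw (band_top hp hC hc hg hn _ w)
  | succ m ih =>
    have e1 := Nat.div_add_mod N p
    have e2 := Nat.mod_lt N hp.pos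
    have e3 : (N : ℤ) + 1 ≤ p * (N / p : ℕ) + p := by
      rw [← Nat.cast_mul]
      omega
    have hq : (0 : ℤ) < (p : ℤ) ^ k := by positivity
    have hq' : (p : ℤ) ^ k * p * p ≤ (p : ℤ) ^ n := by
      rw [← pow_succ, ← pow_succ]
      exact pow_le_pow_right₀ (by omega) (by omega)
    have e4 := mul_le_mul_of_nonneg_left e3 hq.le
    have e5 := mul_le_mul_of_nonneg_left h2 (mul_nonneg hq.le (by omega : (0 : ℤ) ≤ p))
    refine key k _ N w hn hw (band_full hp hC hc hg (by omega) _ w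
      (ih (by omega) _ _ ?_) (ih (by omega) _ _ ?_))
    · rw [pow_succ]
      linarith
    · rw [pow_succ]
      linarith

end Pool.Agent.Lib.MP_3184af_co.TateG
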