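import Pool.Agent.Lib.MP_3184af_co.TateG.DefsG

set_option autoImplicit false

namespace Pool.Agent.Lib.MP_3184af_co.TateG

open Finset Tate

open MvPolynomial

section
variable {ι K : Type} [DecidableEq ι] [CommRing K]

/-- The generating polynomial of the divided powers. -/
noncomputable def Gam.gen (a : ι → K) (U : Finset ι) : Polynomial (MvPolynomial ι K) :=
  ∏ i ∈ U, (1 + Polynomial.C (C (a i) * X i) * Polynomial.X)

omit [DecidableEq ι] in
theorem Gam.coeff_gen (m : ℕ) (a : ι → K) (U : Finset ι) : (Gam.gen a U).coeff m = gam m a U := by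
  rw [Gam.gen, prod_one_add, Polynomial.finsetSum_coeff, gam, powersetCard_eq_filter, sum_filter]
  refine sum_congr rfl fun T _ => ?_
  rw [prod_mul_distrib, prod_const, ← map_prod, Polynomial.coeff_C_mul_X_pow]
  exact if_congr eq_comm rfl rfl

theorem Gam.X_X (i : ι) : (X i * X i : MvPolynomial ι K) ∈ An ι K :=
  Module.mem_annihilator.2 (X_X_smul i)

theorem gam_zero (a : ι → K) (U : Finset ι) : gam 0 a U = 1 := by
  simp [gam]

theorem gam_empty (m : ℕ) (a : ι → K) : gam (m + 1) a ∅ = 0 := by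
  rw [← Gam.coeff_gen, Gam.gen, prod_empty, Polynomial.coeff_one, if_neg m.succ_ne_zero]

theorem gam_insert (m : ℕ) (a : ι → K) {U : Finset ι} {i : ι} (hi : i ∉ U) :
    gam (m + 1) a (insert i U) = gam (m + 1) a U + C (a i) * X i * gam m a U := by
  rw [← Gam.coeff_gen, Gam.gen, prod_insert hi, ← Gam.gen, add_mul, one_mul, Polynomial.coeff_add,
    mul_assoc, Polynomial.coeff_C_mul, Polynomial.coeff_X_mul, Gam.coeff_gen, Gam.coeff_gen]

theorem gam_congr (m : ℕ) {a b : ι → K} {U : Finset ι} (h : ∀ i ∈ U, a i = b i) :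
    gam m a U = gam m b U := by
  rw [← Gam.coeff_gen, ← Gam.coeff_gen, Gam.gen, Gam.gen, prod_congr rfl fun i hi => by rw [h i hi]]

theorem gam_of_zero {m : ℕ} (hm : m ≠ 0) {a : ι → K} {U : Finset ι} (h : ∀ i ∈ U, a i = 0) :
    gam m a U = 0 := by
  rw [← Gam.coeff_gen, Gam.gen, prod_eq_one fun i hi => by simp [h i hi], Polynomial.coeff_one,
    if_neg hm]

theorem gam_union (m : ℕ) (a : ι → K) {Z S : Finset ι} (h : Disjoint Z S) :
    gam m a (Z ∪ S) = ∑ i ∈ range (m + 1), gam i a Z * gam (m - i) a S := by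
  rw [← Gam.coeff_gen, Gam.gen, prod_union h, Polynomial.coeff_mul,
    Finset.Nat.sum_antidiagonal_eq_sum_range_succ_mk]
  exact sum_congr rfl fun i _ => by rw [← Gam.coeff_gen, ← Gam.coeff_gen]; rfl

theorem gam_union_zero (m : ℕ) {a : ι → K} {Z S : Finset ι} (h : Disjoint Z S)
    (hZ : ∀ i ∈ Z, a i = 0) : gam m a (Z ∪ S) = gam m a S := by
  rw [← Gam.coeff_gen, Gam.gen, prod_union h, prod_eq_one fun i hi => by simp [hZ i hi], one_mul,
    ← Gam.coeff_gen, Gam.gen]

theorem gam_smul (m : ℕ) (c : K) (a : ι → K) (U : Finset ι) :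
    gam m (fun i => a i * c) U = C c ^ m * gam m a U := by
  rw [gam, gam, mul_sum]
  refine sum_congr rfl fun T hT => ?_
  rw [← (mem_powersetCard.1 hT).2, ← prod_const, ← prod_mul_distrib]
  exact prod_congr rfl fun i _ => by rw [map_mul]; ring

theorem gam_add (m : ℕ) (a b : ι → K) (U : Finset ι) :
    gam m (a + b) U - ∑ i ∈ range (m + 1), gam i a U * gam (m - i) b U ∈ An ι K := by
  have e : (Gam.gen (a + b) U).map (Ideal.Quotient.mk (An ι K)) =
      (Gam.gen a U * Gam.gen b U).map (Ideal.Quotient.mk (An ι K)) := by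
    rw [Gam.gen, Gam.gen, Gam.gen, ← prod_mul_distrib, Polynomial.map_prod, Polynomial.map_prod]
    refine prod_congr rfl fun i _ => ?_
    have := congrArg Polynomial.C (Ideal.Quotient.eq_zero_iff_mem.2 (Gam.X_X (K := K) i))
    simp only [Pi.add_apply, map_add, map_mul, map_zero, Polynomial.map_add, Polynomial.map_mul,
      Polynomial.map_one, Polynomial.map_C, Polynomial.map_X] at this ⊢
    linear_combination (-(Polynomial.C (Ideal.Quotient.mk (An ι K) (C (a i))) *
      Polynomial.C (Ideal.Quotient.mk (An ι K) (C (b i))) * Polynomial.X ^ 2)) * this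
  have := congrArg (Polynomial.coeff · m) e
  simp only [Polynomial.coeff_map] at this
  rw [Polynomial.coeff_mul, Finset.Nat.sum_antidiagonal_eq_sum_range_succ_mk] at this
  simpa only [Gam.coeff_gen] using Ideal.Quotient.eq.1 this

theorem gam_mul (i j : ℕ) (a : ι → K) (U : Finset ι) :
    gam i a U * gam j a U - ((i + j).choose i : ℕ) * gam (i + j) a U ∈ An ι K := by
  induction U using Finset.induction_on generalizing i j with
  | empty =>
    rcases i with _ | i
    · simp [gam_zero]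
    · rw [gam_empty, add_right_comm, gam_empty]
      simp
  | insert x U hx ih =>
    rcases i with _ | i
    · simp [gam_zero]
    rcases j with _ | j
    · simp [gam_zero]
    have h1 := ih (i + 1) (j + 1)
    have h2 := ih i (j + 1)
    have h3 := ih (i + 1) j
    rw [show i + 1 + (j + 1) = i + j + 1 + 1 by ring] at h1 ⊢
    rw [← add_assoc] at h2
    rw [add_right_comm] at h3
    have := add_mem (add_mem h1 (Ideal.mul_mem_left _ (C (a x) * X x) (add_mem h2 h3)))
      (Ideal.mul_mem_left _ (C (a x) * C (a x) * gam i a U * gam j a U) (Gam.X_X x))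
    rw [gam_insert _ _ hx, gam_insert _ _ hx, gam_insert _ _ hx]
    rw [Nat.choose_succ_succ', Nat.cast_add] at this ⊢
    exact (congrArg (· ∈ An ι K) (by ring)).mp this

theorem gam_mem (m : ℕ) (a : ι → K) (U : Finset ι) : gam m a U ∈ Hg K U m := by
  refine sum_mem fun T hT => ?_
  rw [mem_powersetCard] at hT
  obtain ⟨hT, rfl⟩ := hT
  induction T using Finset.induction_on with
  | empty => simp [Hg, Submodule.one_le.1 le_rfl]
  | insert x T hx ih =>
    rw [prod_insert hx, card_insert_of_notMem hx, Hg, pow_succ', C_mul']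
    exact Submodule.mul_mem_mul (Submodule.smul_mem _ _
      (Submodule.subset_span ⟨x, hT (mem_insert_self _ _), rfl⟩))
      (ih ((subset_insert _ _).trans hT))

theorem C_mem_Hg (U : Finset ι) (r : K) : (C r : MvPolynomial ι K) ∈ Hg K U 0 := by
  rw [Hg, pow_zero]
  exact Submodule.algebraMap_mem r

theorem Hg_mul {U : Finset ι} {m n : ℕ} {P Q : MvPolynomial ι K} (hP : P ∈ Hg K U m)
    (hQ : Q ∈ Hg K U n) : P * Q ∈ Hg K U (m + n) := by
  rw [Hg, pow_add]
  exact Submodule.mul_mem_mul hP hQ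

theorem Hg_sh {𝒲 : ℤ → AddSubgroup (Sq ι K)} {U : Finset ι} {k : ℤ}
    (hC : ∀ r, Sh 𝒲 (C r : MvPolynomial ι K) 0)
    (hX : ∀ i ∈ U, Sh 𝒲 (X i : MvPolynomial ι K) k) {n : ℕ} {P : MvPolynomial ι K}
    (hP : P ∈ Hg K U n) : Sh 𝒲 P (n * k) := by
  induction n generalizing P with
  | zero =>
    rw [Hg, pow_zero] at hP
    obtain ⟨r, rfl⟩ := Submodule.mem_one.1 hP
    exact (hC r).cast (by simp)
  | succ n ih =>
    rw [Hg, pow_succ] at hP
    refine Submodule.mul_induction_on hP (fun P hP Q hQ => ?_) fun _ _ => Sh.add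
    refine ((ih hP).mul (m := k) ?_).cast (by push_cast; ring)
    induction hQ using Submodule.span_induction with
    | mem _ h => obtain ⟨i, hi, rfl⟩ := h; exact hX i hi
    | zero => exact Sh.zero _
    | add _ _ _ _ h h' => exact h.add h'
    | smul r _ _ h => rw [← C_mul']; exact ((hC r).mul h).cast (zero_add _)

theorem Hg_pow {p : ℕ} (hp : p.Prime) (hK : (p : K) = 0) {U : Finset ι} {n : ℕ} (hn : n ≠ 0)
    {P : MvPolynomial ι K} (hP : P ∈ Hg K U n) : P ^ p ∈ An ι K := by
  have hp0 : (p : MvPolynomial ι K) = 0 := by rw [← map_natCast C, hK, map_zero]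
  have ha : ∀ P Q : MvPolynomial ι K, P ^ p ∈ An ι K → Q ^ p ∈ An ι K → (P + Q) ^ p ∈ An ι K := by
    intro P Q h h'
    obtain ⟨r, e⟩ := exists_add_pow_prime_eq hp P Q
    rw [e, hp0, zero_mul, zero_mul, zero_mul, add_zero]
    exact add_mem h h'
  obtain ⟨n, rfl⟩ := Nat.exists_eq_succ_of_ne_zero hn
  rw [Hg, pow_succ] at hP
  refine Submodule.mul_induction_on hP (fun P _ Q hQ => ?_) ha
  rw [mul_pow]
  refine Ideal.mul_mem_left _ _ ?_
  induction hQ using Submodule.span_induction with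
  | mem _ h =>
    obtain ⟨i, -, rfl⟩ := h
    obtain ⟨k, rfl⟩ := Nat.exists_eq_add_of_le' hp.two_le
    rw [pow_add, sq]
    exact Ideal.mul_mem_left _ _ (Gam.X_X i)
  | zero => rw [zero_pow hp.ne_zero]; exact zero_mem _
  | add _ _ _ _ h h' => exact ha _ _ h h'
  | smul r _ _ h => rw [← C_mul', mul_pow]; exact Ideal.mul_mem_left _ _ h

end

variable {ι σ F : Type} [DecidableEq ι] [LinearOrder σ] [Fintype σ] [Field F]
  {K : Type} [CommRing K] [Algebra F K]

/-- Combinations of the coefficients of levels below `k`, homogeneous of degree `m`. -/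
def Gam.In (p : ℕ) (lv : σ → ℕ) (k : ℕ) (U : Finset ι) (y : σ → MvPolynomial ι K) (m : ℕ)
    (P : MvPolynomial ι K) : Prop :=
  ∃ z : σ → MvPolynomial ι K, P - ∑ j, z j * y j ∈ An ι K ∧
    ∀ j, z j = 0 ∨ lv j < k ∧ p ^ lv j ≤ m ∧ z j ∈ Hg K U (m - p ^ lv j)

section
variable {p k : ℕ} {lv : σ → ℕ} {U : Finset ι} {y : σ → MvPolynomial ι K} {m : ℕ}
  {P Q : MvPolynomial ι K}

omit [LinearOrder σ] in
theorem Gam.In.an (h : P ∈ An ι K) : Gam.In p lv k U y m P :=
  ⟨0, by simpa using h, fun _ => .inl rfl⟩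

omit [LinearOrder σ] in
theorem Gam.In.add (h : Gam.In p lv k U y m P) (h' : Gam.In p lv k U y m Q) :
    Gam.In p lv k U y m (P + Q) := by
  obtain ⟨z, h1, h2⟩ := h
  obtain ⟨z', h1', h2'⟩ := h'
  refine ⟨z + z', ?_, fun j => ?_⟩
  · simp only [Pi.add_apply, add_mul, sum_add_distrib]
    exact (congrArg (· ∈ An ι K) (by ring)).mp (add_mem h1 h1')
  · rcases h2 j with e | e
    · simpa [e] using h2' j
    rcases h2' j with e' | e'
    · exact .inr (by simpa [e'] using e)
    · exact .inr ⟨e.1, e.2.1, add_mem e.2.2 e'.2.2⟩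

omit [LinearOrder σ] in
theorem Gam.In.mul (h : Gam.In p lv k U y m P) {n : ℕ} (hQ : Q ∈ Hg K U n) :
    Gam.In p lv k U y (m + n) (P * Q) := by
  obtain ⟨z, h1, h2⟩ := h
  refine ⟨fun j => z j * Q, ?_, fun j => (h2 j).imp (fun e => by simp [e]) fun e =>
    ⟨e.1, by omega, ?_⟩⟩
  · have := Ideal.mul_mem_right Q _ h1
    rwa [sub_mul, sum_mul, sum_congr rfl fun j _ => mul_right_comm (z j) (y j) Q] at this
  · have := Hg_mul e.2.2 hQ
    rwa [show m - p ^ lv j + n = m + n - p ^ lv j by omega] at this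

theorem Gam.col (hp : p.Prime) [CharP F p] {J : ℕ} {g : ι → σ → F} (hA : Adm lv (J + 1) g)
    (hk : k ≤ J) {l : σ} (hl : lv l = J) (h0 : m ≠ 0) (hm : m < p ^ k) :
    Gam.In p lv k U (yG K p lv (J + 1) g U) m (gam m (fun i => algebraMap F K (g i l)) U) := by
  have := Fact.mk hp
  obtain ⟨b, u, hu, rfl⟩ := Nat.exists_eq_pow_mul_and_not_dvd h0 p hp.ne_one
  have h1 : p ^ b ≤ p ^ b * u := Nat.le_mul_of_pos_right _ (Nat.pos_of_ne_zero fun e => by
    simp [e] at hu)
  have h2 : b < k := (Nat.pow_lt_pow_iff_right hp.one_lt).1 (h1.trans_lt hm)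
  obtain ⟨j, hj, hg⟩ := hA.dn l (by omega) b (by omega)
  have h3 : (((p ^ b * u).choose (p ^ b) : ℕ) : F) ≠ 0 := by
    have := Choose.choose_pow_mul_pow_mul_modEq_choose_nat (p := p) (k := b) (a := u) (b := 1)
    rw [mul_one, Nat.choose_one_right] at this
    rw [Ne, CharP.cast_eq_zero_iff F p, this.dvd_iff dvd_rfl]
    exact hu
  obtain ⟨r, hr⟩ : ∃ r : K, C r * (((p ^ b * u).choose (p ^ b) : ℕ) : MvPolynomial ι K) = 1 :=
    ⟨algebraMap F K (((p ^ b * u).choose (p ^ b) : ℕ) : F)⁻¹, by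
      rw [← map_natCast C, ← map_natCast (algebraMap F K), ← map_mul, ← map_mul,
        inv_mul_cancel₀ h3, map_one, map_one]⟩
  refine ⟨Pi.single j (C r * gam (p ^ b * u - p ^ b) (fun i => algebraMap F K (g i l)) U), ?_,
    fun j' => ?_⟩
  · have := Ideal.mul_mem_left _ (-C r)
      (gam_mul (p ^ b) (p ^ b * u - p ^ b) (fun i => algebraMap F K (g i l)) U)
    rw [Nat.add_sub_cancel' h1] at this
    rw [sum_eq_single j (fun j' _ e => by simp [e]) (by simp), Pi.single_eq_same, yG,
      if_pos (by omega), hj]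
    simp only [hg]
    exact (congrArg (· ∈ An ι K) (by
      linear_combination gam (p ^ b * u) (fun i => algebraMap F K (g i l)) U * hr)).mp this
  · rcases eq_or_ne j' j with rfl | e
    · refine .inr ⟨by omega, hj ▸ h1, ?_⟩
      rw [Pi.single_eq_same, hj, C_mul']
      exact Submodule.smul_mem _ _ (gam_mem _ _ _)
    · exact .inl (Pi.single_eq_of_ne e _)

omit [LinearOrder σ] in
theorem Gam.sum {α : Type} (R : Finset α) (b : α → ι → K) (h0 : m ≠ 0)
    (hb : ∀ l ∈ R, ∀ i, i ≠ 0 → i < m → Gam.In p lv k U y i (gam i (b l) U)) :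
    Gam.In p lv k U y m (gam m (∑ l ∈ R, b l) U - ∑ l ∈ R, gam m (b l) U) := by
  classical
  induction R using Finset.induction_on with
  | empty => exact .an (by rw [gam_of_zero h0 (a := ∑ l ∈ ∅, b l) fun _ _ => rfl]; simp)
  | insert l R hl ih =>
    obtain ⟨m, rfl⟩ := Nat.exists_eq_add_one_of_ne_zero h0
    have h1 := gam_add (m + 1) (b l) (∑ l ∈ R, b l) U
    rw [sum_range_succ, sum_range_succ', gam_zero, Nat.sub_self, gam_zero, Nat.sub_zero] at h1
    have h2 : Gam.In p lv k U y (m + 1) (∑ i ∈ range m,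
        gam (i + 1) (b l) U * gam (m + 1 - (i + 1)) (∑ l ∈ R, b l) U) :=
      sum_induction _ (Gam.In p lv k U y (m + 1)) (fun _ _ => Gam.In.add) (.an (zero_mem _))
        fun i hi => by
          have hi := mem_range.1 hi
          have := (hb l (mem_insert_self _ _) (i + 1) (by omega) (by omega)).mul
            (gam_mem (m + 1 - (i + 1)) (∑ l ∈ R, b l) U)
          rwa [Nat.add_sub_cancel' (by omega)] at this
    rw [sum_insert hl, sum_insert hl]
    exact (congrArg (Gam.In p lv k U y (m + 1)) (by ring)).mp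
      (((Gam.In.an h1).add h2).add (ih fun l hl => hb l (mem_insert_of_mem hl)))

end

/-- The divided powers of a combination of the top columns lie in the ideal of the Koszul
coefficients. -/
theorem exists_z {p : ℕ} (hp : p.Prime) [CharP F p] {lv : σ → ℕ} {J : ℕ} {g : ι → σ → F}
    (hA : Adm lv (J + 1) g) (c : σ → K) (U : Finset ι) {k : ℕ} (hk : k ≤ J) :
    ∃ z : σ → MvPolynomial ι K,
      gam (p ^ k) (fun i => ∑ l, algebraMap F K (gl lv g J i l) * c l) U -
        ∑ j, z j * yG K p lv (J + 1) g U j ∈ An ι K ∧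
      (∀ j, lv j ≤ k → z j ∈ Hg K U (p ^ k - p ^ lv j)) ∧ (∀ j, k < lv j → z j = 0) ∧
      (k = J → ∀ j, lv j = J → z j = C (c j) ^ p ^ J) := by
  have hd : ∀ l, ∃ j, lv l = J → lv j = k ∧ (∀ i, g i j = g i l) ∧ (k = J → j = l) := fun l => by
    by_cases hl : lv l = J
    · rcases hk.eq_or_lt with e | e
      · exact ⟨l, fun _ => ⟨hl.trans e.symm, fun _ => rfl, fun _ => rfl⟩⟩
      · obtain ⟨j, hj, hg⟩ := hA.dn l (by omega) k (by omega)
        exact ⟨j, fun _ => ⟨hj, hg, fun e' => absurd e' e.ne⟩⟩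
    · exact ⟨l, fun e => absurd e hl⟩
  choose dn hd using hd
  obtain ⟨z, h1, h2⟩ := Gam.sum (p := p) (k := k) (lv := lv) (U := U)
    (y := yG K p lv (J + 1) g U) (univ.filter fun l => lv l = J)
    (fun l i => algebraMap F K (g i l) * c l) (pow_pos hp.pos k).ne' fun l hl i h0 hi => by
      rw [gam_smul, mul_comm, ← map_pow]
      exact (Gam.col hp hA hk (mem_filter.1 hl).2 h0 hi).mul (C_mem_Hg U _)
  refine ⟨z + ∑ l ∈ univ.filter fun l => lv l = J, Pi.single (dn l) (C (c l) ^ p ^ k), ?_,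
    fun j hj => ?_, fun j hj => ?_, fun e j hj => ?_⟩
  · have e1 : (fun i => ∑ l, algebraMap F K (gl lv g J i l) * c l) =
        ∑ l ∈ univ.filter fun l => lv l = J, fun i => algebraMap F K (g i l) * c l := by
      funext i
      rw [Finset.sum_apply, sum_filter]
      exact sum_congr rfl fun l _ => by rw [gl]; split_ifs <;> simp
    have e2 : ∑ j, (∑ l ∈ univ.filter fun l => lv l = J,
        Pi.single (dn l) (C (c l) ^ p ^ k) : σ → MvPolynomial ι K) j * yG K p lv (J + 1) g U j =
        ∑ l ∈ univ.filter fun l => lv l = J,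
          gam (p ^ k) (fun i => algebraMap F K (g i l) * c l) U := by
      simp only [Finset.sum_apply, sum_mul]
      rw [sum_comm]
      refine sum_congr rfl fun l hl => ?_
      obtain ⟨k1, k2, -⟩ := hd l (mem_filter.1 hl).2
      rw [sum_eq_single (dn l) (fun j _ e => by simp [e]) (by simp), Pi.single_eq_same, yG,
        if_pos (by omega), k1, gam_smul]
      simp only [k2]
    simp only [Pi.add_apply, add_mul, sum_add_distrib]
    rw [e1, e2]
    exact (congrArg (· ∈ An ι K) (by ring)).mp h1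
  · rw [Pi.add_apply, Finset.sum_apply]
    refine add_mem ((h2 j).elim (fun e => e ▸ zero_mem _) fun e => e.2.2)
      (sum_mem fun l hl => ?_)
    rcases eq_or_ne j (dn l) with rfl | e
    · rw [Pi.single_eq_same, (hd l (mem_filter.1 hl).2).1, Nat.sub_self, ← map_pow]
      exact C_mem_Hg U _
    · rw [Pi.single_eq_of_ne e]
      exact zero_mem _
  · rw [Pi.add_apply, Finset.sum_apply, (h2 j).resolve_right fun e => by omega, zero_add]
    refine sum_eq_zero fun l hl => Pi.single_eq_of_ne ?_ _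
    rintro rfl
    exact hj.ne' (hd l (mem_filter.1 hl).2).1
  · rw [Pi.add_apply, (h2 j).resolve_right fun e => by omega, zero_add,
      sum_congr rfl fun l hl => by rw [(hd l (mem_filter.1 hl).2).2.2 e], Finset.sum_apply,
      sum_pi_single, if_pos (by simpa using hj), e]

end Pool.Agent.Lib.MP_3184af_co.TateG
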