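import Pool.Agent.Lib.MP_3184af_co.TateG.DefsG

set_option autoImplicit false

namespace Pool.Agent.Lib.MP_3184af_co.TateG

open Finset Tate

open MvPolynomial

variable {ι σ K : Type} [DecidableEq ι] [CommRing K]

omit [DecidableEq ι] in
theorem mem_Gp {P : Finset σ → Finset ι → Prop} {v : Finset σ → Sq ι K} :
    v ∈ Gp K P ↔ ∀ B A, ¬ P B A → v B A = 0 := Iff.rfl

omit [DecidableEq ι] in
theorem Gp_mono {P P' : Finset σ → Finset ι → Prop} (h : ∀ B A, P B A → P' B A)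
    {v : Finset σ → Sq ι K} (hv : v ∈ Gp K P) : v ∈ Gp K P' :=
  fun B A hA => hv B A fun k => hA (h B A k)

omit [DecidableEq ι] in
theorem Gp_and {P P' : Finset σ → Finset ι → Prop} {v : Finset σ → Sq ι K} :
    v ∈ Gp K (fun B A => P B A ∧ P' B A) ↔ v ∈ Gp K P ∧ v ∈ Gp K P' :=
  ⟨fun h => ⟨Gp_mono (fun _ _ k => k.1) h, Gp_mono (fun _ _ k => k.2) h⟩,
    fun h B A hA => (not_and_or.1 hA).elim (h.1 B A) (h.2 B A)⟩

omit [DecidableEq ι] in
theorem mem_YwG {p : ℕ} {lv : σ → ℕ} {n : ℕ} {U : Finset ι} {w : ℤ} {v : Finset σ → Sq ι K} :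
    v ∈ YwG K p lv n U w ↔
      v ∈ Gp K fun B A => A ⊆ U ∧ 2 * (A.card : ℤ) = w - ∑ j ∈ B, om p lv n j := Iff.rfl

omit [DecidableEq ι] in
theorem prj_mem {P : Finset σ → Finset ι → Prop} (r : Finset σ → Finset ι → ℤ) (k : ℤ)
    {v : Finset σ → Sq ι K} (hv : v ∈ Gp K fun B A => r B A = k → P B A) :
    prj r k v ∈ Gp K fun B A => P B A ∧ r B A = k := by
  intro B A hA
  unfold prj
  split_ifs with h
  · exact hv B A fun e => hA ⟨e h, h⟩
  · rfl

omit [DecidableEq ι] in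
theorem sub_prj_mem {P : Finset σ → Finset ι → Prop} (r : Finset σ → Finset ι → ℤ) (k : ℤ)
    {v : Finset σ → Sq ι K} (hv : v ∈ Gp K P) :
    v - prj r k v ∈ Gp K fun B A => P B A ∧ r B A ≠ k := by
  intro B A hA
  rw [Pi.sub_apply, Sq.sub_apply]
  unfold prj
  split_ifs with h
  · exact sub_self _
  · rw [hv B A fun e => hA ⟨e, h⟩, sub_zero]

omit [DecidableEq ι] in
theorem Gp_true (v : Finset σ → Sq ι K) : v ∈ Gp K fun _ _ => True :=
  fun _ _ h => (h trivial).elim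

theorem prj_comm {d : Module.End (MvPolynomial ι K) (Finset σ → Sq ι K)}
    (r : Finset σ → Finset ι → ℤ) (δ : ℤ)
    (h : ∀ φ : ℤ → Prop, ∀ v ∈ Gp K fun B A => φ (r B A), d v ∈ Gp K fun B A => φ (r B A - δ))
    (k : ℤ) (z : Finset σ → Sq ι K) : d (prj r (k - δ) z) = prj r k (d z) := by
  have h1 := h (· = k - δ) _ (Gp_mono (fun _ _ e => e.2)
    (prj_mem (P := fun _ _ => True) r (k - δ) (v := z) fun _ _ e => (e fun _ => trivial).elim))
  have h2 := h (· ≠ k - δ) _ (Gp_mono (fun _ _ e => e.2) (sub_prj_mem r (k - δ) (Gp_true z)))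
  funext B
  refine Sq.ext fun A => ?_
  by_cases e : r B A = k
  · have h3 := h2 B A (by simp [e])
    rw [map_sub, Pi.sub_apply, Sq.sub_apply, sub_eq_zero] at h3
    rw [← h3]
    exact (if_pos e).symm
  · exact (h1 B A (by simpa using e)).trans (if_neg e).symm

/-- Exactness of the leading part implies exactness. -/
theorem filt_ex {d0 d1 : Module.End (MvPolynomial ι K) (Finset σ → Sq ι K)}
    (r : Finset σ → Finset ι → ℤ) (δ : ℤ) (P P' : Finset σ → Finset ι → Prop) (lo hi : ℤ)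
    (hb : ∀ B A, P B A → lo ≤ r B A ∧ r B A ≤ hi)
    (h0 : ∀ φ : ℤ → Prop, ∀ v ∈ Gp K fun B A => φ (r B A), d0 v ∈ Gp K fun B A => φ (r B A - δ))
    (h1 : ∀ k : ℤ, ∀ v ∈ Gp K fun B A => k ≤ r B A, d1 v ∈ Gp K fun B A => k + δ < r B A)
    (hP : ∀ v ∈ Gp K P', (d0 + d1) v ∈ Gp K P)
    (hsq : ∀ v ∈ Gp K P', (d0 + d1) ((d0 + d1) v) = 0)
    (hex : ∀ k : ℤ, ∀ v ∈ Gp K fun B A => P B A ∧ r B A = k, d0 v = 0 →
      ∃ z ∈ Gp K fun B A => r B A = k - δ → P' B A, d0 z = v) :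
    ∀ v ∈ Gp K P, (d0 + d1) v = 0 → ∃ z ∈ Gp K P', (d0 + d1) z = v := by
  have key : ∀ n : ℕ, ∀ v ∈ Gp K fun B A => P B A ∧ hi + 1 - n ≤ r B A, (d0 + d1) v = 0 →
      ∃ z ∈ Gp K P', (d0 + d1) z = v := by
    intro n
    induction n with
    | zero =>
      intro v hv _
      refine ⟨0, zero_mem _, (map_zero _).trans (funext fun B => Sq.ext fun A => ?_)⟩
      exact (hv B A fun e => by have := (hb B A e.1).2; have := e.2; omega).symm
    | succ n ih =>
      intro v hv hd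
      obtain ⟨k, hk⟩ : ∃ k : ℤ, k = hi - n := ⟨_, rfl⟩
      have v1 : v ∈ Gp K P := Gp_mono (fun _ _ e => e.1) hv
      have v2 : v ∈ Gp K fun B A => k ≤ r B A :=
        Gp_mono (fun _ _ e => by have := e.2; push_cast at this; omega) hv
      have c : d0 (prj r k v) = 0 := by
        have e := prj_comm r δ h0 (k + δ) v
        rw [add_sub_cancel_right, eq_neg_of_add_eq_zero_left hd] at e
        rw [e]
        funext B
        refine Sq.ext fun A => ?_
        unfold prj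
        split_ifs with e'
        · exact neg_mem (h1 k v v2) B A (by omega)
        · rfl
      obtain ⟨z, hz, e⟩ := hex k _ (prj_mem r k fun B A e => v1 B A fun e' => e fun _ => e') c
      have z1 := prj_mem r (k - δ) hz
      have z2 : prj r (k - δ) z ∈ Gp K P' := Gp_mono (fun _ _ e => e.1) z1
      have e2 : d0 (prj r (k - δ) z) = prj r k v := by
        rw [prj_comm r δ h0, e]
        funext B
        refine Sq.ext fun A => ?_
        unfold prj
        split_ifs <;> rfl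
      obtain ⟨z', hz', e'⟩ := ih (v - (d0 + d1) (prj r (k - δ) z)) (Gp_and.2
        ⟨sub_mem v1 (hP _ z2), by
          rw [LinearMap.add_apply, e2, ← sub_sub]
          exact sub_mem (Gp_mono (fun _ _ e => by have := e.1; have := e.2; omega)
            (sub_prj_mem r k v2)) (Gp_mono (fun _ _ e => by omega)
            (h1 (k - δ) _ (Gp_mono (fun _ _ e => e.2.ge) z1)))⟩)
        (by rw [map_sub, hd, hsq _ z2, sub_zero])
      exact ⟨z' + prj r (k - δ) z, add_mem hz' z2, by rw [map_add, e', sub_add_cancel]⟩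
  exact fun v hv => key (hi + 1 - lo).toNat v
    (Gp_mono (fun B A e => ⟨e, by have := hb B A e; omega⟩) hv)

variable [LinearOrder σ] [Fintype σ]

omit [Fintype σ] in
theorem sgn_sp (l : σ) (B : Finset σ) {P : Finset ι → Prop} {y : Sq ι K} (h : y ∈ Sp K P) :
    sgn (MvPolynomial ι K) l B • y ∈ Sp K P :=
  fun A hA => by rw [sgn_smul, h A hA, mul_zero]

omit [LinearOrder σ] [Fintype σ] in
theorem smul_sp {c : MvPolynomial ι K} {Q Q' : Prop} (h : c ≠ 0 → Q → Q') :
    ∀ y ∈ Sp K fun _ : Finset ι => Q, c • y ∈ Sp K fun _ => Q' := by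
  intro y hy A hA
  by_cases e : c = 0
  · rw [e, zero_smul]
    rfl
  · rw [show y = 0 from Sq.ext fun A' => hy A' fun k => hA (h e k), smul_zero]
    rfl

theorem dK_gp {a : σ → MvPolynomial ι K} {P P' : Finset σ → Finset ι → Prop}
    (h : ∀ l B, l ∉ B → ∀ y ∈ Sp K (P B), a l • y ∈ Sp K (P' (insert l B)))
    {v : Finset σ → Sq ι K} (hv : v ∈ Gp K P) : dK (Sq ι K) a v ∈ Gp K P' := by
  intro B
  rw [dK_apply]
  refine sum_mem fun l _ => ?_
  split_ifs with hl
  · have := h l (B.erase l) (notMem_erase l B) _ (sgn_sp l B (hv (B.erase l)))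
    rwa [insert_erase hl, ← mul_smul] at this
  · exact zero_mem _

theorem dI_gp {a : σ → MvPolynomial ι K} {P P' : Finset σ → Finset ι → Prop}
    (h : ∀ l B, l ∉ B → ∀ y ∈ Sp K (P (insert l B)), a l • y ∈ Sp K (P' B))
    {v : Finset σ → Sq ι K} (hv : v ∈ Gp K P) : dI (Sq ι K) a v ∈ Gp K P' := by
  intro B
  rw [dI_apply]
  refine sum_mem fun l _ => ?_
  split_ifs with hl
  · exact zero_mem _
  · rw [mul_smul]
    exact h l B hl _ (sgn_sp l B (hv (insert l B)))

/-- Conditions on the first index only. -/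
theorem dK_gp' {a : σ → MvPolynomial ι K} {Q Q' : Finset σ → Prop}
    (h : ∀ l B, l ∉ B → a l ≠ 0 → Q B → Q' (insert l B))
    {v : Finset σ → Sq ι K} (hv : v ∈ Gp K fun B _ => Q B) :
    dK (Sq ι K) a v ∈ Gp K fun B _ => Q' B :=
  dK_gp (fun l B hl => smul_sp (h l B hl)) hv

theorem dI_gp' {a : σ → MvPolynomial ι K} {Q Q' : Finset σ → Prop}
    (h : ∀ l B, l ∉ B → a l ≠ 0 → Q (insert l B) → Q' B)
    {v : Finset σ → Sq ι K} (hv : v ∈ Gp K fun B _ => Q B) :
    dI (Sq ι K) a v ∈ Gp K fun B _ => Q' B :=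
  dI_gp (fun l B hl => smul_sp (h l B hl)) hv

end Pool.Agent.Lib.MP_3184af_co.TateG
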