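import Pool.Agent.Lib.MP_3184af_co.Tate.Base
import Pool.Agent.Lib.MP_3184af_co.TateG.Gam
import Pool.Agent.Lib.MP_3184af_co.TateG.Gp

set_option autoImplicit false

namespace Pool.Agent.Lib.MP_3184af_co.TateG

open Finset Tate

variable {ι σ F : Type} [DecidableEq ι] [LinearOrder σ] [Fintype σ] [Field F]
  {K K' : Type} [CommRing K] [Algebra F K] [CommRing K'] [Algebra F K']
  {p : ℕ} {lv : σ → ℕ} {n : ℕ}

omit [LinearOrder σ] [Fintype σ] in
theorem om_nonneg (hp : 2 ≤ p) (j : σ) : 0 ≤ om p lv n j := by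
  rw [om]
  split_ifs with h
  · have h2 : (2 : ℤ) ≤ p := by exact_mod_cast hp
    have h3 : (p : ℤ) ^ (lv j + 1) ≤ (p : ℤ) ^ n := pow_le_pow_right₀ (by omega) h
    have h4 : 2 * (p : ℤ) ^ lv j ≤ p * (p : ℤ) ^ lv j :=
      mul_le_mul_of_nonneg_right h2 (by positivity)
    rw [pow_succ'] at h3
    omega
  · exact le_rfl

omit [LinearOrder σ] [Fintype σ] in
theorem yG_sh (g : ι → σ → F) {Z U : Finset ι} (h : Z ⊆ U) (j : σ) :
    Sh (Hm K U) (yG K p lv n g Z j) ((p : ℤ) ^ n - om p lv n j) := by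
  rw [yG, om]
  split_ifs
  · exact (Hg_sh (sh_C U) (fun i hi => sh_X (h hi)) (gam_mem _ _ Z)).cast (by push_cast; ring)
  · exact Sh.zero _

omit [LinearOrder σ] [Fintype σ] in
theorem yG_pow (hp : p.Prime) [CharP F p] (g : ι → σ → F) (U : Finset ι) (j : σ) :
    yG K p lv n g U j ^ p ∈ An ι K := by
  rw [yG]
  split_ifs
  · exact Hg_pow hp (by rw [← map_natCast (algebraMap F K), CharP.cast_eq_zero, map_zero])
      (pow_ne_zero _ hp.ne_zero) (gam_mem _ _ U)
  · rw [zero_pow hp.ne_zero]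
    exact zero_mem _

namespace BaseG

omit [Fintype σ] in
theorem dg_insert {l : σ} {B : Finset σ} (hl : l ∉ B) (h : lv l < n) :
    dg lv n (insert l B) = dg lv n B + 1 := by
  rw [dg, dg, filter_insert, if_pos h, card_insert_of_notMem fun k => hl (mem_filter.1 k).1,
    Nat.cast_succ]

theorem rel_zero {ψ : K →+ K'} : Base.Rel ψ (0 : MvPolynomial ι K) 0 := fun y => by
  rw [zero_smul, zero_smul, map_zero]

omit [LinearOrder σ] [Fintype σ] in
theorem rel_yG (ψ : K →ₗ[F] K') (g : ι → σ → F) (U : Finset ι) (l : σ) :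
    Base.Rel ψ.toAddMonoidHom (yG K p lv n g U l) (yG K' p lv n g U l) := by
  rw [yG, yG]
  split_ifs
  · exact Base.Rel.sum _ fun T => prod_hom_rel Base.Rel.one fun i _ _ h =>
      ((Base.Rel.C fun r => by
        rw [← Algebra.smul_def, ← Algebra.smul_def]
        exact ψ.map_smul _ _).mul (Base.Rel.X i)).mul h
  · exact rel_zero

omit [LinearOrder σ] in
theorem top_smul (hp : p.Prime) [CharP F p] (g : ι → σ → F) (U : Finset ι) (c : σ → K)
    (v : Finset σ → Sq ι K) : (∑ j, (if lv j + 1 = n then MvPolynomial.C (c j) ^ p ^ n *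
      yG K p lv n g U j ^ (p - 1) else 0) * yG K p lv n g U j) • v = 0 := by
  funext B
  rw [Pi.smul_apply, Pi.zero_apply]
  refine Module.mem_annihilator.1 (sum_mem fun j _ => ?_) (v B)
  split_ifs
  · rw [mul_assoc, pow_sub_one_mul hp.ne_zero]
    exact Ideal.mul_mem_left _ _ (yG_pow hp g U j)
  · rw [zero_mul]
    exact zero_mem _

end BaseG

theorem dKosG_mem (g : ι → σ → F) {Z U : Finset ι} (h : Z ⊆ U) {w : ℤ} {v : Finset σ → Sq ι K}
    (hv : v ∈ YwG K p lv n U w) : dKosG K p lv n g Z v ∈ YwG K p lv n U (w + (p : ℤ) ^ n) := by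
  exact dK_memG (yG_sh g h) hv

theorem dTG_mem (hp : 1 ≤ p) (g : ι → σ → F) (U : Finset ι) (c : σ → K) {w : ℤ}
    {v : Finset σ → Sq ι K} (hv : v ∈ YwG K p lv n U w) :
    dTG p lv n g U c v ∈ YwG K p lv n U (w + (p : ℤ) ^ n) := by
  refine dI_memG (fun l => ?_) hv
  split_ifs with h
  · refine (((sh_C U (c l)).pow _).mul ((yG_sh g subset_rfl l).pow (p - 1))).cast ?_
    rw [om, if_pos (by omega), ← h]
    push_cast [hp]
    ring
  · exact Sh.zero _

theorem dSG_mem (hp : 1 ≤ p) (g : ι → σ → F) (U : Finset ι) (c : σ → K) {w : ℤ}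
    {v : Finset σ → Sq ι K} (hv : v ∈ YwG K p lv n U w) :
    dSG p lv n g U c v ∈ YwG K p lv n U (w + (p : ℤ) ^ n) := by
  exact add_mem (dKosG_mem g subset_rfl hv) (dTG_mem hp g U c hv)

theorem dSG_al (g : ι → σ → F) (U : Finset ι) (c : σ → K)
    {𝒩 : Submodule (MvPolynomial ι K) (Sq ι K)} {v : Finset σ → Sq ι K} (hv : v ∈ Al σ 𝒩) :
    dSG p lv n g U c v ∈ Al σ 𝒩 := by
  exact add_mem (dK_al _ hv) (dI_al _ hv)

theorem dKosG_dg (g : ι → σ → F) (U : Finset ι) (φ : ℤ → Prop) {v : Finset σ → Sq ι K}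
    (hv : v ∈ Gp K fun B _ => φ (dg lv n B)) :
    dKosG K p lv n g U v ∈ Gp K fun B _ => φ (dg lv n B - 1) := by
  refine dK_gp' (fun l B hl h0 h => ?_) hv
  rwa [BaseG.dg_insert hl (by by_contra k; exact h0 (if_neg k)), add_sub_cancel_right]

theorem dTG_dg (g : ι → σ → F) (U : Finset ι) (c : σ → K) (φ : ℤ → Prop) {v : Finset σ → Sq ι K}
    (hv : v ∈ Gp K fun B _ => φ (dg lv n B)) :
    dTG p lv n g U c v ∈ Gp K fun B _ => φ (dg lv n B + 1) := by
  refine dI_gp' (fun l B hl h0 h => ?_) hv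
  have k : lv l + 1 = n := by
    by_contra k
    exact h0 (if_neg k)
  rwa [BaseG.dg_insert hl (by omega)] at h

omit [DecidableEq ι] [LinearOrder σ] [Fintype σ] in
theorem YwG_neg (hp : 2 ≤ p) {U : Finset ι} {w : ℤ} (hw : w < 0) {v : Finset σ → Sq ι K}
    (hv : v ∈ YwG K p lv n U w) : v = 0 := by
  refine funext fun B => Sq.ext fun A => hv B A fun h => ?_
  have : 0 ≤ ∑ j ∈ B, om p lv n j := sum_nonneg fun j _ => om_nonneg hp j
  omega

omit [DecidableEq ι] [LinearOrder σ] [Fintype σ] in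
theorem cmap_gp (ψ : K →+ K') {P : Finset σ → Finset ι → Prop} {v : Finset σ → Sq ι K}
    (hv : v ∈ Gp K P) : cmap ψ v ∈ Gp K' P := by
  intro B A hA
  change ψ (v B A) = 0
  rw [hv B A hA, map_zero]

omit [DecidableEq ι] [LinearOrder σ] [Fintype σ] in
theorem cmap_memG (ψ : K →+ K') {U : Finset ι} {w : ℤ} {v : Finset σ → Sq ι K}
    (hv : v ∈ YwG K p lv n U w) : cmap ψ v ∈ YwG K' p lv n U w := by
  exact mem_YwG.2 (cmap_gp ψ (mem_YwG.1 hv))

theorem cmap_dKosG (ψ : K →ₗ[F] K') (g : ι → σ → F) (U : Finset ι) (v : Finset σ → Sq ι K) :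
    cmap ψ.toAddMonoidHom (dKosG K p lv n g U v) =
      dKosG K' p lv n g U (cmap ψ.toAddMonoidHom v) := by
  exact Base.cmap_dK (BaseG.rel_yG ψ g U) v

theorem cmap_dSG (ψ : K →ₗ[F] K') (g : ι → σ → F) (U : Finset ι) {c : σ → K} {c' : σ → K'}
    (h : ∀ l r, ψ (c l * r) = c' l * ψ r) (v : Finset σ → Sq ι K) :
    cmap ψ.toAddMonoidHom (dSG p lv n g U c v) =
      dSG p lv n g U c' (cmap ψ.toAddMonoidHom v) := by
  rw [dSG, dSG, LinearMap.add_apply, LinearMap.add_apply, map_add, cmap_dKosG]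
  refine congrArg _ (Base.cmap_dI (fun l => ?_) v)
  split_ifs
  · exact ((Base.Rel.C (ψ := ψ.toAddMonoidHom) (h l)).pow _).mul ((BaseG.rel_yG ψ g U l).pow _)
  · exact BaseG.rel_zero

theorem dSG_zero (hp : 1 ≤ p) (g : ι → σ → F) (U : Finset ι) :
    dSG p lv n g U (0 : σ → K) = dKosG K p lv n g U := by
  rw [dSG, dTG, add_eq_left, ← dI_zero]
  congr 1
  funext l
  simp [zero_pow (pow_ne_zero n (show p ≠ 0 by omega))]

theorem dSG_sq (hp : p.Prime) [CharP F p] (g : ι → σ → F) (U : Finset ι) (c : σ → K)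
    (v : Finset σ → Sq ι K) : dSG p lv n g U c (dSG p lv n g U c v) = 0 := by
  rw [← Module.End.mul_apply, dSG, dKosG, dTG, d_sq, LinearMap.smul_apply, Module.End.one_apply]
  exact BaseG.top_smul hp g U c v

theorem dKosG_dTG (hp : p.Prime) [CharP F p] (g : ι → σ → F) (U : Finset ι) (c : σ → K)
    (v : Finset σ → Sq ι K) :
    dKosG K p lv n g U (dTG p lv n g U c v) = -dTG p lv n g U c (dKosG K p lv n g U v) := by
  have h := LinearMap.congr_fun (dI_dK (W := Sq ι K) (fun j => if lv j + 1 = n then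
    MvPolynomial.C (c j) ^ p ^ n * yG K p lv n g U j ^ (p - 1) else 0) (yG K p lv n g U)) v
  rw [LinearMap.sub_apply, LinearMap.smul_apply, Module.End.one_apply, BaseG.top_smul hp,
    zero_sub] at h
  exact (neg_eq_iff_eq_neg.2 h).symm

/-- Change of the coefficient ring in the Koszul complex. -/
theorem kos_baseP (K : Type) [CommRing K] [Algebra F K] (g : ι → σ → F) (U : Finset ι)
    {P P' : Finset σ → Finset ι → Prop} (hP : ∀ B A, P B A → A ⊆ U)
    (h : ∀ v ∈ Gp F P, dKosG F p lv n g U v = 0 → ∃ z ∈ Gp F P', dKosG F p lv n g U z = v) :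
    ∀ v ∈ Gp K P, dKosG K p lv n g U v = 0 → ∃ z ∈ Gp K P', dKosG K p lv n g U z = v := by
  classical
  intro v hv h0
  let b := Module.Basis.ofVectorSpace F K
  choose z hz hd using fun i => h (cmap (b.coord i).toAddMonoidHom v) (cmap_gp _ hv)
    (by rw [← cmap_dKosG, h0, map_zero])
  let s := (univ ×ˢ U.powerset).biUnion fun q : Finset σ × Finset ι => (b.repr (v q.1 q.2)).support
  refine ⟨∑ i ∈ s, cmap (LinearMap.toSpanSingleton F K (b i)).toAddMonoidHom (z i),
    sum_mem fun i _ => cmap_gp _ (hz i), ?_⟩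
  rw [map_sum, sum_congr rfl fun i _ => (cmap_dKosG _ g U (z i)).symm]
  refine funext fun B => Sq.ext fun A => ?_
  rw [Finset.sum_apply, Sq.sum_apply]
  simp only [hd]
  change ∑ i ∈ s, b.repr (v B A) i • b i = _
  by_cases hA : A ⊆ U
  · conv_rhs => rw [← b.linearCombination_repr (v B A), Finsupp.linearCombination_apply]
    exact (Finsupp.sum_of_support_subset (b.repr (v B A)) (fun i hi => mem_biUnion.2
      ⟨(B, A), mem_product.2 ⟨mem_univ _, mem_powerset.2 hA⟩, hi⟩) (fun i c => c • b i)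
      fun i _ => zero_smul _ _).symm
  · simp [hv B A fun k => hA (hP B A k)]

theorem kos_baseG (K : Type) [CommRing K] [Algebra F K] (g : ι → σ → F) (U : Finset ι) {P w : ℤ}
    (h : Ex (dKosG F p lv n g U) (YwG F p lv n U) P w) :
    Ex (dKosG K p lv n g U) (YwG K p lv n U) P w := by
  exact fun v hv => kos_baseP K g U (fun _ _ k => k.1) (fun v hv => h v (mem_YwG.2 hv)) v
    (mem_YwG.1 hv)

end Pool.Agent.Lib.MP_3184af_co.TateG
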