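import Pool.Agent.Lib.MP_3184af_co.Tate.Conj

/-!
Weights that depend on the index.
-/

set_option autoImplicit false

namespace Pool.Agent.Lib.MP_3184af_co.TateG

open Finset Tate

variable {σ C W : Type} [LinearOrder σ] [CommRing C] [AddCommGroup W] [Module C W]

/-- Families whose member at `B` lies in the piece `w - ∑ l ∈ B, ω l`. -/
def WtG {σ : Type} (ω : σ → ℤ) (𝒲 : ℤ → AddSubgroup W) (w : ℤ) : AddSubgroup (Finset σ → W) where
  carrier := {v | ∀ B, v B ∈ 𝒲 (w - ∑ l ∈ B, ω l)}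
  add_mem' h h' B := add_mem (h B) (h' B)
  zero_mem' _ := zero_mem _
  neg_mem' h B := neg_mem (h B)

variable {𝒲 : ℤ → AddSubgroup W} {ω : σ → ℤ}

omit [LinearOrder σ] in
theorem sh_wtG {a : C} {k : ℤ} (ha : Sh 𝒲 a k) : Sh (WtG ω 𝒲) a k := fun j v h B => by
  have := ha _ _ (h B)
  rwa [show j - ∑ l ∈ B, ω l + k = j + k - ∑ l ∈ B, ω l by ring] at this

theorem ze_memG (l : σ) {w : ℤ} {v : Finset σ → W} (h : v ∈ WtG ω 𝒲 w) :
    ze C W l v ∈ WtG ω 𝒲 (w + ω l) := fun B => by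
  rw [ze_apply]
  split_ifs with hl
  · have := Sh.sgn (C := C) l B _ _ (h (B.erase l))
    rwa [show w - ∑ m ∈ B.erase l, ω m + 0 = w + ω l - ∑ m ∈ B, ω m by
      rw [← add_sum_erase B ω hl]; ring] at this
  · exact zero_mem _

theorem io_memG (l : σ) {w : ℤ} {v : Finset σ → W} (h : v ∈ WtG ω 𝒲 w) :
    io C W l v ∈ WtG ω 𝒲 (w - ω l) := fun B => by
  rw [io_apply]
  split_ifs with hl
  · exact zero_mem _
  · have := Sh.sgn (C := C) l B _ _ (h (insert l B))
    rw [sum_insert hl] at this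
    rwa [show w - (ω l + ∑ m ∈ B, ω m) + 0 = w - ω l - ∑ m ∈ B, ω m by ring] at this

variable [Fintype σ]

theorem dK_memG {a : σ → C} {P : ℤ} (ha : ∀ l, Sh 𝒲 (a l) (P - ω l)) {w : ℤ} {v : Finset σ → W}
    (h : v ∈ WtG ω 𝒲 w) : dK W a v ∈ WtG ω 𝒲 (w + P) := by
  rw [dK, LinearMap.sum_apply]
  refine sum_mem fun l _ => ?_
  have := sh_wtG (ha l) _ _ (ze_memG (C := C) l h)
  rwa [show w + ω l + (P - ω l) = w + P by ring] at this

theorem dI_memG {a : σ → C} {P : ℤ} (ha : ∀ l, Sh 𝒲 (a l) (P + ω l)) {w : ℤ} {v : Finset σ → W}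
    (h : v ∈ WtG ω 𝒲 w) : dI W a v ∈ WtG ω 𝒲 (w + P) := by
  rw [dI, LinearMap.sum_apply]
  refine sum_mem fun l _ => ?_
  have := sh_wtG (ha l) _ _ (io_memG (C := C) l h)
  rwa [show w - ω l + (P + ω l) = w + P by ring] at this

theorem dK_congr {a a' : σ → C} (h : ∀ l, a l - a' l ∈ Module.annihilator C W) :
    dK W a = dK W a' := by
  refine LinearMap.ext fun v => funext fun B => ?_
  rw [dK_apply, dK_apply]
  refine sum_congr rfl fun l _ => ?_
  split_ifs
  · rw [mul_smul, mul_smul, ← sub_eq_zero, ← sub_smul]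
    exact Module.mem_annihilator.1 (h l) _
  · rfl

theorem dI_congr {a a' : σ → C} (h : ∀ l, a l - a' l ∈ Module.annihilator C W) :
    dI W a = dI W a' := by
  refine LinearMap.ext fun v => funext fun B => ?_
  rw [dI_apply, dI_apply]
  refine sum_congr rfl fun l _ => ?_
  split_ifs
  · rfl
  · rw [mul_smul, mul_smul, ← sub_eq_zero, ← sub_smul]
    exact Module.mem_annihilator.1 (h l) _

end Pool.Agent.Lib.MP_3184af_co.TateG
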