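import Pool.Agent.Lib.MP_3184af_co.TateG.StratG

set_option autoImplicit false

namespace Pool.Agent.Lib.MP_3184af_co.TateG

open Finset Tate

variable {ι σ F : Type} [DecidableEq ι] [LinearOrder σ] [Fintype σ] [Field F]

namespace Chain

/-- The vectors that vanish on `J`. -/
noncomputable def DJ (F : Type) [Field F] (J : Finset σ) : Submodule F (σ → F) :=
  Pi.spanSubset F ((Jᶜ : Finset σ) : Set σ)

theorem mem_DJ {J : Finset σ} {v : σ → F} : v ∈ DJ F J ↔ ∀ l ∈ J, v l = 0 := by
  simp [DJ, Pi.mem_spanSubset_iff]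

theorem rk_DJ (J : Finset σ) : Module.finrank F (DJ F J) + J.card = Fintype.card σ := by
  rw [DJ, Pi.dim_spanSubset, Set.ncard_coe_finset, card_compl_add_card]

theorem X_mem {J : Finset σ} {l : σ} (h : l ∉ J) : MvPolynomial.X l ∈ idl (DJ F J) :=
  Ideal.subset_span ⟨Pi.single l 1, mem_DJ.2 fun m hm => Pi.single_eq_of_ne (by
    rintro rfl
    exact h hm) _, by
    rw [lin, sum_eq_single l] <;> simp +contextual [Pi.single_eq_of_ne]⟩

omit [LinearOrder σ] [Fintype σ] in
theorem C_al {K : Type} [CommRing K] {I : Ideal K} {a : K} (h : a ∈ I)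
    (v : Finset σ → Sq ι K) : (MvPolynomial.C a : MvPolynomial ι K) • v ∈ Al σ (Vl ι I) :=
  fun B A => by
    rw [Pi.smul_apply, C_smul]
    exact I.mul_mem_right _ h

/-- The coefficients of the second part of the full operator. -/
noncomputable def co (K : Type) [CommRing K] [Algebra F K] (p : ℕ) (lv : σ → ℕ) (N : ℕ)
    (g : ι → σ → F) (U : Finset ι) (l : σ) : MvPolynomial ι K :=
  if lv l + 1 = N then yG K p lv N g U l ^ (p - 1) else 0

/-- The components of the second part of the full operator. -/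
noncomputable def jo (K : Type) [CommRing K] [Algebra F K] (p : ℕ) (lv : σ → ℕ) (N : ℕ)
    (g : ι → σ → F) (U : Finset ι) (l : σ) : Module.End (MvPolynomial ι K) (Finset σ → Sq ι K) :=
  dI (Sq ι K) (Pi.single l (co K p lv N g U l))

section
variable {K : Type} [CommRing K] [Algebra F K] {p : ℕ} {lv : σ → ℕ} {N : ℕ} {g : ι → σ → F}
  {U : Finset ι}

theorem dS_eq (c : σ → K) (v : Finset σ → Sq ι K) : dSG p lv N g U c v = dKosG K p lv N g U v +
    ∑ l, (MvPolynomial.C (c l ^ p ^ N) : MvPolynomial ι K) • jo K p lv N g U l v := by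
  simp only [jo, dI_single]
  rw [dSG, LinearMap.add_apply, dTG, dI, LinearMap.sum_apply]
  refine congrArg _ (sum_congr rfl fun l _ => ?_)
  rw [co]
  split_ifs
  · simp only [LinearMap.smul_apply, mul_smul, map_pow]
  · simp only [zero_smul, LinearMap.zero_apply, smul_zero]

theorem jo_mem (hp : 1 ≤ p) (l : σ) {w : ℤ} {v : Finset σ → Sq ι K}
    (hv : v ∈ YwG K p lv N U w) : jo K p lv N g U l v ∈ YwG K p lv N U (w + (p : ℤ) ^ N) := by
  refine dI_memG (fun m => ?_) hv
  rcases eq_or_ne m l with rfl | h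
  · rw [Pi.single_eq_same, co]
    split_ifs with e
    · refine ((yG_sh g subset_rfl m).pow _).cast ?_
      subst e
      rw [om, if_pos (Nat.lt_succ_self _)]
      push_cast [hp]
      ring
    · exact Sh.zero _
  · rw [Pi.single_eq_of_ne h]
    exact Sh.zero _

theorem dKos_jo (hp : p.Prime) [CharP F p] (l : σ) {v : Finset σ → Sq ι K}
    (hv : dKosG K p lv N g U v = 0) : dKosG K p lv N g U (jo K p lv N g U l v) = 0 := by
  have h := LinearMap.congr_fun
    (dI_dK (W := Sq ι K) (Pi.single l (co K p lv N g U l)) (yG K p lv N g U)) v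
  have e : (co K p lv N g U l * yG K p lv N g U l) • v = 0 := by
    rw [co]
    split_ifs
    · rw [pow_sub_one_mul hp.ne_zero]
      exact funext fun B => Module.mem_annihilator.1 (yG_pow hp g U l) _
    · rw [zero_mul, zero_smul]
  rw [sum_eq_single l (fun m _ k => by rw [Pi.single_eq_of_ne k, zero_mul]) (by simp),
    Pi.single_eq_same, Module.End.mul_apply, LinearMap.sub_apply,
    LinearMap.smul_apply, Module.End.one_apply, e, Module.End.mul_apply] at h
  rw [dKosG] at hv
  rw [hv, map_zero, zero_sub, eq_comm, neg_eq_zero] at h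
  exact h

end

/-- One more weight of exactness for the classes that are killed by the second part. -/
theorem climb {p : ℕ} (hp : p.Prime) [CharP F p] (lv : σ → ℕ) (N : ℕ) (g : ι → σ → F)
    (U : Finset ι) (J : Finset σ) (w : ℤ)
    (h : ∀ J' ⊆ J, J'.Nonempty → ExM (dSG p lv N g U (MvPolynomial.X : σ → MvPolynomial σ F))
      (YwG (MvPolynomial σ F) p lv N U) (Al σ (Vl ι (idl (DJ F J')))) ((p : ℤ) ^ N)
      (w + (p : ℤ) ^ N * (J'.card - 1)))
    (n : ℕ) : ∀ J' ⊆ J, (J \ J').card = n →
      ∀ x ∈ YwG (MvPolynomial σ F) p lv N U (w + (p : ℤ) ^ N * J'.card),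
      dKosG _ p lv N g U x = 0 → (∀ l ∈ J', jo _ p lv N g U l x = 0) →
      (∀ B : Finset σ, (n : ℤ) ≤ dg lv N B → x B = 0) →
      ∃ z ∈ YwG (MvPolynomial σ F) p lv N U (w + (p : ℤ) ^ N * J'.card - (p : ℤ) ^ N),
        dSG p lv N g U MvPolynomial.X z - x ∈ Al σ (Vl ι (idl (DJ F J'))) := by
  have pN : 0 < p ^ N := pow_pos hp.pos N
  induction n with
  | zero =>
    intro J' _ _ x _ _ _ h3
    obtain rfl : x = 0 := funext fun B => h3 B (Nat.cast_le.2 (Nat.zero_le _))
    exact ⟨0, zero_mem _, by simp⟩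
  | succ n ih =>
    intro J' hJ hn x hx h1 h2 h3
    obtain ⟨l, hl⟩ := card_pos.1 (n.succ_pos.trans_eq hn.symm)
    obtain ⟨l1, l2⟩ := mem_sdiff.1 hl
    have e : ((insert l J').card : ℤ) = J'.card + 1 := by rw [card_insert_of_notMem l2]; rfl
    obtain ⟨z, hz, k⟩ := ih (insert l J') (insert_subset l1 hJ)
      (by rw [sdiff_insert, card_erase_of_mem hl, hn]; rfl) (jo _ p lv N g U l x)
      (by rw [e, mul_add, mul_one, ← add_assoc]; exact jo_mem hp.one_le l hx) (dKos_jo hp l h1)
      (fun m hm => by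
        rcases mem_insert.1 hm with rfl | hm
        · exact LinearMap.congr_fun (dI_sq _) x
        · refine (LinearMap.congr_fun (dI_dI _ _) x).trans ?_
          rw [LinearMap.neg_apply, Module.End.mul_apply, neg_eq_zero]
          exact (congrArg _ (h2 m hm)).trans (map_zero _))
      (fun B hB => by
        rw [jo, dI_single, LinearMap.smul_apply, Pi.smul_apply, io_apply, co]
        split_ifs with ht hb
        · exact smul_zero _
        · rw [h3 _ (by
            rw [dg] at hB ⊢
            rw [filter_insert, if_pos (by omega),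
              card_insert_of_notMem fun q => hb (mem_filter.1 q).1]
            omega), smul_zero, smul_zero]
        · exact zero_smul _ _
        · exact zero_smul _ _)
    rw [e, mul_add, mul_one, ← add_assoc, add_sub_cancel_right] at hz
    obtain ⟨y, hy, k'⟩ := h (insert l J') (insert_subset l1 hJ) (insert_nonempty _ _)
      (x - (MvPolynomial.C (MvPolynomial.X l ^ p ^ N) : MvPolynomial ι (MvPolynomial σ F)) • z)
      (by
        rw [e, add_sub_cancel_right]
        have := sh_wtG (sh_C U (MvPolynomial.X l ^ p ^ N)) _ _ hz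
        rw [add_zero] at this
        exact sub_mem hx this)
      (by
        rw [map_sub, map_smul, dS_eq _ x, h1, zero_add, ← add_sum_erase _ _ (mem_univ l),
          add_sub_right_comm, ← smul_sub]
        refine add_mem (Submodule.smul_mem _ _ (by simpa using neg_mem k)) (sum_mem fun m hm => ?_)
        by_cases hm' : m ∈ J'
        · rw [h2 m hm', smul_zero]
          exact zero_mem _
        · exact C_al (Ideal.pow_mem_of_mem _ (X_mem (by simp [hm', (mem_erase.1 hm).1])) _ pN) _)
    rw [e, add_sub_cancel_right] at hy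
    refine ⟨y, hy, ?_⟩
    rw [← sub_add] at k'
    have k1 := (show Al σ (Vl ι (idl (DJ F (insert l J')))) ≤ Al σ (Vl ι (idl (DJ F J'))) from
      fun v hv B A => Ideal.span_mono (Set.image_mono fun v hv => mem_DJ.2 fun m hm =>
        mem_DJ.1 hv m (mem_insert_of_mem hm)) (hv B A)) k'
    exact (add_mem_cancel_right (C_al (Ideal.pow_mem_of_mem _ (X_mem l2) _ pN) z)).1 k1

end Chain

open Chain in
/-- Cocycles with few indices of the top level. -/
theorem kos_lo {p : ℕ} (hp : p.Prime) [CharP F p] {lv : σ → ℕ} {J : ℕ} {g : ι → σ → F}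
    (hA : Adm lv (J + 1) g) (U : Finset ι) (sg : Finset ι → ℤ)
    (hK : ∀ Z ⊆ U, ∀ w < sg Z,
      Ex (dKosG F p lv (J + 1) g Z) (YwG F p lv (J + 1) Z) ((p : ℤ) ^ (J + 1)) w) (w : ℤ)
    (h2 : ∀ Z ⊆ U, w + (p : ℤ) ^ (J + 1) * rk (gl lv g J) U - (p : ℤ) ^ (J + 1) <
      (U \ Z).card + sg Z + (p : ℤ) ^ (J + 1) * rk (gl lv g J) Z)
    {x : Finset σ → Sq ι F} (hx : x ∈ YwG F p lv (J + 1) U w)
    (h1 : x ∈ Gp F fun B _ => dg lv (J + 1) B < rk (gl lv g J) U)
    (h0 : dKosG F p lv (J + 1) g U x = 0) :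
    ∃ z ∈ YwG F p lv (J + 1) U (w - (p : ℤ) ^ (J + 1)), dKosG F p lv (J + 1) g U z = x := by
  obtain ⟨I, hJ, hL⟩ := exists_J (Submodule.span F (gl lv g J '' (U : Set ι)))
  have p0 : (0 : ℤ) ≤ (p : ℤ) ^ (J + 1) := by positivity
  obtain ⟨z, hz, k⟩ := climb hp lv (J + 1) g U I w
    (fun J' hJ' _ => stratG hp hA U sg hK _ _ fun Z hZ => by
      have a1 := Submodule.finrank_sup_add_finrank_inf_eq (DJ F I)
        (Submodule.span F (gl lv g J '' (Z : Set ι)))
      have a2 : DJ F I ⊓ Submodule.span F (gl lv g J '' (Z : Set ι)) = ⊥ := eq_bot_iff.2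
        fun v hv => hL v (Submodule.span_mono (Set.image_mono hZ) hv.2) (mem_DJ.1 hv.1)
      have a3 := Submodule.finrank_mono (sup_le_sup_right (show DJ F I ≤ DJ F J' from fun v hv =>
        mem_DJ.2 fun m hm => mem_DJ.1 hv m (hJ' hm))
        (Submodule.span F (gl lv g J '' (Z : Set ι))))
      have a4 := rk_DJ (F := F) I
      have a5 := rk_DJ (F := F) J'
      have a6 := h2 Z hZ
      rw [a2, finrank_bot] at a1
      rw [rk, rk, ← hJ] at a6
      have a7 : (J'.card : ℤ) + Module.finrank F (DJ F J') +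
          Module.finrank F (Submodule.span F (gl lv g J '' (Z : Set ι))) ≤ I.card +
          Module.finrank F ↥(DJ F J' ⊔ Submodule.span F (gl lv g J '' (Z : Set ι))) := by omega
      have a8 := mul_le_mul_of_nonneg_left a7 p0
      linarith)
    I.card ∅ (empty_subset _) (by rw [sdiff_empty])
    (cmap (Algebra.linearMap F (MvPolynomial σ F)).toAddMonoidHom x)
    (by simpa using cmap_memG _ hx) (by rw [← cmap_dKosG, h0, map_zero]) (by simp)
    fun B hB => Sq.ext fun A => by
      change algebraMap F _ (x B A) = 0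
      rw [h1 B A fun e => ?_, map_zero]
      rw [rk, ← hJ] at e
      omega
  let ψ := (MvPolynomial.aeval (0 : σ → F) : MvPolynomial σ F →ₐ[F] F).toLinearMap
  refine ⟨cmap ψ.toAddMonoidHom z, by simpa using cmap_memG _ hz, ?_⟩
  rw [← dSG_zero hp.one_le, ← cmap_dSG ψ g U (c := MvPolynomial.X) fun l r => by simp [ψ]]
  refine funext fun B => Sq.ext fun A => ?_
  have e : idl (DJ F (∅ : Finset σ)) ≤ RingHom.ker (MvPolynomial.aeval (0 : σ → F) :
      MvPolynomial σ F →ₐ[F] F) := Ideal.span_le.2 (by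
    rintro _ ⟨a, -, rfl⟩
    simp [lin])
  have e2 := RingHom.mem_ker.1 (e (k B A))
  rw [Pi.sub_apply, Sq.sub_apply, map_sub, sub_eq_zero] at e2
  exact e2.trans (AlgHom.commutes _ _)

end Pool.Agent.Lib.MP_3184af_co.TateG
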