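import Pool.Agent.Lib.MP_3184af_co.TateG.CarG

set_option autoImplicit false

namespace Pool.Agent.Lib.MP_3184af_co.TateG

open Finset Tate

variable {σ C W : Type} [LinearOrder σ] [Fintype σ] [CommRing C] [AddCommGroup W] [Module C W]

/-- The two forms of the operator are conjugate. -/
theorem conjG {p : ℕ} (hp : p.Prime) (hC : (p : C) = 0) (𝒲 : ℤ → AddSubgroup W) (ω : σ → ℤ)
    (P m : ℤ) (hm : p * m = 2 * P) (u c : σ → C) (hu : ∀ l, Sh 𝒲 (u l) (P - ω l))
    (hc : ∀ l, Sh 𝒲 (c l) (m - P + ω l)) (w : ℤ)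
    (h : Ex (dK W u + (∑ l, c l * u l) ^ (p - 1) • dI W c) (WtG ω 𝒲) P w) :
    Ex (dK W u + dI W fun l => c l ^ p * u l ^ (p - 1)) (WtG ω 𝒲) P w := by
  obtain ⟨n, rfl⟩ : ∃ n, p = n + 2 := ⟨p - 2, by have := hp.two_le; omega⟩
  rw [show n + 2 - 1 = n + 1 from rfl] at h ⊢
  let cJ : Finset σ → σ → C := fun J l => if l ∈ J then c l else 0
  let rJ : Finset σ → σ → C := fun J l => if l ∈ J then 0 else c l ^ (n + 2) * u l ^ (n + 1)
  let d : Finset σ → Module.End C (Finset σ → W) := fun J =>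
    dK W u + (∑ l, cJ J l * u l) ^ (n + 1) • dI W (cJ J) + dI W (rJ J)
  have hcJ : ∀ J l, Sh 𝒲 (cJ J l) (m - P + ω l) := fun J l => by
    by_cases hl : l ∈ J
    · simpa [cJ, hl] using hc l
    · simpa [cJ, hl] using Sh.zero _
  have key : ∀ J : Finset σ, Ex (d J) (WtG ω 𝒲) P w → Ex (d ∅) (WtG ω 𝒲) P w := by
    intro J
    induction J using Finset.induction_on with
    | empty => exact id
    | insert k J hk ih =>
      intro hJ
      refine ih ?_
      set a : C := ∑ l, cJ J l * u l with ha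
      set b : C := ∑ l, cJ {k} l * u l with hb
      have hb' : b = c k * u k := by simp [hb, cJ]
      have e1 : cJ (insert k J) = cJ J + cJ {k} := by
        funext l
        by_cases hl : l = k
        · subst hl; simp [cJ, hk]
        · simp [cJ, hl]
      have e2 : rJ J = rJ (insert k J) + b ^ (n + 1) • cJ {k} := by
        funext l
        by_cases hl : l = k
        · subst hl; simp [rJ, cJ, hk, hb']; ring
        · simp [rJ, cJ, hl]
      have e3 : ∑ l, cJ (insert k J) l * u l = a + b := by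
        rw [e1, ha, hb, ← sum_add_distrib]
        exact sum_congr rfl fun l _ => by rw [Pi.add_apply, add_mul]
      obtain ⟨g1, g2⟩ := conj_G hp hC a b
      set G : C := ∑ i ∈ range (n + 1), b ^ i * a ^ (n - i) * (-1) ^ (i + 1) with hG
      obtain ⟨r1, r2⟩ := conj_ring (dK W u) (dI W (cJ J)) (dI W (cJ {k})) (dI W (rJ (insert k J)))
        a b (a ^ (n + 1)) (b ^ (n + 1)) ((a + b) ^ (n + 1)) G (dI_dK _ _) (dI_dK _ _) (dI_sq _)
        (dI_sq _) (dI_dI _ _) (dI_dI _ _) (dI_dI _ _) g1 g2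
      have sa : Sh 𝒲 a m := Sh.sum _ fun l _ => ((hcJ J l).mul (hu l)).cast (by ring)
      have sb : Sh 𝒲 b m := Sh.sum _ fun l _ => ((hcJ {k} l).mul (hu l)).cast (by ring)
      have sG : Sh 𝒲 G (n * m) := Sh.sum _ fun i hi =>
        (((sb.pow i).mul (sa.pow (n - i))).mul (Sh.one.neg.pow (i + 1))).cast (by
          have := mem_range.1 hi
          rw [Nat.cast_sub (by omega)]
          ring)
      refine ex_conj r2 (fun j v hv => ?_) ?_ hJ
      · have := sh_wtG sG _ _ (dI_memG (hcJ J) (dI_memG (hcJ {k}) hv))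
        rwa [show j + (m - P) + (m - P) + n * m = j by push_cast at hm; linear_combination hm]
          at this
      · have d1 : d (insert k J) = dK W u + (a + b) ^ (n + 1) • (dI W (cJ J) + dI W (cJ {k})) +
            dI W (rJ (insert k J)) := by
          simp only [d]
          rw [e3, e1, dI_add]
        have d2 : d J = dK W u + a ^ (n + 1) • dI W (cJ J) +
            (dI W (rJ (insert k J)) + b ^ (n + 1) • dI W (cJ {k})) := by
          simp only [d]
          rw [e2, dI_add, dI_smul]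
        rw [d1, d2]
        exact r1
  have hU : d univ = dK W u + (∑ l, c l * u l) ^ (n + 1) • dI W c := by
    have e1 : cJ univ = c := by funext l; simp [cJ]
    have e2 : rJ univ = 0 := by funext l; simp [rJ]
    simp only [d]
    rw [e1, e2, dI_zero, add_zero]
  have hE : d ∅ = dK W u + dI W fun l => c l ^ (n + 2) * u l ^ (n + 1) := by
    have e1 : cJ ∅ = 0 := by funext l; simp [cJ]
    have e2 : rJ ∅ = fun l => c l ^ (n + 2) * u l ^ (n + 1) := by funext l; simp [rJ]
    simp only [d]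
    rw [e1, e2, dI_zero, smul_zero, add_zero]
  rw [← hE]
  exact key univ (hU ▸ h)

theorem row_ring {A : Type} [Ring A] [Algebra C A] (K R Z I : A) (s t : C) (hZ : Z * Z = 0)
    (hI : I * I = 0) (e1 : I * Z = -(Z * I)) (e2 : I * K = s • (1 : A) - K * I)
    (e3 : Z * K = -(K * Z)) (e4 : R * Z = t • (1 : A) - Z * R) (e5 : I * R = -(R * I)) :
    (K + s • Z + (R + -t • I)) * (1 + Z * I) = (1 + Z * I) * (K + R) ∧ Z * I * (Z * I) = 0 := by
  have f1 : I * (Z * I) = 0 := by rw [← mul_assoc, e1, neg_mul, mul_assoc, hI, mul_zero, neg_zero]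
  have f2 : Z * (Z * I) = 0 := by rw [← mul_assoc, hZ, zero_mul]
  have f3 : Z * I * K = s • Z + K * (Z * I) := by
    rw [mul_assoc, e2, mul_sub, ← mul_assoc, e3, mul_smul_comm, mul_one, neg_mul, sub_neg_eq_add,
      mul_assoc]
  have f4 : Z * I * R = R * (Z * I) - t • I := by
    rw [mul_assoc, e5, ← mul_assoc R, e4, sub_mul, smul_mul_assoc, one_mul, mul_neg, mul_assoc]
    abel
  refine ⟨?_, by rw [mul_assoc, f1, mul_zero]⟩
  simp only [mul_add, add_mul, smul_mul_assoc, mul_one, one_mul, f1, f2, f3, f4, smul_zero]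
  module

/-- A row operation. -/
theorem rowG (𝒲 : ℤ → AddSubgroup W) (ω : σ → ℤ) (P w : ℤ) (i : σ) (ζ u r : σ → C) (hζ : ζ i = 0)
    (hs : ∀ l, Sh 𝒲 (ζ l) (ω l - ω i))
    (h : Ex (dK W (u + Pi.single i (∑ l, ζ l * u l)) + dI W (r - r i • ζ)) (WtG ω 𝒲) P w) :
    Ex (dK W u + dI W r) (WtG ω 𝒲) P w := by
  have hZ : dK W (Pi.single i (1 : C)) = ze C W i := by rw [dK_single, one_smul]
  have e : ∀ a : σ → C, dI W a * ze C W i = a i • 1 - ze C W i * dI W a := fun a => by
    rw [← hZ, dI_dK]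
    simp [Pi.single_apply]
  obtain ⟨r1, r2⟩ := row_ring (dK W u) (dI W r) (ze C W i) (dI W ζ) _ _ (ze_sq i) (dI_sq ζ)
    (by rw [e, hζ, zero_smul, zero_sub]) (dI_dK ζ u) (hZ ▸ dK_dK _ u) (e r) (dI_dI ζ r)
  refine ex_conj r2 (fun j v hv => ?_) ?_ h
  · have := ze_memG (C := C) i (dI_memG (P := -ω i) (fun l => (hs l).cast (by ring)) hv)
    rwa [neg_add_cancel_right] at this
  · rwa [dK_add, dK_single, sub_eq_add_neg r, ← neg_smul, dI_add, dI_smul]

/-- Several row operations. -/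
theorem rowsG (𝒲 : ℤ → AddSubgroup W) (ω : σ → ℤ) (P w : ℤ) {α : Type} (R : Finset α) (st : α → σ)
    (ζ : α → σ → C) (u r : σ → C) (hζ : ∀ k ∈ R, ∀ k' ∈ R, ζ k (st k') = 0)
    (hr : ∀ k ∈ R, r (st k) = 0) (hs : ∀ k ∈ R, ∀ l, Sh 𝒲 (ζ k l) (ω l - ω (st k)))
    (h : Ex (dK W (u + ∑ k ∈ R, Pi.single (st k) (∑ l, ζ k l * u l)) + dI W r) (WtG ω 𝒲) P w) :
    Ex (dK W u + dI W r) (WtG ω 𝒲) P w := by
  classical
  induction R using Finset.induction_on with
  | empty => simpa using h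
  | insert a R ha ih =>
    have m0 := mem_insert_self a R
    refine ih (fun k hk k' hk' => hζ k (mem_insert_of_mem hk) k' (mem_insert_of_mem hk'))
      (fun k hk => hr k (mem_insert_of_mem hk)) (fun k hk => hs k (mem_insert_of_mem hk))
      (rowG 𝒲 ω P w (st a) (ζ a) _ r (hζ a m0 a m0) (hs a m0) ?_)
    have e : ∑ l, ζ a l * (u + ∑ k ∈ R, Pi.single (st k) (∑ l, ζ k l * u l) : σ → C) l =
        ∑ l, ζ a l * u l := by
      refine sum_congr rfl fun l _ => ?_
      rw [Pi.add_apply, mul_add, Finset.sum_apply, mul_sum, sum_eq_zero, add_zero]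
      intro k hk
      rcases eq_or_ne l (st k) with rfl | hl
      · rw [hζ a m0 k (mem_insert_of_mem hk), zero_mul]
      · rw [Pi.single_eq_of_ne hl, mul_zero]
    rw [sum_insert ha] at h
    rwa [e, hr a m0, zero_smul, sub_zero, add_assoc, add_comm (∑ k ∈ R, _)]

end Pool.Agent.Lib.MP_3184af_co.TateG
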