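import Pool.Agent.Lib.MP_3184af_co.TateG.BaseG

set_option autoImplicit false

namespace Pool.Agent.Lib.MP_3184af_co.TateG

open Finset Tate

variable {ι σ F : Type} [DecidableEq ι] [LinearOrder σ] [Fintype σ] [Field F]

namespace Cstep

omit [DecidableEq ι] [LinearOrder σ] [Fintype σ] in
theorem pc_neg {K : Type} [CommRing K] {p : ℕ} {lv : σ → ℕ} {n : ℕ} {U : Finset ι} {w a : ℤ}
    (ha : a < 0) {v : Finset σ → Sq ι K} (hv : v ∈ Gp K (Pc p lv n U w a)) : v = 0 :=
  funext fun B => Sq.ext fun A => hv B A fun h => by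
    have h1 : (0 : ℤ) ≤ dg lv n B := Int.natCast_nonneg _
    have h2 := h.2
    omega

/-- The number of indices on a given level. -/
def top (lv : σ → ℕ) (J : ℕ) (B : Finset σ) : ℤ := (B.filter fun j => lv j = J).card

omit [LinearOrder σ] [Fintype σ] in
theorem dg_succ (lv : σ → ℕ) (J : ℕ) (B : Finset σ) :
    dg lv (J + 1) B = dg lv J B + top lv J B := by
  simp only [dg, top, card_filter, Nat.cast_sum, ← sum_add_distrib]
  refine sum_congr rfl fun j _ => ?_
  split_ifs <;> first | rfl | omega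

omit [LinearOrder σ] [Fintype σ] in
theorem om_succ (p : ℕ) (lv : σ → ℕ) (J : ℕ) (B : Finset σ) :
    ∑ j ∈ B, om p lv (J + 1) j = ∑ j ∈ B, om p lv J j +
      ((p : ℤ) ^ (J + 1) - (p : ℤ) ^ J) * dg lv J B +
      ((p : ℤ) ^ (J + 1) - 2 * (p : ℤ) ^ J) * top lv J B := by
  simp only [dg, top, card_filter, Nat.cast_sum, mul_sum, ← sum_add_distrib]
  refine sum_congr rfl fun j _ => ?_
  simp only [om]
  rcases lt_trichotomy (lv j) J with h | h | h
  · simp only [h, h.ne, h.trans J.lt_succ_self, if_true, if_false]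
    push_cast
    ring
  · simp [h]
  · simp [h.not_gt, h.ne', show ¬ lv j < J + 1 by omega]

/-- Completion of a homogeneous element to a cocycle of the full operator. -/
theorem complete {K : Type} [CommRing K] [Algebra F K] {p : ℕ} (hp : p.Prime) [CharP F p]
    {lv : σ → ℕ} {n : ℕ} {g : ι → σ → F} {U : Finset ι} (c : σ → K) {w a : ℤ}
    (hC : ∀ b < a, CC F p lv n g U (w + (p : ℤ) ^ n) b) (k : ℕ) :
    ∀ b < (k : ℤ), b ≤ a → ∀ x ∈ Gp K (Pc p lv n U w b),
      dKosG K p lv n g U (dTG p lv n g U c x) = 0 →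
      ∃ x' ∈ YwG K p lv n U w, (x' ∈ Gp K fun B _ => dg lv n B < b) ∧
        dSG p lv n g U c (x + x') = dKosG K p lv n g U x := by
  induction k with
  | zero =>
    intro b hb _ x hx _
    rw [pc_neg hb hx]
    exact ⟨0, zero_mem _, zero_mem _, by simp⟩
  | succ k ih =>
    intro b hb hba x hx h0
    obtain ⟨hx1, hx2⟩ := Gp_and.1 hx
    have hy : dTG p lv n g U c x ∈ Gp K (Pc p lv n U (w + (p : ℤ) ^ n) (b - 1)) :=
      Gp_and.2 ⟨mem_YwG.1 (dTG_mem hp.one_le g U c (mem_YwG.2 hx1)),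
        Gp_mono (fun _ _ h => by omega) (dTG_dg g U c (fun t => t = b) hx2)⟩
    obtain ⟨x1, h1, h2⟩ := kos_baseP K g U (fun _ _ h => h.1.1) (hC (b - 1) (by omega)) _
      (neg_mem hy) (by rw [map_neg, h0, neg_zero])
    rw [add_sub_cancel_right] at h1
    have h3 : dTG p lv n g U c (dTG p lv n g U c x) = 0 := congr($(dI_sq _) x)
    obtain ⟨x2, h4, h5, h6⟩ := ih (b - 1 - 1) (by push_cast at hb; omega) (by omega) x1 h1
      (by rw [dKosG_dTG hp, h2, map_neg, h3, neg_zero, neg_zero])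
    obtain ⟨h7, h8⟩ := Gp_and.1 h1
    refine ⟨x1 + x2, add_mem (mem_YwG.2 h7) h4, add_mem (Gp_mono (fun _ _ h => by omega) h8)
      (Gp_mono (fun _ _ h => by omega) h5), ?_⟩
    rw [map_add, h6, h2, dSG, LinearMap.add_apply, add_neg_cancel_right]

end Cstep

/-- From the full complex to the Koszul complex. -/
theorem c_of_a {p : ℕ} (hp : p.Prime) [CharP F p] (lv : σ → ℕ) (n : ℕ) (g : ι → σ → F)
    (U : Finset ι) (T : ℤ)
    (hA : ∀ w < T, Ex (dSG p lv n g U (MvPolynomial.X : σ → MvPolynomial σ F))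
      (YwG (MvPolynomial σ F) p lv n U) ((p : ℤ) ^ n) w)
    (w a : ℤ) (h : w + (p : ℤ) ^ n * a < T) : CC F p lv n g U w a := by
  have hq : (0 : ℤ) < (p : ℤ) ^ n := pow_pos (by exact_mod_cast hp.pos) _
  suffices H : ∀ m : ℕ, ∀ a < (m : ℤ), ∀ w, w + (p : ℤ) ^ n * a < T → CC F p lv n g U w a from
    H (a + 1).toNat a (by omega) w h
  clear h w a
  intro m
  induction m with
  | zero =>
    intro a ha w _ v hv _
    rw [Cstep.pc_neg ha hv]
    exact ⟨0, zero_mem _, map_zero _⟩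
  | succ m ih =>
    intro a ha w h v hv h0
    rcases lt_or_ge a 0 with ha0 | ha0
    · rw [Cstep.pc_neg ha0 hv]
      exact ⟨0, zero_mem _, map_zero _⟩
    let ψ : F →ₗ[F] MvPolynomial σ F := Algebra.linearMap F _
    let χ : MvPolynomial σ F →ₗ[F] F := (MvPolynomial.aeval fun _ => (0 : F)).toLinearMap
    have hx : cmap ψ.toAddMonoidHom v ∈ Gp _ (Pc p lv n U w a) := cmap_gp _ hv
    have h1 : dKosG (MvPolynomial σ F) p lv n g U (cmap ψ.toAddMonoidHom v) = 0 := by
      rw [← cmap_dKosG, h0, map_zero]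
    obtain ⟨x', h2, h3, h4⟩ := Cstep.complete hp (MvPolynomial.X : σ → MvPolynomial σ F)
      (fun b hb => ih b (by push_cast at ha; omega) (w + (p : ℤ) ^ n) (by nlinarith))
      (a + 1).toNat a (by omega) le_rfl _ hx (by rw [dKosG_dTG hp, h1, map_zero, neg_zero])
    obtain ⟨z, h5, h6⟩ := hA w (by nlinarith) _ (add_mem (mem_YwG.2 (Gp_and.1 hx).1) h2)
      (h4.trans h1)
    have h7 := cmap_dSG (p := p) (lv := lv) (n := n) χ g U (c := MvPolynomial.X) (c' := 0)
      (fun l r => by simp [χ]) z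
    rw [dSG_zero hp.one_le, h6] at h7
    refine ⟨prj (fun B _ => dg lv n B) (a - 1) (cmap χ.toAddMonoidHom z),
      prj_mem _ _ (Gp_mono ?_ (mem_YwG.1 (cmap_memG _ h5))), ?_⟩
    · exact fun _ _ h _ => h
    rw [prj_comm _ 1 (fun φ v hv => dKosG_dg g U φ hv), ← h7]
    funext B
    refine Sq.ext fun A => ?_
    change (if dg lv n B = a then χ (ψ (v B A) + x' B A) else 0) = _
    split_ifs with e
    · rw [h3 B A e.not_lt]
      simp [χ, ψ]
    · exact (hv B A fun h => e h.2).symm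

/-- One more level. -/
theorem kos_hi {p : ℕ} (lv : σ → ℕ) (J : ℕ) (g : ι → σ → F) (U : Finset ι) (T : ℤ)
    (hC : ∀ w a, w + (p : ℤ) ^ J * a < T → CC F p lv J g U w a) (w a : ℤ)
    (h : w - ((p : ℤ) - 2) * (p : ℤ) ^ J * a < T) : CC F p lv (J + 1) g U w a := by
  have e : dKosG F p lv (J + 1) g U = dKosG F p lv J g U + dK (Sq ι F) fun j =>
      if lv j = J then gam (p ^ lv j) (fun i => algebraMap F F (g i j)) U else 0 := by
    rw [dKosG, dKosG, ← dK_add]
    congr 1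
    funext j
    simp only [yG, Pi.add_apply]
    rcases lt_trichotomy (lv j) J with h | h | h
    · simp [h, h.ne, h.trans J.lt_succ_self]
    · simp [h]
    · simp [h.not_gt, h.ne', show ¬ lv j < J + 1 by omega]
  unfold CC
  rw [e]
  refine filt_ex (fun B _ => Cstep.top lv J B) 0 _ _ 0 (Fintype.card σ) (fun B A _ => ?_)
    (fun φ v hv => dK_gp' (fun l B hl h1 h2 => ?_) hv)
    (fun k v hv => dK_gp' (fun l B hl h1 h2 => ?_) hv) (fun v hv => ?_) (fun v _ => ?_)
    fun k v hv h0 => ?_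
  · exact ⟨Int.natCast_nonneg _, Int.ofNat_le.2 (card_le_univ _)⟩
  · have h3 : lv l ≠ J := fun h => h1 (by simp [yG, h])
    rwa [sub_zero, Cstep.top, filter_insert, if_neg h3]
  · have h3 : lv l = J := by_contra fun h => h1 (if_neg h)
    rw [Cstep.top, filter_insert, if_pos h3, card_insert_of_notMem (by simp [hl])]
    rw [Cstep.top] at h2
    push_cast
    omega
  · rw [← e]
    obtain ⟨h1, h2⟩ := Gp_and.1 hv
    have h3 := dKosG_mem g subset_rfl (mem_YwG.2 h1)
    rw [sub_add_cancel] at h3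
    exact Gp_and.2 ⟨mem_YwG.1 h3,
      Gp_mono (fun _ _ h => by omega) (dKosG_dg g U (fun t => t = a - 1) h2)⟩
  · rw [← e]
    exact congr($(dK_sq _) v)
  · obtain ⟨z, h1, h2⟩ := hC (w - (a - k) * ((p : ℤ) ^ (J + 1) - (p : ℤ) ^ J) -
      k * ((p : ℤ) ^ (J + 1) - 2 * (p : ℤ) ^ J)) (a - k) (h.trans_eq' (by ring)) v
      (Gp_mono (fun B A hB => by
        obtain ⟨⟨⟨h1, h2⟩, h3⟩, h4⟩ := hB
        rw [Cstep.dg_succ, h4] at h3
        have h5 : dg lv J B = a - k := by omega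
        rw [Cstep.om_succ, h4, h5] at h2
        exact ⟨⟨h1, h2.trans (by ring)⟩, h5⟩) hv) h0
    refine ⟨z, Gp_mono (fun B A hB h4 => ?_) h1, h2⟩
    obtain ⟨⟨h1, h2⟩, h3⟩ := hB
    rw [sub_zero] at h4
    refine ⟨⟨h1, ?_⟩, by rw [Cstep.dg_succ, h3, h4]; ring⟩
    rw [Cstep.om_succ, h3, h4, h2]
    ring

end Pool.Agent.Lib.MP_3184af_co.TateG
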