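import Pool.Agent.Lib.MP_3184af_co.Main
import Pool.Agent.Lib.MP_3184af_co.Tate.Pol
import Pool.Agent.Lib.MP_3184af_co.Tate.Div

/-!
The weighted doubling lemma, abstract form.
-/

set_option autoImplicit false

namespace Pool.Agent.Lib.MP_3184af_co.TateG

open Finset Tate

section
variable {ι K : Type} [DecidableEq ι] [CommRing K]

/-- Alternating sum of `f` over the sets `I ∪ J` with `J ⊆ T`. -/
def alt (f : Finset ι → K) (I T : Finset ι) : K := ∑ J ∈ T.powerset, (-1 : K) ^ J.card * f (I ∪ J)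

theorem alt_insert (f : Finset ι → K) (I : Finset ι) {T : Finset ι} {i : ι} (hi : i ∉ T) :
    alt f I (insert i T) = alt f I T - alt f (insert i I) T := by
  rw [alt, sum_powerset_insert hi, alt, alt, sub_eq_add_neg, ← sum_neg_distrib]
  congr 1
  refine sum_congr rfl fun J hJ => ?_
  rw [card_insert_of_notMem fun h => hi (mem_powerset.1 hJ h), union_insert, insert_union, pow_succ]
  ring

theorem alt_max (f : Finset ι → K) (U I : Finset ι) : ∀ T : Finset ι, T ⊆ U → I ⊆ U \ T →
    (∀ T', T ⊂ T' → T' ⊆ U → alt f ∅ T' = 0) → alt f I T = alt f ∅ T := by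
  induction I using Finset.induction_on with
  | empty => exact fun _ _ _ _ => rfl
  | insert i I hi ih =>
    intro T hT hI h
    have h1 := mem_sdiff.1 (hI (mem_insert_self i I))
    have h2 : insert i T ⊆ U := insert_subset h1.1 hT
    have h3 : I ⊆ U \ T := (subset_insert i I).trans hI
    have h4 := ih (insert i T) h2 (fun j hj => by
      have := mem_sdiff.1 (h3 hj)
      rw [mem_sdiff, mem_insert]
      exact ⟨this.1, fun k => k.elim (fun k => hi (k ▸ hj)) this.2⟩)
      fun T' k1 k2 => h T' ((ssubset_insert h1.2).trans k1) k2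
    rw [h _ (ssubset_insert h1.2) h2, alt_insert f I h1.2, ih T hT h3 h] at h4
    exact (sub_eq_zero.1 h4).symm

theorem alt_mon (f : Finset ι → K) (B : Finset ι) (T : Finset ι) : ∀ I : Finset ι, Disjoint I T →
    alt (f * mon K B) I T =
      if B ⊆ I ∪ T then (-1) ^ (B ∩ T).card * alt f (I ∪ B ∩ T) (T \ B) else 0 := by
  induction T using Finset.induction_on with
  | empty => intro I _; simp [alt, mon]
  | insert i T hi ih =>
    intro I hI
    rw [disjoint_insert_right] at hI
    rw [alt_insert _ _ hi, ih I hI.2, ih (insert i I) (disjoint_insert_left.2 ⟨hi, hI.2⟩),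
      insert_union, union_insert]
    by_cases h : i ∈ B
    · have h1 : ¬ B ⊆ I ∪ T := fun k => (mem_union.1 (k h)).elim hI.1 hi
      rw [if_neg h1, inter_insert_of_mem h, insert_sdiff_of_mem _ h,
        card_insert_of_notMem fun k => hi (mem_inter.1 k).2, union_insert, insert_union]
      split_ifs
      · ring
      · simp
    · rw [inter_insert_of_notMem h, insert_sdiff_of_notMem _ h,
        alt_insert _ _ fun k => hi (mem_sdiff.1 k).1, insert_union]
      simp only [subset_insert_iff_of_notMem h]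
      split_ifs
      · ring
      · simp

theorem alt_pol (F : Finset ι → K) (wt : ι → ℕ) {w τ : ℕ} (hw : ∀ i, wt i ≤ w) (U : Finset ι)
    (hF : ∀ I T, Disjoint I T → T ⊆ U → τ < ∑ i ∈ T, wt i → alt F I T = 0) {n : ℕ}
    {L : Finset ι → K} (hL : L ∈ Pol ι K n) {T : Finset ι} (hT : T ⊆ U)
    (h : τ + w * n < ∑ i ∈ T, wt i) : alt (F * L) ∅ T = 0 := by
  refine Pol.ind (P := fun L => alt (F * L) ∅ T = 0) (fun B hB => ?_) (by simp [alt])
    (fun f g h1 h2 => ?_) (fun c f h1 => ?_) hL
  · rw [alt_mon F B T ∅ (disjoint_empty_left T)]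
    split_ifs with h1
    · rw [empty_union] at h1
      rw [hF _ _ (by rw [empty_union]; exact disjoint_sdiff.mono_left inter_subset_left)
        (sdiff_subset.trans hT), mul_zero]
      have h2 := sum_sdiff (f := wt) h1
      have h3 : ∑ i ∈ B, wt i ≤ B.card • w := sum_le_card_nsmul _ _ _ fun i _ => hw i
      have h4 : B.card * w ≤ n * w := Nat.mul_le_mul_right _ (by omega)
      rw [smul_eq_mul] at h3
      rw [mul_comm] at h
      omega
    · rfl
  · simp only [alt, Pi.mul_apply, Pi.add_apply, mul_add, sum_add_distrib] at h1 h2 ⊢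
    rw [h1, h2, add_zero]
  · simp only [alt, Pi.mul_apply, Pi.smul_apply, smul_eq_mul, mul_left_comm _ c, ← mul_sum] at h1 ⊢
    rw [h1, mul_zero]

variable {A : Type} [AddCommGroup A] [DecidableEq A]

variable (K) in
/-- Indicator of the sets with a given sum. -/
def fib (a : ι → A) (x : A) (I : Finset ι) : K := if ∑ i ∈ I, a i = x then 1 else 0

theorem alt_fib (a : ι → A) (x : A) {I T : Finset ι} (h : Disjoint I T) :
    alt (fib K a x) I T = alt (fib K a (x - ∑ i ∈ I, a i)) ∅ T := by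
  refine sum_congr rfl fun J hJ => ?_
  simp only [fib, empty_union, sum_union (h.mono_right (mem_powerset.1 hJ)), eq_sub_iff_add_eq']

theorem alt_supp (a : ι → A) (x : A) {T : Finset ι} (h : alt (fib K a x) ∅ T ≠ 0) :
    ∃ J ⊆ T, ∑ i ∈ J, a i = x := by
  obtain ⟨J, h1, h2⟩ := exists_ne_zero_of_sum_ne_zero h
  refine ⟨J, mem_powerset.1 h1, ?_⟩
  by_contra h3
  simp [fib, h3] at h2

/-- A family without signed relation has a nonzero alternating product. -/
theorem no_rel [Nontrivial K] (a : ι → A) (d : ℕ) (Q : ℤ) (hQ : ¬ Q ∣ d) (W : Finset ι)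
    (hd : ∀ i ∈ W, d • a i = 0)
    (h : ∀ I ⊆ W, ∀ J ⊆ W, ∑ i ∈ I, a i = ∑ i ∈ J, a i → Q ∣ (I.card : ℤ) - J.card) :
    ∃ x, alt (fib K a x) ∅ W ≠ 0 := by
  induction W using Finset.induction_on with
  | empty => exact ⟨0, by simp [alt, fib]⟩
  | insert i W hi ih =>
    have hs := subset_insert i W
    obtain ⟨x, hx⟩ := ih (fun j hj => hd j (hs hj)) fun I hI J hJ =>
      h I (hI.trans hs) J (hJ.trans hs)
    by_contra hc
    push Not at hc
    have h1 : ∀ y, alt (fib K a (y + a i)) ∅ W = alt (fib K a y) ∅ W := fun y => by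
      have := hc (y + a i)
      rw [alt_insert _ _ hi, alt_fib a _ (I := insert i ∅) (by simpa using hi)] at this
      simpa using sub_eq_zero.1 this
    obtain ⟨I0, a1, a2⟩ := alt_supp a x hx
    have h2 : ∀ k : ℕ, alt (fib K a (x + k • a i)) ∅ W ≠ 0 ∧
        ∃ I ⊆ W, ∑ j ∈ I, a j = x + k • a i ∧ Q ∣ (I.card : ℤ) - (I0.card + k) := fun k => by
      induction k with
      | zero => exact ⟨by simpa using hx, I0, a1, by simpa using a2, by simp⟩
      | succ k ih =>
        obtain ⟨b0, I, b1, b2, b3⟩ := ih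
        rw [← h1, add_assoc, ← succ_nsmul] at b0
        obtain ⟨I', c1, c2⟩ := alt_supp a _ b0
        have hI : i ∉ I := fun k => hi (b1 k)
        have := h I' (c1.trans hs) (insert i I) (insert_subset_insert i b1)
          (by rw [sum_insert hI, b2, c2, succ_nsmul]; abel)
        rw [card_insert_of_notMem hI] at this
        refine ⟨b0, I', c1, c2, (dvd_add this b3).trans (dvd_of_eq ?_)⟩
        push_cast
        ring
    obtain ⟨-, I, b1, b2, b3⟩ := h2 d
    rw [hd i (mem_insert_self i W), add_zero, ← a2] at b2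
    exact hQ ((dvd_sub (h I (b1.trans hs) I0 (a1.trans hs) b2) b3).trans (dvd_of_eq (by ring)))

end

/-- The weighted doubling lemma. -/
theorem doubling {ι A : Type} [DecidableEq ι] [Fintype ι] [AddCommGroup A] [DecidableEq A] {p : ℕ}
    [hp : Fact p.Prime] (c : ℕ) (a : ι → A) (U : Finset ι) (wt : ι → ℕ) (hw : ∀ i, wt i ≤ p)
    (τ : ℕ) (hd : ∀ i, p ^ c • a i = 0)
    (hπ : ∀ I J : Finset ι, ∑ i ∈ I, a i = ∑ i ∈ J, a i → (p : ℤ) ^ c ∣ (I.card : ℤ) - J.card)
    (hN : ∀ T ⊆ U, τ < ∑ i ∈ T, wt i → ∀ x, alt (fib (ZMod p) a x) ∅ T = 0)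
    (s : ℤ) {I0 : Finset ι} (hI : I0 ⊆ U) (hs : (p : ℤ) ^ c ∣ I0.card - s)
    (hno : ∀ I ⊆ U, ∑ i ∈ I, a i = ∑ i ∈ I0, a i → ¬ (p : ℤ) ^ (c + 1) ∣ I.card - s) :
    ∑ i ∈ U, wt i ≤ 2 * τ + p * ((p - 2) * p ^ c) := by
  classical
  obtain ⟨b, hb⟩ : ∃ b, b = ∑ i ∈ I0, a i := ⟨_, rfl⟩
  obtain ⟨D, hD⟩ : ∃ D : Finset ι → ZMod p, D = bin (ZMod p) s (p ^ c) := ⟨_, rfl⟩
  obtain ⟨F, hF⟩ : ∃ F : ZMod p → Finset ι → ZMod p,
      F = fun v I => if ∑ i ∈ I, a i = b ∧ D I = v then 1 else 0 := ⟨_, rfl⟩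
  have d0 : ∀ I ⊆ U, ∑ i ∈ I, a i = b → D I ≠ 0 := fun I h1 h2 h3 => by
    have h4 : (p : ℤ) ^ c ∣ I.card - s :=
      (dvd_add (hπ I I0 (h2.trans hb)) hs).trans (dvd_of_eq (by ring))
    have h5 := Dv.top_iff (p := p) (r := 0) (pow_pos hp.out.pos c) h4
    rw [Nat.cast_zero, add_zero] at h5
    exact hno I h1 (h2.trans hb) (h5.1 (by rwa [hD] at h3))
  have f0 : ∀ T ⊆ U, alt (F 0) ∅ T = 0 := fun T hT => sum_eq_zero fun J hJ => by
    rw [hF, empty_union]
    exact mul_eq_zero_of_right _ (if_neg fun k => d0 J ((mem_powerset.1 hJ).trans hT) k.1 k.2)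
  have deg : ∀ v, ∀ T ⊆ U, τ + p * ((p - 2) * p ^ c) < ∑ i ∈ T, wt i → alt (F v) ∅ T = 0 := by
    intro v T hT h
    by_cases hv : v = 0
    · rw [hv, f0 T hT]
    obtain ⟨S, hS⟩ : ∃ S : Finset (ZMod p), S = (univ.erase 0).erase v := ⟨_, rfl⟩
    have cS : S.card = p - 2 := by
      rw [hS, card_erase_of_mem (by simp [hv]), card_erase_of_mem (mem_univ _), card_univ,
        ZMod.card]
      rfl
    have hL : ∀ S : Finset (ZMod p), ∏ u ∈ S, (D - fun _ => u) ∈
        Pol ι (ZMod p) (S.card * p ^ c : ℕ) := fun S => by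
      induction S using Finset.induction_on with
      | empty =>
        rw [prod_empty, card_empty, zero_mul]
        exact Pol.const (1 : ZMod p)
      | insert u S hu ih =>
        rw [prod_insert hu, card_insert_of_notMem hu]
        refine Pol.mono (le_of_eq ?_) (Pol.mul (sub_mem (hD ▸ bin_mem s (p ^ c))
          (Pol.mono (by positivity) (Pol.const u))) ih)
        push_cast
        ring
    have h1 := alt_pol (fib (ZMod p) a b) wt hw U
      (fun I T k1 k2 k3 => by rw [alt_fib a b k1, hN T k2 k3]) (hL S) hT (by rwa [cS])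
    have h2 : alt (fib (ZMod p) a b * ∏ u ∈ S, (D - fun _ => u)) ∅ T =
        (∏ u ∈ S, (v - u)) * alt (F v) ∅ T := by
      rw [alt, alt, mul_sum]
      refine sum_congr rfl fun J hJ => ?_
      rw [empty_union, mul_left_comm, hF]
      congr 1
      simp only [Pi.mul_apply, fib, Finset.prod_apply, Pi.sub_apply]
      by_cases k1 : ∑ i ∈ J, a i = b
      · by_cases k2 : D J = v
        · simp [k1, k2]
        · rw [if_neg fun k : _ ∧ _ => k2 k.2, mul_zero, prod_eq_zero (i := D J) _ (sub_self _),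
            mul_zero]
          simp [hS, k2, d0 J ((mem_powerset.1 hJ).trans hT) k1]
      · simp [k1]
    rw [h2] at h1
    refine (mul_eq_zero.1 h1).resolve_left (prod_ne_zero_iff.2 fun u hu => sub_ne_zero.2 ?_)
    rw [hS] at hu
    exact (ne_of_mem_erase hu).symm
  obtain ⟨T, hT, hm⟩ := exists_max_image (U.powerset.filter fun T => ∃ v, alt (F v) ∅ T ≠ 0) card
    (by
      by_contra h
      have h1 : ∀ T ⊆ U, alt (F (D I0)) ∅ T = 0 := fun T hT => by
        by_contra k
        exact h ⟨T, mem_filter.2 ⟨mem_powerset.2 hT, _, k⟩⟩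
      have h2 := alt_max (F (D I0)) U I0 ∅ (empty_subset _) (by simpa using hI) fun T _ k => h1 T k
      rw [h1 ∅ (empty_subset _)] at h2
      simp [alt, hF, hb] at h2)
  obtain ⟨hT, v0, hv⟩ := mem_filter.1 hT
  rw [mem_powerset] at hT
  have ind : ∀ v, ∀ I ⊆ U \ T, alt (F v) I T = alt (F v) ∅ T := fun v I h =>
    alt_max (F v) U I T hT h fun T' k1 k2 => by
      by_contra k
      exact (card_lt_card k1).not_ge (hm T' (mem_filter.2 ⟨mem_powerset.2 k2, v, k⟩))
  have w1 : ∑ i ∈ T, wt i ≤ τ + p * ((p - 2) * p ^ c) := not_lt.1 fun h => hv (deg v0 T hT h)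
  obtain ⟨x, hx⟩ := no_rel (K := ZMod p) a (p ^ c) ((p : ℤ) ^ (c + 1)) (fun h => by
      have h1 : (p : ℤ) ^ (c + 1) ≤ (p : ℤ) ^ c := by
        exact_mod_cast Int.le_of_dvd (by exact_mod_cast pow_pos hp.out.pos c) h
      have h2 : (1 : ℤ) < p := by exact_mod_cast hp.out.one_lt
      exact (pow_lt_pow_right₀ h2 c.lt_succ_self).not_ge h1) (U \ T) (fun i _ => hd i)
    fun I k1 J k2 k3 => by
      obtain ⟨j, hj⟩ := hπ I J k3
      rw [hj, pow_succ]
      refine mul_dvd_mul_left _ ((ZMod.intCast_zmod_eq_zero_iff_dvd j p).1 ?_)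
      by_contra k4
      have k5 : ∀ v, alt (F (v + j)) ∅ T = alt (F v) ∅ T := fun v => by
        rw [← ind _ I k1, ← ind _ J k2]
        refine sum_congr rfl fun L hL => ?_
        have e1 : Disjoint I L := (disjoint_sdiff.symm.mono_left k1).mono_right (mem_powerset.1 hL)
        have e2 : Disjoint J L := (disjoint_sdiff.symm.mono_left k2).mono_right (mem_powerset.1 hL)
        have e3 : D (I ∪ L) = D (J ∪ L) + j := by
          rw [hD, bin, bin, ← ch_top, card_union_of_disjoint e1, card_union_of_disjoint e2]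
          congr 2
          push_cast
          linarith
        simp only [hF, sum_union e1, sum_union e2, k3, e3, add_left_inj]
      have k6 : ∀ k : ℕ, alt (F (k * j)) ∅ T = 0 := fun k => by
        induction k with
        | zero => simpa using f0 T hT
        | succ k ih => rw [Nat.cast_succ, add_mul, one_mul, k5, ih]
      have := k6 (v0 / j).val
      rw [ZMod.natCast_zmod_val, div_mul_cancel₀ _ k4] at this
      exact hv this
  have w2 : ∑ i ∈ U \ T, wt i ≤ τ := not_lt.1 fun h => hx (hN _ sdiff_subset h x)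
  have := sum_sdiff (f := wt) hT
  omega

end Pool.Agent.Lib.MP_3184af_co.TateG
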