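import Pool.Agent.Lib.MP_3184af_co.Tate.Pol
import Pool.Agent.Lib.MP_3184af_co.TateG.CarG

/-!
The complexes with several levels.
-/

set_option autoImplicit false

namespace Pool.Agent.Lib.MP_3184af_co.TateG

open Finset MvPolynomial Tate

section Gam
variable {ι K : Type} [DecidableEq ι] [CommRing K]

/-- The divided power of order `m` of the linear form `∑ i ∈ U, a i * X i`. -/
noncomputable def gam (m : ℕ) (a : ι → K) (U : Finset ι) : MvPolynomial ι K :=
  ∑ T ∈ powersetCard m U, ∏ i ∈ T, C (a i) * X i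

variable (K) in
/-- Homogeneous polynomials of degree `n` in the variables `U`. -/
noncomputable def Hg (U : Finset ι) (n : ℕ) : Submodule K (MvPolynomial ι K) :=
  Submodule.span K (X '' (U : Set ι)) ^ n

variable (ι K) in
/-- The polynomials that act as zero. -/
noncomputable abbrev An : Ideal (MvPolynomial ι K) :=
  Module.annihilator (MvPolynomial ι K) (Sq ι K)

variable (K) in
/-- Families supported on the pairs with a given property. -/
def Gp {σ : Type} (P : Finset σ → Finset ι → Prop) : AddSubgroup (Finset σ → Sq ι K) where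
  carrier := {v | ∀ B, v B ∈ Sp K (P B)}
  add_mem' h h' B := add_mem (h B) (h' B)
  zero_mem' _ := zero_mem _
  neg_mem' h B := neg_mem (h B)

/-- The part on which `r` takes the value `k`. -/
def prj {σ : Type} (r : Finset σ → Finset ι → ℤ) (k : ℤ) (v : Finset σ → Sq ι K) :
    Finset σ → Sq ι K :=
  fun B A => if r B A = k then v B A else 0

end Gam

section Cx
variable {ι σ F : Type} [DecidableEq ι] [LinearOrder σ] [Fintype σ] [Field F]

/-- The weight of an index. -/
def om (p : ℕ) (lv : σ → ℕ) (n : ℕ) (j : σ) : ℤ :=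
  if lv j < n then (p : ℤ) ^ n - 2 * (p : ℤ) ^ lv j else 0

/-- The part of level `k` of the vectors. -/
def gl (lv : σ → ℕ) (g : ι → σ → F) (k : ℕ) (i : ι) (j : σ) : F := if lv j = k then g i j else 0

/-- The number of indices of level below `n`. -/
def dg (lv : σ → ℕ) (n : ℕ) (B : Finset σ) : ℤ := (B.filter fun j => lv j < n).card

/-- Every column occurs again on the lower levels, and every level has a zero column. -/
structure Adm (lv : σ → ℕ) (n : ℕ) (g : ι → σ → F) : Prop where
  dn : ∀ j, lv j < n → ∀ k < lv j, ∃ j', lv j' = k ∧ ∀ i, g i j' = g i j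
  st : ∀ k < n, ∃ j, lv j = k ∧ ∀ i, g i j = 0

/-- The weighted sum of the ranks of the levels. -/
noncomputable def tauG (p : ℕ) (lv : σ → ℕ) (n : ℕ) (g : ι → σ → F) (Z : Finset ι) : ℤ :=
  ∑ k ∈ range n, ((p : ℤ) - 1) * (p : ℤ) ^ k * rk (gl lv g k) Z

variable (K : Type) [CommRing K] [Algebra F K] (p : ℕ) (lv : σ → ℕ) (n : ℕ)

/-- The coefficients of the Koszul operator. -/
noncomputable def yG (g : ι → σ → F) (U : Finset ι) (j : σ) : MvPolynomial ι K :=
  if lv j < n then gam (p ^ lv j) (fun i => algebraMap F K (g i j)) U else 0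

/-- The Koszul operator. -/
noncomputable def dKosG (g : ι → σ → F) (U : Finset ι) :
    Module.End (MvPolynomial ι K) (Finset σ → Sq ι K) :=
  dK (Sq ι K) (yG K p lv n g U)

/-- The pieces of given weight. -/
def YwG (U : Finset ι) : ℤ → AddSubgroup (Finset σ → Sq ι K) := WtG (om p lv n) (Hm K U)

/-- The pairs of given weight and degree. -/
def Pc (U : Finset ι) (w a : ℤ) (B : Finset σ) (A : Finset ι) : Prop :=
  (A ⊆ U ∧ 2 * (A.card : ℤ) = w - ∑ j ∈ B, om p lv n j) ∧ dg lv n B = a

/-- Exactness of the Koszul operator at weight `w` and degree `a`. -/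
def CC (g : ι → σ → F) (U : Finset ι) (w a : ℤ) : Prop :=
  ∀ v ∈ Gp K (Pc p lv n U w a), dKosG K p lv n g U v = 0 →
    ∃ z ∈ Gp K (Pc p lv n U (w - (p : ℤ) ^ n) (a - 1)), dKosG K p lv n g U z = v

variable {K}

/-- The second part of the full operator. -/
noncomputable def dTG (g : ι → σ → F) (U : Finset ι) (c : σ → K) :
    Module.End (MvPolynomial ι K) (Finset σ → Sq ι K) :=
  dI (Sq ι K) fun j => if lv j + 1 = n then C (c j) ^ p ^ n * yG K p lv n g U j ^ (p - 1) else 0

/-- The full operator with parameters `c`. -/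
noncomputable def dSG (g : ι → σ → F) (U : Finset ι) (c : σ → K) :
    Module.End (MvPolynomial ι K) (Finset σ → Sq ι K) :=
  dKosG K p lv n g U + dTG p lv n g U c

end Cx

section Fn
variable {ι σ : Type} [DecidableEq ι] [LinearOrder σ] [Fintype σ] (K : Type) [CommRing K]

/-- The digit functions attached to the integer vectors `a i` and the target `b`. -/
noncomputable def afG (p : ℕ) (lv : σ → ℕ) (n : ℕ) (a : ι → σ → ℤ) (b : σ → ℤ) (j : σ)
    (I : Finset ι) : K :=
  if lv j < n then ((Ring.choose (∑ i ∈ I, a i j - b j) (p ^ lv j) : ℤ) : K) else 0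

variable {K}

/-- The full operator on functions. -/
noncomputable def dFG (p : ℕ) (lv : σ → ℕ) (n : ℕ) (a : ι → σ → ℤ) (b : σ → ℤ) (c : σ → K) :
    Module.End (Finset ι → K) (Finset σ → Finset ι → K) :=
  dK (Finset ι → K) (afG K p lv n a b) + dI (Finset ι → K) fun j =>
    if lv j + 1 = n then (fun _ => c j ^ p ^ n) * (afG K p lv n a b j ^ (p - 1) - 1) else 0

/-- Exactness of a filtered complex on the family of sets `X`. -/
def EFa (d : Module.End (Finset ι → K) (Finset σ → Finset ι → K)) (ω : σ → ℤ) (P : ℤ)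
    (X : Set (Finset ι)) (w : ℤ) : Prop :=
  ExM d (WtG ω (Pw ι K)) (Al σ (Van K X)) P w

end Fn

section Ix

/-- The indices attached to the cyclic factors and to a zero column. -/
abbrev Ix (ρ : Type) (n : ℕ) : Type := Option ρ × Fin n

/-- The level of an index. -/
def lvI {ρ : Type} {n : ℕ} (j : Ix ρ n) : ℕ := j.2

/-- The row attached to an integer vector. -/
def rowI {ρ : Type} (n : ℕ) (e : ρ → ℕ) (a : ρ → ℤ) : Ix ρ n → ℤ
  | (none, _) => 0
  | (some l, k) => if (k : ℕ) < e l then a l else 0

end Ix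

end Pool.Agent.Lib.MP_3184af_co.TateG
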