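import Pool.Agent.Lib.MP_3184af_co.Tate.Filt
import Pool.Agent.Lib.MP_3184af_co.TateG.BaseG
import Pool.Agent.Lib.MP_3184af_co.Tate.Rec
import Pool.Agent.Lib.MP_3184af_co.TateG.DefsG

-- part Pool.Agent.Lib.MP_3184af_co.TateG.FiltG
section

set_option autoImplicit false
set_option linter.unusedSectionVars false

namespace Pool.Agent.Lib.MP_3184af_co.TateG

open Finset Tate

variable {ι σ : Type} [DecidableEq ι] [Fintype ι] [LinearOrder σ] [Fintype σ]
  {p : ℕ} [hp : Fact p.Prime] {lv : σ → ℕ} {n : ℕ}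

namespace FiltG

section Ch
variable (K : Type) [CommRing K]

/-- The binomial coefficient of a sum over the part of a set inside `V`. -/
noncomputable def fV (a : ι → ℤ) (b : ℤ) (V : Finset ι) (m : ℕ) (I : Finset ι) : K :=
  ((Ring.choose (∑ i ∈ V, (if i ∈ I then a i else 0) - b) m : ℤ) : K)

/-- The binomial coefficient of one term. -/
noncomputable def gV (a : ι → ℤ) (i : ι) (m : ℕ) (I : Finset ι) : K :=
  ((Ring.choose (if i ∈ I then a i else 0) m : ℤ) : K)

variable {K} (a : ι → ℤ) (b : ℤ)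

omit [Fintype ι] in
theorem fV_insert {V : Finset ι} {i : ι} (hi : i ∉ V) (m : ℕ) :
    fV K a b (insert i V) m = ∑ r ∈ range (m + 1), gV K a i r * fV K a b V (m - r) := by
  funext I
  rw [fV, sum_insert hi, add_sub_assoc, Ring.add_choose_eq _ (Commute.all _ _),
    Nat.sum_antidiagonal_eq_sum_range_succ_mk, Finset.sum_apply]
  push_cast
  rfl

omit [Fintype ι] in
theorem fV_empty (m : ℕ) : fV K a b ∅ m = fun _ => ((Ring.choose (-b) m : ℤ) : K) := by
  funext I
  simp [fV]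

omit [Fintype ι] in
theorem gV_zero (i : ι) : gV K a i 0 = fun _ => 1 := by
  funext I
  simp [gV]

omit [Fintype ι] in
theorem gV_succ (i : ι) (r : ℕ) :
    gV K a i (r + 1) = (fun _ => ((Ring.choose (a i) (r + 1) : ℤ) : K)) * mon K {i} := by
  funext I
  by_cases h : i ∈ I <;> simp [gV, mon, h]

omit [Fintype ι] in
theorem gV_one (i : ι) (r : ℕ) : gV K a i (r + 1) ∈ Pol ι K 1 := by
  rw [gV_succ]
  exact Pol.mono (by omega) (Pol.mul (Pol.const _) (mon_mem (n := 1) (by simp)))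

omit [Fintype ι] in
theorem gV_mem (i : ι) (r : ℕ) : gV K a i r ∈ Pol ι K r := by
  cases r with
  | zero => rw [gV_zero]; exact Pol.const _
  | succ r => exact Pol.mono (by omega) (gV_one a i r)

omit [Fintype ι] in
theorem fV_mem (V : Finset ι) : ∀ m : ℕ, fV K a b V m ∈ Pol ι K m := by
  induction V using Finset.induction_on with
  | empty => exact fun m => by rw [fV_empty]; exact Pol.mono (by omega) (Pol.const _)
  | insert i V hi ih =>
    intro m
    rw [fV_insert a b hi]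
    refine sum_mem fun r hr => Pol.mono ?_ (Pol.mul (gV_mem a i r) (ih (m - r)))
    have := mem_range.1 hr
    omega

theorem top_gV {U : Finset ι} {i : ι} (hi : i ∈ U) (r : ℕ) :
    Filt.Top U (gV K a i r) (gam r (fun i => (a i : K)) {i}) (2 * r) := by
  rcases r with _ | r
  · rw [gV_zero, gam_zero, ← MvPolynomial.C_1]
    exact (Filt.Top.const 1).cast (by simp)
  rw [← insert_empty_eq, gam_insert _ _ (notMem_empty i), gam_empty, zero_add]
  rcases r with _ | r
  · rw [gV_succ, gam_zero, mul_one, zero_add, Ring.choose_one_right]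
    exact ((Filt.Top.const _).mul (Filt.Top.var hi)).cast (by simp)
  · rw [gam_empty, mul_zero]
    exact Filt.Top.low (gV_one a i _) (by omega)

theorem top_fV {U : Finset ι} (V : Finset ι) (hV : V ⊆ U) :
    ∀ m : ℕ, Filt.Top U (fV K a b V m) (gam m (fun i => (a i : K)) V) (2 * m) := by
  induction V using Finset.induction_on with
  | empty =>
    intro m
    rw [fV_empty]
    rcases m with _ | m
    · rw [gam_zero, ← MvPolynomial.C_1, Ring.choose_zero_right, Int.cast_one]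
      exact (Filt.Top.const 1).cast (by simp)
    · rw [gam_empty]
      exact Filt.Top.low (Pol.const _) (by omega)
  | insert i V hi ih =>
    intro m
    rw [fV_insert a b hi, insert_eq, gam_union _ _ (disjoint_singleton_left.2 hi)]
    refine Filt.Top.sum _ fun r hr => ((top_gV a (hV (mem_insert_self _ _)) r).mul
      (ih ((subset_insert _ _).trans hV) (m - r))).cast ?_
    have := mem_range.1 hr
    omega

omit [Fintype ι] in
theorem fV_eq {V I : Finset ι} (h : I ⊆ V) (m : ℕ) :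
    fV K a b V m I = ((Ring.choose (∑ i ∈ I, a i - b) m : ℤ) : K) := by
  rw [fV, sum_ite_mem, inter_eq_right.2 h]

end Ch

end FiltG

open FiltG Filt

theorem choose_mem {K : Type} [CommRing K] (a : ι → ℤ) (b : ℤ) (m : ℕ) :
    (fun I : Finset ι => ((Ring.choose (∑ i ∈ I, a i - b) m : ℤ) : K)) ∈ Pol ι K m := by
  have := fV_mem (K := K) a b univ m
  rwa [show fV K a b univ m = _ from funext fun I => fV_eq a b (subset_univ I) m] at this

theorem top_choose {K : Type} [CommRing K] (U : Finset ι) (a : ι → ℤ) (b : ℤ) (m : ℕ) :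
    Filt.Top U (fun I : Finset ι => ((Ring.choose (∑ i ∈ I, a i - b) m : ℤ) : K))
      (gam m (fun i => (a i : K)) U) (2 * m) := by
  have h := (Top.van (U := U) (f := (fun I : Finset ι =>
    ((Ring.choose (∑ i ∈ I, a i - b) m : ℤ) : K)) - fV K a b U m)
    (fun I hI => by rw [Pi.sub_apply, fV_eq a b hI, sub_self]) (2 * m)).add
    (top_fV a b U subset_rfl m)
  rwa [sub_add_cancel, zero_add] at h

omit [LinearOrder σ] [Fintype σ] hp in
theorem afG_mem {K : Type} [CommRing K] (a : ι → σ → ℤ) (b : σ → ℤ) (j : σ) :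
    afG K p lv n a b j ∈ Pol ι K ((p : ℤ) ^ lv j) := by
  unfold afG
  split_ifs
  · exact Pol.mono (by simp) (choose_mem (fun i => a i j) (b j) (p ^ lv j))
  · exact zero_mem _

omit [DecidableEq ι] [Fintype ι] in
theorem dFG_sq {K : Type} [CommRing K] [Algebra (ZMod p) K] (a : ι → σ → ℤ) (b : σ → ℤ)
    (c : σ → K) (v : Finset σ → Finset ι → K) : dFG p lv n a b c (dFG p lv n a b c v) = 0 := by
  rw [← Module.End.mul_apply, dFG, d_sq, sum_eq_zero, zero_smul, LinearMap.zero_apply]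
  intro l _
  have h : afG K p lv n a b l ^ (p - 1) * afG K p lv n a b l = afG K p lv n a b l := by
    rw [← pow_succ, Nat.sub_add_cancel hp.out.one_le]
    funext I
    rw [Pi.pow_apply, afG]
    split_ifs
    · rw [← map_intCast (algebraMap (ZMod p) K), ← map_pow, ZMod.pow_card]
    · exact zero_pow hp.out.ne_zero
  split_ifs
  · rw [mul_assoc, sub_mul, h, one_mul, sub_self, mul_zero]
  · exact zero_mul _

namespace FiltG

omit [DecidableEq ι] [Fintype ι] [LinearOrder σ] [Fintype σ] hp in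
theorem afG_hi {K : Type} [CommRing K] (a : ι → σ → ℤ) (b : σ → ℤ) {j : σ} (h : ¬ lv j < n) :
    afG K p lv n a b j = 0 := funext fun _ => if_neg h

omit [LinearOrder σ] [Fintype σ] hp in
theorem om_lo {j : σ} (h : lv j < n) : (p : ℤ) ^ n - om p lv n j = 2 * (p : ℤ) ^ lv j := by
  rw [om, if_pos h]
  ring

omit [LinearOrder σ] [Fintype σ] in
theorem om_top {j : σ} (h : lv j + 1 = n) :
    (p : ℤ) ^ n + om p lv n j = 2 * (((p - 1 : ℕ) : ℤ) * (p : ℤ) ^ lv j) := by
  rw [om, if_pos (by omega), ← h, Nat.cast_sub hp.out.one_le]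
  push_cast
  ring

theorem dFG_mem' {K : Type} [CommRing K] (a : ι → σ → ℤ) (b : σ → ℤ) (c : σ → K)
    {𝒲 : ℤ → AddSubgroup (Finset ι → K)} (h : ∀ m f, f ∈ Pol ι K m → Sh 𝒲 f (2 * m)) {w : ℤ}
    {v : Finset σ → Finset ι → K} (hv : v ∈ WtG (om p lv n) 𝒲 w) :
    dFG p lv n a b c v ∈ WtG (om p lv n) 𝒲 (w + (p : ℤ) ^ n) := by
  refine add_mem (dK_memG (fun l => ?_) hv) (dI_memG (fun l => ?_) hv)
  · by_cases hl : lv l < n
    · rw [om_lo hl]
      exact h _ _ (afG_mem a b l)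
    · rw [afG_hi a b hl]
      exact Sh.zero _
  · split_ifs with hl
    · rw [om_top hl]
      exact (h _ _ (Pol.mul (Pol.const (c l ^ p ^ n)) (sub_mem (Pol.pow (afG_mem a b l) (p - 1))
        (Pol.mono (by positivity) (Pol.const (ι := ι) (1 : K)))))).cast (by rw [zero_add])
    · exact Sh.zero _

end FiltG

theorem dFG_mem {K : Type} [CommRing K] (a : ι → σ → ℤ) (b : σ → ℤ) (c : σ → K) {w : ℤ}
    {v : Finset σ → Finset ι → K} (hv : v ∈ WtG (om p lv n) (Pw ι K) w) :
    dFG p lv n a b c v ∈ WtG (om p lv n) (Pw ι K) (w + (p : ℤ) ^ n) :=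
  dFG_mem' a b c (fun _ _ => Pol.sh) hv

omit [DecidableEq ι] [Fintype ι] hp in
theorem dFG_al {K : Type} [CommRing K] (a : ι → σ → ℤ) (b : σ → ℤ) (c : σ → K)
    {𝒩 : Submodule (Finset ι → K) (Finset ι → K)} {v : Finset σ → Finset ι → K}
    (hv : v ∈ Al σ 𝒩) : dFG p lv n a b c v ∈ Al σ 𝒩 :=
  add_mem (dK_al _ hv) (dI_al _ hv)

/-- What exactness says in the first degree. -/
theorem h_oneG (a : ι → σ → ℤ) (b : σ → ℤ) (X : Set (Finset ι)) (D : ℤ)
    (h : EFa (dFG p lv n a b (MvPolynomial.X : σ → MvPolynomial σ (ZMod p))) (om p lv n)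
      ((p : ℤ) ^ n) X (2 * D + (p : ℤ) ^ n)) (u : Finset ι → ZMod p)
    (hu : ∀ j, ∃ E ∈ Pol ι (ZMod p) (D + (p : ℤ) ^ lv j),
      ∀ I ∈ X, afG (ZMod p) p lv n a b j I * u I = E I) :
    ∃ u' ∈ Pol ι (ZMod p) D, ∀ j, ∀ I ∈ X, afG (ZMod p) p lv n a b j I * (u I - u' I) = 0 := by
  have hu' : ∀ j, ∃ E ∈ Pw ι (ZMod p) (2 * D + (p : ℤ) ^ n - om p lv n j),
      ∀ I ∈ X, afG (ZMod p) p lv n a b j I * u I = E I := fun j => by
    by_cases hj : lv j < n
    · obtain ⟨E, h1, h2⟩ := hu j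
      refine ⟨E, Pol.mono ?_ h1, h2⟩
      rw [add_sub_assoc, om_lo hj]
      omega
    · exact ⟨0, zero_mem _, fun I _ => by rw [afG_hi a b hj]; exact zero_mul _⟩
  choose E hE1 hE2 using hu'
  have haf : ∀ l I, afG (MvPolynomial σ (ZMod p)) p lv n a b l I =
      MvPolynomial.C (afG (ZMod p) p lv n a b l I) := fun l I => by
    rw [afG, afG, apply_ite MvPolynomial.C, map_intCast, map_zero]
  let v : Finset σ → Finset ι → MvPolynomial σ (ZMod p) :=
    ∑ l, Pi.single {l} fun I => MvPolynomial.C (E l I)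
  have hv : v ∈ WtG (om p lv n) (Pw ι _) (2 * D + (p : ℤ) ^ n) := sum_mem fun l _ B => by
    by_cases hB : B = {l}
    · subst hB
      rw [Pi.single_eq_same, sum_singleton]
      exact Pol.map MvPolynomial.C (hE1 l)
    · rw [Pi.single_eq_of_ne hB]
      exact zero_mem _
  have h1 : v - dFG p lv n a b MvPolynomial.X (Pi.single ∅ fun I => MvPolynomial.C (u I)) ∈
      Al σ (Van (MvPolynomial σ (ZMod p)) X) := by
    simp only [dFG, dK, dI, LinearMap.add_apply, LinearMap.sum_apply, LinearMap.smul_apply,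
      ze_single, io_single, smul_zero, sum_const_zero, add_zero]
    rw [← sum_sub_distrib]
    refine sum_mem fun l _ B I hI => ?_
    by_cases hB : B = {l}
    · subst hB
      simp [haf, ← hE2 l I hI]
    · simp [Pi.single_eq_of_ne hB]
  have h2 := dFG_al (p := p) (lv := lv) (n := n) a b MvPolynomial.X h1
  rw [map_sub, dFG_sq, sub_zero] at h2
  obtain ⟨z, hz, h3⟩ := h v hv h2
  refine ⟨fun I => MvPolynomial.constantCoeff (z ∅ I),
    Pol.mono (by simp) (Pol.map MvPolynomial.constantCoeff (hz ∅)), fun l I hI => ?_⟩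
  have h4 := congrArg MvPolynomial.constantCoeff (h3 {l} I hI)
  have h5 : v {l} I = MvPolynomial.C (E l I) := by
    simp only [v, Finset.sum_apply]
    rw [sum_eq_single l (fun m _ hm => by
      rw [Pi.single_eq_of_ne (by simpa using hm.symm)]; rfl) (by simp), Pi.single_eq_same]
  have h6 : dK _ (afG (MvPolynomial σ (ZMod p)) p lv n a b) z {l} I =
      MvPolynomial.C (afG (ZMod p) p lv n a b l I) * z ∅ I := by
    rw [dK_apply, sum_eq_single l (fun m _ hm => if_neg (by simpa using hm)) (by simp)]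
    simp [sgn_single, haf]
  have h7 : MvPolynomial.constantCoeff (dI _ (fun j => if lv j + 1 = n then
      (fun _ => MvPolynomial.X j ^ p ^ n) *
      (afG (MvPolynomial σ (ZMod p)) p lv n a b j ^ (p - 1) - 1) else 0) z {l} I) = 0 := by
    rw [dI_apply, Finset.sum_apply, map_sum]
    refine sum_eq_zero fun m _ => ?_
    split_ifs <;> simp [hp.out.ne_zero]
  rw [Pi.sub_apply, Pi.sub_apply, dFG, LinearMap.add_apply, Pi.add_apply, Pi.add_apply, h5, h6,
    map_sub, map_add, h7, map_mul, MvPolynomial.constantCoeff_C, MvPolynomial.constantCoeff_C,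
    map_zero, ← hE2 l I hI] at h4
  linear_combination -h4

namespace FiltG

variable {K : Type} [CommRing K] {U : Finset ι}

theorem top_dKG {ω : σ → ℤ} {P w : ℤ} {a : σ → Finset ι → K} {a' : σ → MvPolynomial ι K}
    (h : ∀ l, Top U (a l) (a' l) (P - ω l)) {y : Finset σ → Sq ι K}
    (hy : y ∈ WtG ω (Hm K U) w) :
    dK _ a (PhiW y) - PhiW (dK _ a' y) ∈ WtG ω (Qw K U) (w + P - 1) := fun B => by
  rw [Pi.sub_apply, PhiW, dK_apply, dK_apply, map_sum, ← sum_sub_distrib]
  refine sum_mem fun l _ => ?_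
  split_ifs with hl
  · have := ((h l).mul (Top.sgn l B)).top _ _ (hy (B.erase l))
    rwa [show w - ∑ m ∈ B.erase l, ω m + (P - ω l + 0) - 1 = w + P - 1 - ∑ m ∈ B, ω m by
      rw [← add_sum_erase B ω hl]; ring] at this
  · simp

theorem top_dIG {ω : σ → ℤ} {P w : ℤ} {a : σ → Finset ι → K} {a' : σ → MvPolynomial ι K}
    (h : ∀ l, Top U (a l) (a' l) (P + ω l)) {y : Finset σ → Sq ι K}
    (hy : y ∈ WtG ω (Hm K U) w) :
    dI _ a (PhiW y) - PhiW (dI _ a' y) ∈ WtG ω (Qw K U) (w + P - 1) := fun B => by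
  rw [Pi.sub_apply, PhiW, dI_apply, dI_apply, map_sum, ← sum_sub_distrib]
  refine sum_mem fun l _ => ?_
  split_ifs with hl
  · simp
  · have := ((h l).mul (Top.sgn l B)).top _ _ (hy (insert l B))
    rw [sum_insert hl] at this
    rwa [show w - (ω l + ∑ m ∈ B, ω m) + (P + ω l + 0) - 1 = w + P - 1 - ∑ m ∈ B, ω m by
      ring] at this

variable [Algebra (ZMod p) K]

omit [LinearOrder σ] [Fintype σ] in
theorem top_afG (a : ι → σ → ℤ) (b : σ → ℤ) {j : σ} (h : lv j < n) :
    Top U (afG K p lv n a b j) (yG K p lv n (fun i j => (a i j : ZMod p)) U j)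
      (2 * (p : ℤ) ^ lv j) := by
  have := top_choose (K := K) U (fun i => a i j) (b j) (p ^ lv j)
  rw [yG, if_pos h, show afG K p lv n a b j = _ from funext fun _ => if_pos h]
  simp only [map_intCast]
  exact this.cast (by simp)

theorem top_dFG (a : ι → σ → ℤ) (b : σ → ℤ) (c : σ → K) {w : ℤ}
    {y : Finset σ → Sq ι K} (hy : y ∈ YwG K p lv n U w) :
    dFG p lv n a b c (PhiW y) - PhiW (dSG p lv n (fun i j => (a i j : ZMod p)) U c y) ∈
      WtG (om p lv n) (Qw K U) (w + (p : ℤ) ^ n - 1) := by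
  have h2 := hp.out.two_le
  have a1 := top_dKG (P := (p : ℤ) ^ n) (a := afG K p lv n a b)
    (a' := yG K p lv n (fun i j => (a i j : ZMod p)) U) (fun l => by
      by_cases hl : lv l < n
      · rw [om_lo hl]
        exact top_afG a b hl
      · rw [afG_hi a b hl, yG, if_neg hl]
        exact Top.van (zero_mem _) _) hy
  have a2 := top_dIG (P := (p : ℤ) ^ n) (a := fun j => if lv j + 1 = n then
      (fun _ => c j ^ p ^ n) * (afG K p lv n a b j ^ (p - 1) - 1) else 0)
    (a' := fun j => if lv j + 1 = n then MvPolynomial.C (c j) ^ p ^ n *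
      yG K p lv n (fun i j => (a i j : ZMod p)) U j ^ (p - 1) else 0) (fun l => by
      split_ifs with hl
      · have h3 : (0 : ℤ) < ((p - 1 : ℕ) : ℤ) * (p : ℤ) ^ lv l :=
          mul_pos (by omega) (pow_pos (by omega) _)
        have := (Top.const (U := U) (c l ^ p ^ n)).mul
          ((((top_afG (p := p) a b (show lv l < n by omega)).pow (p - 1)).cast
            (k' := 2 * (((p - 1 : ℕ) : ℤ) * (p : ℤ) ^ lv l)) (by ring)).add
            (Top.low (Pol.const (-1)) h3))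
        rw [add_zero, zero_add, map_pow] at this
        rw [sub_eq_add_neg, om_top hl]
        exact this
      · exact Top.van (zero_mem _) _) hy
  have := add_mem a1 a2
  convert this using 1
  funext B
  simp only [dFG, dSG, dKosG, dTG, PhiW, LinearMap.add_apply, Pi.add_apply, Pi.sub_apply, map_add]
  abel

omit [Fintype ι] [LinearOrder σ] [Fintype σ] [Algebra (ZMod p) K] in
theorem efa_neg (d : Module.End (Finset ι → K) (Finset σ → Finset ι → K)) (P : ℤ)
    (X : Set (Finset ι)) {w : ℤ} (hw : w < 0) : EFa d (om p lv n) P X w := by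
  intro v hv _
  have : v = 0 := funext fun B => Pol.neg (by
    have : 0 ≤ ∑ l ∈ B, om p lv n l := sum_nonneg fun l _ => om_nonneg hp.out.two_le l
    omega) (hv B)
  exact ⟨0, zero_mem _, by simp [this]⟩

end FiltG

/-- From the graded complex to the filtered complex. -/
theorem transferG (a : ι → σ → ℤ) (b : σ → ℤ) (U : Finset ι) (w : ℤ)
    (h : ∀ w' ≤ w, Ex (dSG p lv n (fun i j => (a i j : ZMod p)) U
      (MvPolynomial.X : σ → MvPolynomial σ (ZMod p)))
      (YwG (MvPolynomial σ (ZMod p)) p lv n U) ((p : ℤ) ^ n) w') :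
    EFa (dFG p lv n a b (MvPolynomial.X : σ → MvPolynomial σ (ZMod p))) (om p lv n)
      ((p : ℤ) ^ n) {I | I ⊆ U} w := by
  induction hn : (w + 1).toNat generalizing w with
  | zero => exact efa_neg _ _ _ (by omega)
  | succ m ih =>
    intro v hv hd
    choose y hy1 hy2 using fun B => Phi_surj U (hv B)
    have hy : y ∈ YwG _ p lv n U w := hy1
    have a1 : v - PhiW y ∈ WtG (om p lv n) (Qw _ U) (w - 1) := fun B => by
      rw [sub_right_comm]
      exact hy2 B
    have a2 := dFG_mem' a b MvPolynomial.X Qw_sh a1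
    rw [map_sub, show w - 1 + (p : ℤ) ^ n = w + (p : ℤ) ^ n - 1 by ring] at a2
    have a3 := add_mem a2 (top_dFG a b MvPolynomial.X hy)
    rw [sub_add_sub_cancel] at a3
    have a4 : dSG p lv n (fun i j => (a i j : ZMod p)) U MvPolynomial.X y = 0 := funext fun B =>
      Phi_inj (dSG_mem hp.out.one_le _ U _ hy B) (by
        have := sub_mem (Qw_van _ (hd B)) (a3 B)
        rw [Pi.sub_apply, sub_sub_cancel, sub_right_comm] at this
        exact this)
    obtain ⟨z, hz, rfl⟩ := h w le_rfl y hy a4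
    have a5 := top_dFG a b MvPolynomial.X hz
    rw [sub_add_cancel] at a5
    have a6 := sub_mem a1 a5
    rw [sub_sub_sub_cancel_right] at a6
    choose e he1 he2 using a6
    have a7 : v - dFG p lv n a b MvPolynomial.X (PhiW z) - e ∈ Al σ (Van _ {I | I ⊆ U}) := he2
    have a8 := sub_mem hd (dFG_al (p := p) (lv := lv) (n := n) a b MvPolynomial.X a7)
    rw [map_sub, map_sub, dFG_sq, sub_zero, sub_sub_cancel] at a8
    obtain ⟨z', hz', a9⟩ := ih (w - 1) (fun w' hw' => h w' (by omega)) (by omega) e he1 a8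
    refine ⟨z' + PhiW z, add_mem (fun B => Pw_mono (by omega) (hz' B)) fun B => Phi_mem (hz B), ?_⟩
    convert sub_mem a9 a7 using 1
    rw [map_add]
    abel

end Pool.Agent.Lib.MP_3184af_co.TateG
end

-- part Pool.Agent.Lib.MP_3184af_co.TateG.RecG
section

set_option autoImplicit false

namespace Pool.Agent.Lib.MP_3184af_co.TateG

open Finset Tate

variable {ι σ : Type} [DecidableEq ι] [Fintype ι] {p : ℕ} [hp : Fact p.Prime]

namespace RecG

/-- Division of a family, component by component. -/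
theorem div {K : Type} [CommRing K] [Algebra (ZMod p) K] {ω : σ → ℤ} (hω : ∀ l, 0 ≤ ω l)
    (U : Finset ι) (s w : ℤ) (𝒜 : Set ℕ) (Q : ℕ) (h1 : w ≤ 2 * s) (h2 : w + 2 * s ≤ 2 * U.card)
    {v : Finset σ → Finset ι → K} (hv : v ∈ WtG ω (Pw ι K) w)
    (h0 : v ∈ Al σ (Van K (Lev (ZMod p) U s (insert Q 𝒜)))) :
    ∃ r ∈ WtG ω (Pw ι K) (w - 2 * Q),
      v - (bin K s Q : Finset ι → K) • r ∈ Al σ (Van K (Lev (ZMod p) U s 𝒜)) := by
  have key : ∀ B : Finset σ, ∃ f' ∈ Pol ι K ((w - ∑ l ∈ B, ω l) / 2 - Q),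
      ∀ I ∈ Lev (ZMod p) U s 𝒜, v B I = bin K s Q I * f' I := fun B => by
    have : 0 ≤ ∑ l ∈ B, ω l := sum_nonneg fun l _ => hω l
    exact gdiv (ZMod p) U s _ 𝒜 Q (hv B) (by omega) (by omega) (h0 B)
  choose r hr hr' using key
  refine ⟨r, fun B => Pol.mono (by omega) (hr B), fun B I hI => ?_⟩
  change v B I - bin K s Q I * r B I = 0
  rw [hr' B I hI, sub_self]

/-- The properties of the operator that are used. -/
structure Ok (d : Module.End (Finset ι → MvPolynomial σ (ZMod p))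
    (Finset σ → Finset ι → MvPolynomial σ (ZMod p))) (ω : σ → ℤ) (P : ℤ) : Prop where
  sq : ∀ v, d (d v) = 0
  mem : ∀ w, ∀ v ∈ WtG ω (Pw ι (MvPolynomial σ (ZMod p))) w,
    d v ∈ WtG ω (Pw ι (MvPolynomial σ (ZMod p))) (w + P)
  al : ∀ X, ∀ v ∈ Al σ (Van (MvPolynomial σ (ZMod p)) X),
    d v ∈ Al σ (Van (MvPolynomial σ (ZMod p)) X)
  om : ∀ l, 0 ≤ ω l

variable {d : Module.End (Finset ι → MvPolynomial σ (ZMod p))
  (Finset σ → Finset ι → MvPolynomial σ (ZMod p))} {ω : σ → ℤ} {P : ℤ}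

omit [Fintype ι] in
theorem neg (hω : ∀ l, 0 ≤ ω l) (X : Set (Finset ι)) {w : ℤ} (hw : w < 0) : EFa d ω P X w := by
  intro v hv _
  have : v = 0 := funext fun B => Pol.neg (by
    have : 0 ≤ ∑ l ∈ B, ω l := sum_nonneg fun l _ => hω l
    omega) (hv B)
  exact ⟨0, zero_mem _, by simp [this]⟩

/-- Passage to the zero set of one more binomial coefficient. -/
theorem recL (ok : Ok d ω P) (U : Finset ι) (s w : ℤ) (𝒜 : Set ℕ) (Q : ℕ)
    (h1 : w + P ≤ 2 * s) (h2 : w + P + 2 * s ≤ 2 * U.card)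
    (E1 : EFa d ω P (Lev (ZMod p) U s 𝒜) w)
    (E2 : EFa d ω P {I ∈ Lev (ZMod p) U s 𝒜 | bin (ZMod p) s Q I ≠ 0} (w + P - 2 * Q)) :
    EFa d ω P (Lev (ZMod p) U s (insert Q 𝒜)) w := by
  intro y hy hd
  set v : Finset ι → MvPolynomial σ (ZMod p) := bin (MvPolynomial σ (ZMod p)) s Q with hv
  obtain ⟨r, hr, hr'⟩ := div ok.om U s (w + P) 𝒜 Q h1 h2 (ok.mem _ _ hy) hd
  have a1 := ok.al _ _ hr'
  rw [map_sub, map_smul, ok.sq, zero_sub] at a1
  obtain ⟨z, hz, hz'⟩ := E2 r hr (fun B I hI => by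
    have a2 : -(v I * d r B I) = 0 := a1 B I hI.1
    exact (mul_eq_zero.1 (neg_eq_zero.1 a2)).resolve_left fun h => hI.2 ((rec_bin s Q I).1 h))
  have hvz : v • z ∈ WtG ω (Pw ι (MvPolynomial σ (ZMod p))) w := by
    have := sh_wtG (Pol.sh (bin_mem (ι := ι) (K := MvPolynomial σ (ZMod p)) s Q)) _ _ hz
    rwa [show w + P - 2 * Q - P + 2 * (Q : ℤ) = w by ring] at this
  obtain ⟨z', hz1, hz2⟩ := E1 (y - v • z) (sub_mem hy hvz) (by
    rw [map_sub, map_smul]
    intro B I hI
    have a2 : d y B I - v I * r B I = 0 := hr' B I hI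
    change d y B I - v I * d z B I = 0
    by_cases h : bin (ZMod p) s Q I = 0
    · have a3 : v I = 0 := (rec_bin s Q I).2 h
      rw [a3, zero_mul] at a2 ⊢
      exact a2
    · have a3 : d z B I - r B I = 0 := hz' B I ⟨hI, h⟩
      linear_combination a2 - v I * a3)
  refine ⟨z', hz1, fun B I hI => ?_⟩
  have a2 : d z' B I - (y B I - v I * z B I) = 0 :=
    hz2 B I ⟨hI.1, fun q hq => hI.2 q (Set.mem_insert_of_mem _ hq)⟩
  have a3 : v I = 0 := (rec_bin s Q I).2 (hI.2 Q (Set.mem_insert _ _))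
  change d z' B I - y B I = 0
  rw [a3, zero_mul, sub_zero] at a2
  exact a2

/-- Gluing a zero set to its complement. -/
theorem recU (ok : Ok d ω P) (U : Finset ι) (s w : ℤ) (𝒜 : Set ℕ) (Q : ℕ)
    (h1 : w ≤ 2 * s) (h2 : w + 2 * s ≤ 2 * U.card) {Y : Set (Finset ι)}
    (hY : Y ⊆ Lev (ZMod p) U s 𝒜) (hj : Lev (ZMod p) U s (insert Q 𝒜) ⊆ Y)
    (E1 : EFa d ω P (Lev (ZMod p) U s (insert Q 𝒜)) w)
    (E2 : EFa d ω P {I ∈ Y | bin (ZMod p) s Q I ≠ 0} (w - 2 * Q)) : EFa d ω P Y w := by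
  intro y hy hd
  set v : Finset ι → MvPolynomial σ (ZMod p) := bin (MvPolynomial σ (ZMod p)) s Q with hv
  obtain ⟨z, hz, hz'⟩ := E1 y hy fun B I hI => hd B I (hj hI)
  have hdz : d z ∈ WtG ω (Pw ι (MvPolynomial σ (ZMod p))) w := by
    have := ok.mem _ _ hz
    rwa [sub_add_cancel] at this
  obtain ⟨r, hr, hr'⟩ := div ok.om U s w 𝒜 Q h1 h2 (sub_mem hdz hy) hz'
  have a1 := ok.al _ _ hr'
  rw [map_sub, map_sub, map_smul, ok.sq, zero_sub] at a1
  obtain ⟨u, hu, hu'⟩ := E2 r hr (fun B I hI => by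
    have a2 : -d y B I - v I * d r B I = 0 := a1 B I (hY hI.1)
    have a3 : d y B I = 0 := hd B I hI.1
    rw [a3, neg_zero, zero_sub] at a2
    exact (mul_eq_zero.1 (neg_eq_zero.1 a2)).resolve_left fun h => hI.2 ((rec_bin s Q I).1 h))
  have hvu : v • u ∈ WtG ω (Pw ι (MvPolynomial σ (ZMod p))) (w - P) := by
    have := sh_wtG (Pol.sh (bin_mem (ι := ι) (K := MvPolynomial σ (ZMod p)) s Q)) _ _ hu
    rwa [show w - 2 * Q - P + 2 * (Q : ℤ) = w - P by ring] at this
  refine ⟨z - v • u, sub_mem hz hvu, ?_⟩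
  rw [map_sub, map_smul]
  intro B I hI
  have a2 : d z B I - y B I - v I * r B I = 0 := hr' B I (hY hI)
  change d z B I - v I * d u B I - y B I = 0
  by_cases h : bin (ZMod p) s Q I = 0
  · have a3 : v I = 0 := (rec_bin s Q I).2 h
    rw [a3, zero_mul, sub_zero] at a2 ⊢
    exact a2
  · have a3 : d u B I - r B I = 0 := hu' B I ⟨hI, h⟩
    linear_combination a2 - v I * a3

omit [DecidableEq ι] [Fintype ι] in
theorem per (U : Finset ι) (s j : ℤ) (n e : ℕ) :
    Lev (ZMod p) U (s + j * (p ^ e : ℕ)) {q | ∃ k, n ≤ k ∧ k < e ∧ q = p ^ k} =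
      Lev (ZMod p) U s {q | ∃ k, n ≤ k ∧ k < e ∧ q = p ^ k} := by
  ext I
  refine and_congr_right fun _ => forall₂_congr ?_
  rintro q ⟨k, -, hk, rfl⟩
  rw [bin, bin, show (I.card : ℤ) - (s + j * (p ^ e : ℕ)) =
    I.card - s + -j * (p : ℤ) ^ e by push_cast; ring,
    ch_per _ _ (dvd_mul_left _ _) (Nat.pow_lt_pow_right hp.out.one_lt (by omega))]

omit hp in
theorem ins {n e : ℕ} (h : n ≤ e) : {q | ∃ k, n ≤ k ∧ k < e + 1 ∧ q = p ^ k} =
    insert (p ^ e) {q | ∃ k, n ≤ k ∧ k < e ∧ q = p ^ k} := by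
  ext q
  constructor
  · rintro ⟨k, h1, h2, rfl⟩
    rcases (Nat.le_of_lt_succ h2).eq_or_lt with rfl | h
    · exact Or.inl rfl
    · exact Or.inr ⟨k, h1, h, rfl⟩
  · rintro (rfl | ⟨k, h1, h2, rfl⟩)
    · exact ⟨e, h, by omega, rfl⟩
    · exact ⟨k, h1, by omega, rfl⟩

/-- The complement of the zero set, node by node. -/
theorem nodes (ok : Ok d ω P) (U : Finset ι) (n e : ℕ) (s w ε : ℤ)
    (hε : ε * ε = 1)
    (H : ∀ i : ℕ, 1 ≤ i → w - 2 * (p ^ e : ℕ) * i ≤ 2 * (s + ε * i * (p ^ e : ℕ)) ∧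
      w - 2 * (p ^ e : ℕ) * i + 2 * (s + ε * i * (p ^ e : ℕ)) ≤ 2 * U.card ∧
      EFa d ω P (Lev (ZMod p) U (s + ε * i * (p ^ e : ℕ))
        (insert (p ^ e) {q | ∃ k, n ≤ k ∧ k < e ∧ q = p ^ k}))
        (w - 2 * (p ^ e : ℕ) * i)) :
    EFa d ω P {I ∈ Lev (ZMod p) U s {q | ∃ k, n ≤ k ∧ k < e ∧ q = p ^ k} |
      bin (ZMod p) s (p ^ e) I ≠ 0} (w - 2 * (p ^ e : ℕ)) := by
  have hε' : (ε : ZMod p) * ε = 1 := by exact_mod_cast congrArg (Int.cast : ℤ → ZMod p) hε
  have key : ∀ m i : ℕ, i + m = p → 1 ≤ i →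
      EFa d ω P {I ∈ Lev (ZMod p) U s {q | ∃ k, n ≤ k ∧ k < e ∧ q = p ^ k} |
        ∀ i' < i, bin (ZMod p) s (p ^ e) I ≠ (ε : ZMod p) * (i' : ℕ)}
        (w - 2 * (p ^ e : ℕ) * i) := by
    intro m
    induction m with
    | zero =>
      intro i hi _ y _ _
      refine ⟨0, zero_mem _, fun B I hI => ?_⟩
      refine (hI.2 ((ε : ZMod p) * bin (ZMod p) s (p ^ e) I).val ?_ ?_).elim
      · rw [show i = p by omega]
        exact ZMod.val_lt _
      · rw [ZMod.natCast_zmod_val, ← mul_assoc, hε', one_mul]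
    | succ m ih =>
      intro i hi h1
      obtain ⟨k1, k2, k3⟩ := H i h1
      have top : ∀ I : Finset ι, bin (ZMod p) (s + ε * i * (p ^ e : ℕ)) (p ^ e) I =
          bin (ZMod p) s (p ^ e) I - (ε : ZMod p) * (i : ℕ) := fun I => by
        rw [rec_top]
        push_cast
        rfl
      refine recU ok U _ _ _ _ k1 k2 (fun I hI => ?_) (fun I hI => ⟨?_, fun i' hi' h => ?_⟩) k3 ?_
      · rw [per]
        exact hI.1
      · rw [← per U s (ε * i) n e]
        exact ⟨hI.1, fun q hq => hI.2 q (Set.mem_insert_of_mem _ hq)⟩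
      · have a1 := hI.2 _ (Set.mem_insert _ _)
        rw [top, h] at a1
        have a2 : ((i' : ℕ) : ZMod p) = (i : ℕ) := by
          linear_combination (ε : ZMod p) * a1 + ((i : ℕ) - (i' : ℕ) : ZMod p) * hε'
        have a3 := congrArg ZMod.val a2
        rw [ZMod.val_cast_of_lt (by omega), ZMod.val_cast_of_lt (by omega)] at a3
        omega
      · have a1 := ih (i + 1) (by omega) (by omega)
        rw [show w - 2 * (p ^ e : ℕ) * ((i + 1 : ℕ) : ℤ) =
          w - 2 * (p ^ e : ℕ) * i - 2 * (p ^ e : ℕ) by push_cast; ring] at a1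
        convert a1 using 1
        ext I
        simp only [Set.mem_ofPred_eq, top, sub_ne_zero, Nat.forall_lt_succ_right, and_assoc]
  have := key (p - 1) 1 (by have := hp.out.pos; omega) le_rfl
  rw [Nat.cast_one, mul_one] at this
  convert this using 1
  ext I
  simp

end RecG

/-- Exactness passes to the level sets of the higher digits of the size. -/
theorem ef_levG (d : Module.End (Finset ι → MvPolynomial σ (ZMod p))
      (Finset σ → Finset ι → MvPolynomial σ (ZMod p))) (ω : σ → ℤ) (P : ℤ)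
    (hsq : ∀ v, d (d v) = 0)
    (hmem : ∀ w, ∀ v ∈ WtG ω (Pw ι (MvPolynomial σ (ZMod p))) w,
      d v ∈ WtG ω (Pw ι (MvPolynomial σ (ZMod p))) (w + P))
    (hal : ∀ X, ∀ v ∈ Al σ (Van (MvPolynomial σ (ZMod p)) X),
      d v ∈ Al σ (Van (MvPolynomial σ (ZMod p)) X))
    (hω : ∀ l, 0 ≤ ω l) (U : Finset ι) (T : ℤ) (h : ∀ w < T, EFa d ω P {I | I ⊆ U} w)
    (n : ℕ) (hP0 : 0 < P) (hP : P ≤ (p : ℤ) ^ n) (c : ℕ) (s w : ℤ) (hw : w < T)
    (h1 : w + P ≤ 2 * s) (h2 : w + P + 2 * s ≤ 2 * U.card)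
    (h3 : w + 2 * P ≤ 2 * s ∨ w + 2 * P + 2 * s ≤ 2 * U.card) :
    EFa d ω P (Lev (ZMod p) U s {q | ∃ k, n ≤ k ∧ k < c ∧ q = p ^ k}) w := by
  have ok : RecG.Ok d ω P := ⟨hsq, hmem, hal, hω⟩
  have h0 : ∀ c ≤ n, ∀ s, ∀ w < T,
      EFa d ω P (Lev (ZMod p) U s {q | ∃ k, n ≤ k ∧ k < c ∧ q = p ^ k}) w := fun c hc s w hw => by
    convert h w hw using 1
    ext I
    refine ⟨fun hI => hI.1, fun hI => ⟨hI, ?_⟩⟩
    rintro q ⟨k, k1, k2, -⟩
    omega
  induction c generalizing s w with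
  | zero => exact h0 0 n.zero_le s w hw
  | succ e ih =>
    rcases lt_or_ge e n with he | he
    · exact h0 _ he s w hw
    rw [RecG.ins he]
    have hQ : P ≤ (p ^ e : ℕ) := hP.trans (by
      exact_mod_cast Nat.pow_le_pow_right hp.out.pos he)
    obtain ⟨m, hm⟩ : ∃ m : ℕ, w < m := ⟨w.toNat + 1, by omega⟩
    induction m generalizing s w with
    | zero => exact RecG.neg hω _ hm
    | succ m ihm =>
      refine RecG.recL ok U s w _ _ h1 h2 (ih s w hw h1 h2 h3) ?_
      have hi : ∀ i : ℕ, 1 ≤ i → P ≤ (p ^ e : ℕ) * (i : ℤ) := fun i hi =>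
        hQ.trans (le_mul_of_one_le_right (by positivity) (by exact_mod_cast hi))
      rcases h3 with h3 | h3
      · refine RecG.nodes ok U n e s (w + P) (-1) rfl fun i h0 => ?_
        have := hi i h0
        refine ⟨by linarith, by linarith, ihm _ _ (by linarith) (by linarith) (by linarith)
          (Or.inr (by linarith)) ?_⟩
        push_cast at hm this ⊢
        linarith
      · refine RecG.nodes ok U n e s (w + P) 1 rfl fun i h0 => ?_
        have := hi i h0
        refine ⟨by linarith, by linarith, ihm _ _ (by linarith) (by linarith) (by linarith)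
          (Or.inl (by linarith)) ?_⟩
        push_cast at hm this ⊢
        linarith

end Pool.Agent.Lib.MP_3184af_co.TateG
end
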