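import Pool.Agent.Lib.MP_3184af_co.TateG.Chain
import Pool.Agent.Lib.MP_3184af_co.TateG.Cstep

set_option autoImplicit false

namespace Pool.Agent.Lib.MP_3184af_co.TateG

open Finset Tate

variable {ι σ F : Type} [DecidableEq ι] [LinearOrder σ] [Fintype σ] [Field F]

namespace Vs

omit [LinearOrder σ] [Fintype σ] [DecidableEq ι] in
theorem adm_pred {lv : σ → ℕ} {J : ℕ} {g : ι → σ → F} (hA : Adm lv (J + 1) g) : Adm lv J g :=
  ⟨fun j hj => hA.dn j (by omega), fun k hk => hA.st k (by omega)⟩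

omit [LinearOrder σ] [DecidableEq ι] in
theorem rk_mono (g : ι → σ → F) {Z U : Finset ι} (h : Z ⊆ U) : rk g Z ≤ rk g U :=
  Submodule.finrank_mono (Submodule.span_mono (Set.image_mono h))

omit [LinearOrder σ] [Fintype σ] [DecidableEq ι] in
theorem tau_succ (p : ℕ) (lv : σ → ℕ) (J : ℕ) (g : ι → σ → F) (Z : Finset ι) :
    tauG p lv (J + 1) g Z =
      tauG p lv J g Z + ((p : ℤ) - 1) * (p : ℤ) ^ J * rk (gl lv g J) Z := sum_range_succ _ _

omit [LinearOrder σ] [Fintype σ] in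
theorem hT_sub {t : Finset ι → ℤ} {U Z : Finset ι} {T : ℤ}
    (hT : ∀ Z ⊆ U, T ≤ (U \ Z).card + t Z) (hZ : Z ⊆ U) :
    ∀ Z' ⊆ Z, T - (U \ Z).card ≤ (Z \ Z').card + t Z' := fun Z' hZ' => by
  have a1 := hT Z' (hZ'.trans hZ)
  have a2 := card_sdiff_add_card_eq_card hZ
  have a3 := card_sdiff_add_card_eq_card hZ'
  have a4 := card_sdiff_add_card_eq_card (hZ'.trans hZ)
  omega

/-- Exactness of the Koszul operator can be checked degree by degree. -/
theorem ex_of_dg {p : ℕ} {lv : σ → ℕ} {n : ℕ} (g : ι → σ → F) (U : Finset ι) (w : ℤ)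
    (h : ∀ k : ℤ, ∀ v ∈ Gp F (Pc p lv n U w k), dKosG F p lv n g U v = 0 →
      ∃ z ∈ YwG F p lv n U (w - (p : ℤ) ^ n), dKosG F p lv n g U z = v) :
    Ex (dKosG F p lv n g U) (YwG F p lv n U) ((p : ℤ) ^ n) w := by
  intro v hv h0
  have := filt_ex (d0 := dKosG F p lv n g U) (d1 := 0) (fun B _ => dg lv n B) 1
    (fun B A => A ⊆ U ∧ 2 * (A.card : ℤ) = w - ∑ j ∈ B, om p lv n j)
    (fun B A => A ⊆ U ∧ 2 * (A.card : ℤ) = w - (p : ℤ) ^ n - ∑ j ∈ B, om p lv n j)
    0 (Fintype.card σ)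
    (fun B A _ => ⟨Int.natCast_nonneg _, by
      unfold dg
      exact_mod_cast card_le_univ _⟩)
    (fun φ v hv => dKosG_dg g U φ hv)
    (fun k v _ => zero_mem _)
    (fun v hv => by
      have := dKosG_mem g subset_rfl (mem_YwG.2 hv)
      rw [sub_add_cancel] at this
      rw [add_zero]
      exact mem_YwG.1 this)
    (fun v _ => by
      rw [add_zero]
      exact LinearMap.congr_fun (dK_sq _) v)
    (fun k v hv h0 => by
      obtain ⟨z, hz, e⟩ := h k v hv h0
      refine ⟨z, Gp_mono ?_ (mem_YwG.1 hz), e⟩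
      exact fun B A q _ => q)
    v (mem_YwG.1 hv) (by rw [add_zero]; exact h0)
  rw [add_zero] at this
  exact this

/-- Exactness of the Koszul operator from the vanishing theorem one level lower. -/
theorem kosG {p : ℕ} (hp : p.Prime) [CharP F p] {lv : σ → ℕ} {J : ℕ} {g : ι → σ → F}
    (hA : Adm lv (J + 1) g)
    (IH : ∀ (U : Finset ι) (T : ℤ), (∀ Z ⊆ U, T ≤ (U \ Z).card + 2 * tauG p lv J g Z) →
      ∀ w < T, Ex (dSG p lv J g U (MvPolynomial.X : σ → MvPolynomial σ F))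
        (YwG (MvPolynomial σ F) p lv J U) ((p : ℤ) ^ J) w)
    (U : Finset ι) (T : ℤ) (hT : ∀ Z ⊆ U, T ≤ (U \ Z).card + 2 * tauG p lv (J + 1) g Z) (w : ℤ)
    (hw : w + (p : ℤ) ^ (J + 1) * rk (gl lv g J) U < T) :
    Ex (dKosG F p lv (J + 1) g U) (YwG F p lv (J + 1) U) ((p : ℤ) ^ (J + 1)) w := by
  induction U using Finset.strongInduction generalizing T w with
  | H U ih =>
  have p2 : (2 : ℤ) ≤ p := by exact_mod_cast hp.two_le
  have q0 : (0 : ℤ) < (p : ℤ) ^ J := by positivity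
  have q1 : (0 : ℤ) < (p : ℤ) ^ (J + 1) := by positivity
  have hC := kos_hi (p := p) lv J g U
    (T - 2 * (((p : ℤ) - 1) * (p : ℤ) ^ J * rk (gl lv g J) U))
    (c_of_a hp lv J g U _ (IH U _ fun Z hZ => by
      have a1 := hT Z hZ
      rw [tau_succ] at a1
      have a2 : ((p : ℤ) - 1) * (p : ℤ) ^ J * rk (gl lv g J) Z ≤
          ((p : ℤ) - 1) * (p : ℤ) ^ J * rk (gl lv g J) U :=
        mul_le_mul_of_nonneg_left (by exact_mod_cast rk_mono _ hZ)
          (mul_nonneg (by omega) q0.le)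
      omega))
  suffices H : ∀ m : ℕ, ∀ w : ℤ, w < m → w + (p : ℤ) ^ (J + 1) * rk (gl lv g J) U < T →
      Ex (dKosG F p lv (J + 1) g U) (YwG F p lv (J + 1) U) ((p : ℤ) ^ (J + 1)) w from
    H (w.toNat + 1) w (by omega) hw
  intro m
  induction m with
  | zero =>
    intro w h _ v hv _
    exact ⟨0, zero_mem _, by rw [YwG_neg hp.two_le h hv, map_zero]⟩
  | succ m ihm =>
    intro w h hw
    refine ex_of_dg g U w fun k v hv h0 => ?_
    by_cases hk : k < rk (gl lv g J) U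
    · refine kos_lo hp hA U
        (fun Z => if Z = U then w else T - (U \ Z).card - (p : ℤ) ^ (J + 1) * rk (gl lv g J) Z)
        (fun Z hZ w' hw' => ?_) w (fun Z hZ => ?_) (mem_YwG.2 (Gp_mono (fun B A q => q.1) hv))
        (Gp_mono (fun B A q => q.2.trans_lt hk) hv) h0
      · by_cases e : Z = U
        · subst e
          rw [if_pos rfl] at hw'
          exact ihm w' (by omega) (by omega)
        · rw [if_neg e] at hw'
          exact ih Z (ssubset_of_subset_of_ne hZ e) (T - (U \ Z).card) (hT_sub hT hZ) w'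
            (by omega)
      · split_ifs with e
        · subst e
          omega
        · omega
    · obtain ⟨z, hz, e⟩ := hC w k (by
        have a2 : ((p : ℤ) - 2) * (p : ℤ) ^ J * rk (gl lv g J) U ≤
            ((p : ℤ) - 2) * (p : ℤ) ^ J * k :=
          mul_le_mul_of_nonneg_left (not_lt.1 hk) (mul_nonneg (by omega) q0.le)
        rw [pow_succ] at hw
        linarith) v hv h0
      exact ⟨z, mem_YwG.2 (Gp_mono (fun B A q => q.1) hz), e⟩

end Vs

/-- The vanishing theorem. -/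
theorem vstarG {p : ℕ} (hp : p.Prime) [CharP F p] {lv : σ → ℕ} {n : ℕ} {g : ι → σ → F}
    (hA : Adm lv n g) (U : Finset ι) (T : ℤ)
    (hT : ∀ Z ⊆ U, T ≤ (U \ Z).card + 2 * tauG p lv n g Z) (w : ℤ) (hw : w < T) :
    Ex (dSG p lv n g U (MvPolynomial.X : σ → MvPolynomial σ F))
      (YwG (MvPolynomial σ F) p lv n U) ((p : ℤ) ^ n) w := by
  induction n generalizing U T w with
  | zero =>
    intro v hv _
    have := hT U subset_rfl
    rw [sdiff_self, bot_eq_empty, card_empty, tauG, range_zero, sum_empty] at this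
    exact ⟨0, zero_mem _, by rw [YwG_neg hp.two_le (by omega) hv, map_zero]⟩
  | succ J ih =>
    have e : idl (⊥ : Submodule F (σ → F)) = ⊥ := by simp [idl, lin]
    have h := stratG hp hA U
      (fun Z => T - (U \ Z).card - (p : ℤ) ^ (J + 1) * rk (gl lv g J) Z) (fun Z hZ w' hw' =>
      Vs.kosG hp hA (ih (Vs.adm_pred hA)) Z (T - (U \ Z).card) (Vs.hT_sub hT hZ) w' (by omega))
      ⊥ w fun Z _ => by
        rw [bot_sup_eq, finrank_bot, rk]
        omega
    rw [e] at h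
    intro v hv h0
    obtain ⟨z, hz, k⟩ := h v hv (h0 ▸ zero_mem _)
    exact ⟨z, hz, sub_eq_zero.1 (funext fun B => Sq.ext fun A => k B A)⟩

end Pool.Agent.Lib.MP_3184af_co.TateG
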