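import Pool.Agent.Lib.MP_3184af_co.TateG.PartB
import Pool.Agent.Lib.MP_3184af_co.TateG.VstarG
import Pool.Agent.Lib.MP_3184af_co.TateG.RecG



set_option autoImplicit false

namespace Pool.Agent.Lib.MP_3184af_co.TateG

open Finset Tate

section
variable {ι ρ : Type} [DecidableEq ι] [Fintype ι] [Fintype ρ] {p : ℕ} [hp : Fact p.Prime]

omit [DecidableEq ι] [Fintype ι] [Fintype ρ] in
theorem adm_I (n : ℕ) (e : ρ → ℕ) (g : ι → ρ → ℤ) :
    Adm lvI n (fun i j => (rowI n e (g i) j : ZMod p)) := by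
  refine ⟨?_, fun k hk => ⟨(none, ⟨k, hk⟩), rfl, fun i => by simp [rowI]⟩⟩
  rintro ⟨o, k0⟩ h k hk
  have hk' : k < k0 := hk
  rcases o with _ | l
  · exact ⟨(none, ⟨k, hk'.trans k0.2⟩), rfl, fun i => rfl⟩
  by_cases h1 : (k0 : ℕ) < e l
  · exact ⟨(some l, ⟨k, hk'.trans k0.2⟩), rfl, fun i => by simp [rowI, h1, hk'.trans h1]⟩
  · exact ⟨(none, ⟨k, hk'.trans k0.2⟩), rfl, fun i => by simp [rowI, h1]⟩

omit [DecidableEq ι] [Fintype ι] in
theorem tau_le (n : ℕ) (e : ρ → ℕ) (g : ι → ρ → ℤ) (Z : Finset ι) :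
    tau p g e n Z ≤ tauG p lvI n (fun i j => (rowI n e (g i) j : ZMod p)) Z := by
  rw [tau, tauG, mul_sum]
  refine sum_le_sum fun k hk => ?_
  have h1 : (1 : ℤ) ≤ p := by exact_mod_cast hp.out.one_le
  rw [← mul_assoc]
  refine mul_le_mul_of_nonneg_left (Int.ofNat_le.2 ?_) (mul_nonneg (by omega) (by positivity))
  have h2 := Submodule.finrank_map_le (LinearMap.funLeft (ZMod p) (ZMod p)
    fun l : ρ => ((some l, ⟨k, mem_range.1 hk⟩) : Ix ρ n)) (Submodule.span (ZMod p)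
      (gl lvI (fun i j => (rowI n e (g i) j : ZMod p)) k '' (Z : Set ι)))
  have h3 : (fun i => LinearMap.funLeft (ZMod p) (ZMod p)
      (fun l : ρ => ((some l, ⟨k, mem_range.1 hk⟩) : Ix ρ n))
      (gl lvI (fun i j => (rowI n e (g i) j : ZMod p)) k i)) = cutk p g e k := by
    funext i l
    simp [cutk, gl, lvI, rowI, LinearMap.funLeft_apply]
  rwa [Submodule.map_span, Set.image_image, h3] at h2

omit [DecidableEq ι] [Fintype ι] [Fintype ρ] in
theorem af_iff (n : ℕ) (e : ρ → ℕ) (he : ∀ l, e l ≤ n) (g : ι → ρ → ℤ) (b : ρ → ℤ)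
    (I : Finset ι) (l : ρ) :
    (∀ k : Fin n, afG (ZMod p) p lvI n (fun i => rowI n e (g i)) (rowI n e b) (some l, k) I = 0) ↔
      (p : ℤ) ^ e l ∣ ∑ i ∈ I, g i l - b l := by
  rw [← ch_dvd]
  refine ⟨fun h k hk => ?_, fun h k => ?_⟩
  · simpa [afG, lvI, rowI, hk, hk.trans_le (he l)] using h ⟨k, hk.trans_le (he l)⟩
  · by_cases h1 : (k : ℕ) < e l
    · simpa [afG, lvI, rowI, h1] using h k h1
    · simp [afG, lvI, rowI, h1, Ring.choose_zero_pos ℤ (pow_pos hp.out.pos k)]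

/-- The digit step. -/
theorem gt_step (g : ι → ρ → ℤ) (e : ρ → ℕ) (l0 : ρ) (hg : ∀ i, g i l0 = 1) (n : ℕ)
    (h0 : e l0 = n + 1) (he : ∀ l, e l ≤ n + 1) (U : Finset ι) (s t : ℤ)
    (ht : ∑ l, ((p : ℤ) ^ e l - 1) = t + ((p : ℤ) ^ (n + 1) - 1)) (h1 : t ≤ s)
    (h2 : s + t + (p : ℤ) ^ n ≤ U.card) (c : ℕ) (hc : n + 1 ≤ c) {I0 : Finset ι} (hI : I0 ⊆ U)
    (hs : (p : ℤ) ^ c ∣ I0.card - s) :
    ∃ I ⊆ U, (p : ℤ) ^ (c + 1) ∣ I.card - s ∧
      ∀ l, (p : ℤ) ^ e l ∣ ∑ i ∈ I, g i l - ∑ i ∈ I0, g i l := by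
  classical
  by_contra hno
  have p2 : (2 : ℤ) ≤ p := by exact_mod_cast hp.out.two_le
  have q0 : (0 : ℤ) < (p : ℤ) ^ n := by positivity
  have q1 : (p : ℤ) ^ (n + 1) ≤ (p : ℤ) ^ c := pow_le_pow_right₀ (by omega) hc
  have q2 : (p : ℤ) ^ (n + 1) = p * (p : ℤ) ^ n := pow_succ' _ _
  have q3 : p * (p : ℤ) ^ (n + 1) ≤ (p : ℤ) ^ (c + 1) := by
    rw [pow_succ' _ c]
    exact mul_le_mul_of_nonneg_left q1 (by omega)
  have q4 : 2 * (p : ℤ) ^ (n + 1) ≤ p * (p : ℤ) ^ (n + 1) :=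
    mul_le_mul_of_nonneg_right p2 (by positivity)
  have q5 : 5 * (p : ℤ) ^ (n + 1) ≤ 2 * (p * (p : ℤ) ^ (n + 1)) + 2 * (p : ℤ) ^ n := by
    have := mul_nonneg (mul_nonneg (show (0 : ℤ) ≤ p - 2 by omega)
      (show (0 : ℤ) ≤ 2 * p - 1 by omega)) q0.le
    rw [q2]
    linarith
  have q6 : (p : ℤ) ^ n ≤ (p : ℤ) ^ (n + 1) := pow_le_pow_right₀ (by omega) (by omega)
  let _ : LinearOrder (Ix ρ (n + 1)) := linearOrderOfSTO WellOrderingRel
  obtain ⟨b, hb⟩ : ∃ b : ρ → ℤ, b = fun l => ∑ i ∈ I0, g i l := ⟨_, rfl⟩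
  have hT : ∀ Z ⊆ U, 2 * (t - (p : ℤ) ^ (c + 1) + p ^ (n + 1) - 1) + p ^ (n + 1) + 1 ≤
      (U \ Z).card + 2 * tauG p lvI (n + 1) (fun i j => (rowI (n + 1) e (g i) j : ZMod p)) Z :=
    fun Z hZ => by
      have a1 := partB_step (p := p) g e l0 hg (h0 ▸ he) c (h0 ▸ hc) U s t (h0 ▸ ht)
        (by rw [h0, q2, ← mul_add]; exact mul_le_mul_of_nonneg_left (by omega) (by omega)) hI hs
        (fun I k1 k2 k3 => hno ⟨I, k1, k3, k2⟩) hZ
      have a2 := tau_le (p := p) (n + 1) e g Z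
      rw [h0] at a1
      omega
  have kd : ∀ I : Finset ι, (∏ l ∈ univ.erase l0, ∏ k ∈ range (e l), (1 - (fun I : Finset ι =>
      ((Ring.choose (∑ i ∈ I, g i l - b l) (p ^ k) : ℤ) : ZMod p)) ^ (p - 1))) I ≠ 0 ↔
      ∀ l ∈ univ.erase l0, (p : ℤ) ^ e l ∣ ∑ i ∈ I, g i l - b l := fun I => by
    simp only [Finset.prod_apply, prod_ne_zero_iff, ← ch_dvd, mem_range]
    refine forall₄_congr fun l _ k _ => ?_
    rw [Pi.sub_apply, Pi.one_apply, Pi.pow_apply, ZMod.pow_card_sub_one]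
    split_ifs with a
    · simp [a]
    · simpa using a
  obtain ⟨I, a1, a2, a3⟩ := stepG
    (afG (ZMod p) p lvI (n + 1) (fun i => rowI (n + 1) e (g i)) (rowI (n + 1) e b))
    (fun j => (p : ℤ) ^ lvI j) (afG_mem _ _) ((p : ℤ) ^ n) q0.le
    (fun j => pow_le_pow_right₀ (by omega) (Nat.lt_succ_iff.1 j.2.2)) U s t (n + 1) c hc
    (by omega) h1 h2
    (fun D hD u hu => h_oneG _ _ _ D (ef_levG _ _ _ (dFG_sq _ _ _) (fun _ _ => dFG_mem _ _ _)
      (fun _ _ => dFG_al _ _ _) (om_nonneg hp.out.two_le) U _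
      (fun w hw => transferG _ _ U w fun w' hw' =>
        vstarG hp.out (adm_I (n + 1) e g) U _ hT w' (hw'.trans_lt hw))
      (n + 1) (by omega) le_rfl (c + 1) s _ (by omega) (by omega) (by omega) (Or.inr (by omega)))
      u hu)
    _ (by
      have a1 : ∀ (l : ρ) (m : ℕ), ∏ k ∈ range m, (1 - (fun I : Finset ι =>
          ((Ring.choose (∑ i ∈ I, g i l - b l) (p ^ k) : ℤ) : ZMod p)) ^ (p - 1)) ∈
          Pol ι (ZMod p) ((p : ℤ) ^ m - 1) := fun l m => by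
        induction m with
        | zero =>
          rw [prod_range_zero, pow_zero, sub_self]
          exact Pol.const (1 : ZMod p)
        | succ m ih =>
          rw [prod_range_succ]
          refine Pol.mono (le_of_eq ?_) (Pol.mul ih (sub_mem
            (Pol.mono (by positivity) (Pol.const (ι := ι) (1 : ZMod p)))
            (Pol.pow (choose_mem (fun i => g i l) (b l) (p ^ m)) (p - 1))))
          push_cast [hp.out.one_le]
          ring
      have a2 : ∀ S : Finset ρ, ∏ l ∈ S, ∏ k ∈ range (e l), (1 - (fun I : Finset ι =>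
          ((Ring.choose (∑ i ∈ I, g i l - b l) (p ^ k) : ℤ) : ZMod p)) ^ (p - 1)) ∈
          Pol ι (ZMod p) (∑ l ∈ S, ((p : ℤ) ^ e l - 1)) := fun S => by
        induction S using Finset.induction_on with
        | empty =>
          rw [prod_empty, sum_empty]
          exact Pol.const (1 : ZMod p)
        | insert l S hl ih =>
          rw [prod_insert hl, sum_insert hl]
          exact Pol.mul (a1 l _) ih
      refine Pol.mono (le_of_eq ?_) (a2 (univ.erase l0))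
      have := add_sum_erase univ (fun l => (p : ℤ) ^ e l - 1) (mem_univ l0)
      rw [h0] at this
      omega)
    ⟨I0, hI, hs, (kd I0).2 fun l _ => by simp [hb]⟩
    fun I _ k2 k3 => by
      rintro ⟨_ | l, k⟩
      · simp [afG, rowI, Ring.choose_zero_pos ℤ (pow_pos hp.out.pos _)]
      refine (af_iff (n + 1) e he g b I l).2 ?_ k
      by_cases a : l = l0
      · have := dvd_sub k2 hs
        rw [a, h0, hb]
        simpa [hg] using (pow_dvd_pow _ hc).trans this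
      · exact (kd I).1 k3 l (by simp [a])
  exact hno ⟨I, a1, a2, fun l => by
    simpa [hb] using (af_iff (n + 1) e he g b I l).1 fun k => a3 _⟩

/-- The sums of the subsets of a central size contain the sums of all subsets whose size is
congruent modulo the exponent. -/
theorem gtG (g : ι → ρ → ℤ) (e : ρ → ℕ) (l0 : ρ) (hg : ∀ i, g i l0 = 1) (n : ℕ)
    (h0 : e l0 = n + 1) (he : ∀ l, e l ≤ n + 1) (U : Finset ι) (s t : ℤ)
    (ht : ∑ l, ((p : ℤ) ^ e l - 1) = t + ((p : ℤ) ^ (n + 1) - 1)) (h1 : t ≤ s)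
    (h2 : s + t + (p : ℤ) ^ n ≤ U.card) {I0 : Finset ι} (hI : I0 ⊆ U)
    (hs : (p : ℤ) ^ (n + 1) ∣ I0.card - s) :
    ∃ I ⊆ U, (I.card : ℤ) = s ∧ ∀ l, (p : ℤ) ^ e l ∣ ∑ i ∈ I, g i l - ∑ i ∈ I0, g i l := by
  classical
  have key : ∀ c : ℕ, ∃ I ⊆ U, (p : ℤ) ^ (n + 1 + c) ∣ I.card - s ∧
      ∀ l, (p : ℤ) ^ e l ∣ ∑ i ∈ I, g i l - ∑ i ∈ I0, g i l := fun c => by
    induction c with
    | zero => exact ⟨I0, hI, hs, fun l => by simp⟩
    | succ c ih =>
      obtain ⟨I, a1, a2, a3⟩ := ih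
      obtain ⟨I', b1, b2, b3⟩ := gt_step g e l0 hg n h0 he U s t ht h1 h2 (n + 1 + c) (by omega)
        a1 a2
      exact ⟨I', b1, b2, fun l => (dvd_add (b3 l) (a3 l)).trans (dvd_of_eq (by ring))⟩
  obtain ⟨I, a1, a2, a3⟩ := key U.card
  refine ⟨I, a1, sub_eq_zero.1 (Int.eq_zero_of_abs_lt_dvd a2 ?_), a3⟩
  have p1 : (1 : ℤ) ≤ p := by exact_mod_cast hp.out.one_le
  have b0 : 0 ≤ t := by
    have c1 := add_sum_erase univ (fun l => (p : ℤ) ^ e l - 1) (mem_univ l0)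
    have c2 : 0 ≤ ∑ l ∈ univ.erase l0, ((p : ℤ) ^ e l - 1) :=
      sum_nonneg fun l _ => sub_nonneg.2 (one_le_pow₀ p1)
    rw [h0] at c1
    omega
  have b1 : U.card < p ^ (n + 1 + U.card) :=
    lt_of_le_of_lt (by omega) (Nat.lt_pow_self hp.out.one_lt)
  have b2 : (U.card : ℤ) < (p : ℤ) ^ (n + 1 + U.card) := by exact_mod_cast b1
  have b3 := card_le_card a1
  have b4 : (0 : ℤ) < (p : ℤ) ^ n := by positivity
  rw [abs_lt]
  omega

end

theorem pgroup {p : ℕ} (hp : p.Prime) {G : Type} [AddCommGroup G] [Finite G] {n k d : ℕ}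
    (hG : ∀ x : G, p ^ (n + 1) • x = 0)
    (hd : IsLeast
      {ℓ : ℕ | ∀ f : Fin ℓ → G, ∃ I : Finset (Fin ℓ), I.Nonempty ∧ ∑ i ∈ I, f i = 0} d)
    (hk : d + p ^ n ≤ k * p ^ (n + 1) + 1) :
    IsLeast {ℓ : ℕ | ∀ f : Fin ℓ → G, ∃ I : Finset (Fin ℓ),
      I.card = k * p ^ (n + 1) ∧ ∑ i ∈ I, f i = 0} (d + k * p ^ (n + 1) - 1) := by
  classical
  have : Fact p.Prime := ⟨hp⟩
  obtain ⟨t, rfl⟩ : ∃ t, d = t + 1 := Nat.exists_eq_succ_of_ne_zero (by
    rintro rfl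
    obtain ⟨I, ⟨i, -⟩, -⟩ := hd.1 fun _ => 0
    exact i.elim0)
  have q0 : 0 < p ^ n := pow_pos hp.pos n
  refine ⟨fun f => ?_, fun ℓ h => ?_⟩
  swap
  · have := lower (d := t) (by omega) (fun h' => by have := hd.2 h'; omega) h
    omega
  obtain ⟨κ, _, B, e, h1, h2, h3, -⟩ := basis_ex hp (n + 1) hG
  have e0 : ∀ l, 0 < p ^ e l := fun l => pow_pos hp.pos _
  have h4 := zsf ⊤ (dav_fin hd.1) (fun _ : Unit => (0 : G)) ∅
    (fun I hI h => absurd (subset_empty.1 hI) h.ne_empty) B (fun l => p ^ e l - 1)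
    (fun _ => trivial) fun c hc => h3 c fun l => by have := hc l; have := e0 l; omega
  have h5 : ∑ l, ((p : ℤ) ^ e l - 1) ≤ t := by
    have a1 : ((∑ l, (p ^ e l - 1) : ℕ) : ℤ) ≤ t := by
      rw [card_empty] at h4
      omega
    rw [Nat.cast_sum] at a1
    refine le_trans (le_of_eq (sum_congr rfl fun l _ => ?_)) a1
    rw [Nat.cast_sub (e0 l)]
    simp
  have h6 : ∀ x : G, ∃ c : κ → ℤ, ∑ l, c l • B l = x := fun x =>
    (Submodule.mem_span_range_iff_exists_fun ℤ).1 (by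
      have := h2 x
      rwa [← Submodule.span_int_eq_addSubgroupClosure] at this)
  choose c hc using h6
  have h7 : (univ : Finset (Fin (t + 1 + k * p ^ (n + 1) - 1))).card = t + k * p ^ (n + 1) := by
    rw [card_univ, Fintype.card_fin]
    omega
  obtain ⟨U, -, h8, h9⟩ := gtG (p := p) (ρ := Option κ) (fun i o => o.elim 1 (c (f i)))
    (fun o => o.elim (n + 1) e) none (fun _ => rfl) n rfl
    (by rintro (_ | l); exacts [le_rfl, (h1 l).1]) univ t (∑ l, ((p : ℤ) ^ e l - 1))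
    (by rw [Fintype.sum_option, add_comm]; rfl) h5
    (by
      have a1 : ((t + 1 + p ^ n : ℕ) : ℤ) ≤ (k * p ^ (n + 1) + 1 : ℕ) := by exact_mod_cast hk
      rw [h7]
      push_cast at a1 ⊢
      omega) subset_rfl (by rw [h7]; simp)
  refine ⟨Uᶜ, by rw [card_compl, Fintype.card_fin]; omega, ?_⟩
  rw [← sum_congr rfl fun i _ => hc (f i), sum_comm]
  refine sum_eq_zero fun l _ => ?_
  obtain ⟨z, hz⟩ := h9 (some l)
  have a1 := sum_compl_add_sum U fun i => c (f i) l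
  simp only [Option.elim_some] at hz
  rw [← sum_smul, show ∑ i ∈ Uᶜ, c (f i) l = -z * (p ^ e l : ℕ) by push_cast; linarith, mul_smul,
    natCast_zsmul, (h1 l).2, smul_zero]

end Pool.Agent.Lib.MP_3184af_co.TateG
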