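import Pool.Agent.Lib.MP_3184af_co.TateG.GTG

set_option autoImplicit false

namespace Pool.Agent.Lib.MP_3184af_co.TateG

open Finset Tate

/-- Upper bound with additive error `q / p`, valid from `k q ≥ d - 1` on. -/
theorem pgroup_gap {p : ℕ} (hp : p.Prime) {G : Type} [AddCommGroup G] [Finite G] {n k d : ℕ}
    (hG : ∀ x : G, p ^ (n + 1) • x = 0)
    (hd : IsLeast
      {ℓ : ℕ | ∀ f : Fin ℓ → G, ∃ I : Finset (Fin ℓ), I.Nonempty ∧ ∑ i ∈ I, f i = 0} d)
    (hk : d ≤ k * p ^ (n + 1) + 1) (f : Fin (d + k * p ^ (n + 1) - 1 + p ^ n) → G) :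
    ∃ I : Finset (Fin (d + k * p ^ (n + 1) - 1 + p ^ n)),
      I.card = k * p ^ (n + 1) ∧ ∑ i ∈ I, f i = 0 := by
  classical
  have : Fact p.Prime := ⟨hp⟩
  obtain ⟨t, rfl⟩ : ∃ t, d = t + 1 := Nat.exists_eq_succ_of_ne_zero (by
    rintro rfl
    obtain ⟨I, ⟨i, -⟩, -⟩ := hd.1 fun _ => 0
    exact i.elim0)
  obtain ⟨κ, _, B, e, h1, h2, h3, -⟩ := basis_ex hp (n + 1) hG
  have e0 : ∀ l, 0 < p ^ e l := fun l => pow_pos hp.pos _
  have h4 := zsf ⊤ (dav_fin hd.1) (fun _ : Unit => (0 : G)) ∅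
    (fun I hI h => absurd (subset_empty.1 hI) h.ne_empty) B (fun l => p ^ e l - 1)
    (fun _ => trivial) fun c hc => h3 c fun l => by have := hc l; have := e0 l; omega
  have h5 : ∑ l, ((p : ℤ) ^ e l - 1) ≤ t := by
    have a1 : ((∑ l, (p ^ e l - 1) : ℕ) : ℤ) ≤ t := by
      rw [card_empty] at h4
      omega
    rw [Nat.cast_sum] at a1
    refine le_trans (le_of_eq (sum_congr rfl fun l _ => ?_)) a1
    rw [Nat.cast_sub (e0 l)]
    simp
  have h6 : ∀ x : G, ∃ c : κ → ℤ, ∑ l, c l • B l = x := fun x =>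
    (Submodule.mem_span_range_iff_exists_fun ℤ).1 (by
      have := h2 x
      rwa [← Submodule.span_int_eq_addSubgroupClosure] at this)
  choose c hc using h6
  have h7 : (univ : Finset (Fin (t + 1 + k * p ^ (n + 1) - 1 + p ^ n))).card =
      t + k * p ^ (n + 1) + p ^ n := by
    rw [card_univ, Fintype.card_fin]
    omega
  obtain ⟨U, -, h8, h9⟩ := gtG (p := p) (ρ := Option κ) (fun i o => o.elim 1 (c (f i)))
    (fun o => o.elim (n + 1) e) none (fun _ => rfl) n rfl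
    (by rintro (_ | l); exacts [le_rfl, (h1 l).1]) univ (k * p ^ (n + 1) : ℕ)
    (∑ l, ((p : ℤ) ^ e l - 1))
    (by rw [Fintype.sum_option, add_comm]; rfl) (h5.trans (by omega))
    (by
      rw [h7]
      push_cast
      omega) (empty_subset _) (by simp)
  refine ⟨U, by exact_mod_cast h8, ?_⟩
  rw [← sum_congr rfl fun i _ => hc (f i), sum_comm]
  refine sum_eq_zero fun l _ => ?_
  obtain ⟨z, hz⟩ := h9 (some l)
  simp only [Option.elim_some, sum_empty, sub_zero] at hz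
  rw [← sum_smul, show ∑ i ∈ U, c (f i) l = z * (p ^ e l : ℕ) by push_cast; linarith, mul_smul,
    natCast_zsmul, (h1 l).2, smul_zero]

end Pool.Agent.Lib.MP_3184af_co.TateG
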