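import Pool.Agent.Lib.MP_3184af_co.TateG.BandM
import Pool.Agent.Lib.MP_3184af_co.TateG.BaseG
import Pool.Agent.Lib.MP_3184af_co.Tate.Leaf

set_option autoImplicit false

namespace Pool.Agent.Lib.MP_3184af_co.TateG

open Finset Tate

variable {ι σ F : Type} [DecidableEq ι] [LinearOrder σ] [Fintype σ] [Field F]
  {K : Type} [CommRing K] [Algebra F K]

namespace LeafB

open MvPolynomial Tate.Leaf

variable {p : ℕ} {lv : σ → ℕ} {n J : ℕ}

omit [LinearOrder σ] [Fintype σ] in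
theorem yG_zero (hp : p ≠ 0) {g : ι → σ → F} {j : σ} (h : ∀ i, g i j = 0) (U : Finset ι) :
    yG K p lv n g U j = 0 := by
  rw [yG]
  split_ifs
  · exact gam_of_zero (pow_ne_zero _ hp) fun i _ => by rw [h, map_zero]
  · rfl

omit [LinearOrder σ] [Fintype σ] in
theorem om_st {j : σ} {k : ℕ} (h : lv j = k) (hk : k < n) :
    om p lv n j = (p : ℤ) ^ n - 2 * (p : ℤ) ^ k := by rw [om, h, if_pos hk]

/-- The leading part is exact. -/
theorem lead (hp : p.Prime) [CharP F p] (g : ι → σ → F)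
    (st : ℕ → σ) (h1 : ∀ k ≤ J, lv (st k) = k) (h2 : ∀ k ≤ J, ∀ i, g i (st k) = 0) (a : ι → K)
    {S Z : Finset ι} (hd : Disjoint S Z) (hS : ∀ i ∈ S, IsUnit (a i)) (s0 : ℤ)
    (h0 : ∀ w < s0, Ex (dKosG K p lv (J + 1) g Z) (YwG K p lv (J + 1) Z) ((p : ℤ) ^ (J + 1)) w)
    {w : ℤ} (hw : w < s0 + S.card) :
    Ex (dKosG K p lv (J + 1) g Z +
        ∑ k ∈ range (J + 1), gam (p ^ k) a S • ze (MvPolynomial ι K) (Sq ι K) (st k) +
        gam (p ^ J) a S ^ (p - 1) • io (MvPolynomial ι K) (Sq ι K) (st J))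
      (YwG K p lv (J + 1) (Z ∪ S)) ((p : ℤ) ^ (J + 1)) w := by
  have hC : (p : MvPolynomial ι K) = 0 := by
    rw [← map_natCast (algebraMap F (MvPolynomial ι K)), CharP.cast_eq_zero, map_zero]
  have hZ : ∀ i ∈ S, i ∉ Z := fun i hi => disjoint_left.1 hd hi
  have e1 : ∀ l : σ, ze (MvPolynomial ι K) (Sq ι K) l = dK (Sq ι K) (Pi.single l 1) := fun l => by
    rw [dK_single, one_smul]
  have e2 : ∀ l : σ, io (MvPolynomial ι K) (Sq ι K) l = dI (Sq ι K) (Pi.single l 1) := fun l => by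
    rw [dI_single, one_smul]
  refine bandG hp hC X (fun i => C (a i)) (fun T m => gam m a T)
    (fun T => YwG K p lv (J + 1) (Z ∪ T)) (dKosG K p lv (J + 1) g Z)
    (fun k => ze _ _ (st k)) (fun k => io _ _ (st k)) J S s0
    ⟨dK_sq _, fun k _ => by rw [e1, dKosG, dK_dK], fun k hk => ?_, fun k _ l _ => ze_ze _ _,
      fun k _ => ze_sq _, fun k _ l _ => io_io _ _, fun k _ => io_sq _, fun k hk l hl => ?_⟩
    (fun T => ⟨fun w v hv => dKosG_mem g subset_union_left hv, fun k hk w v hv => ?_,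
      fun k hk w v hv => ?_⟩)
    (fun T => gam_zero a T) (fun m => gam_empty m a) (fun T i m hi => gam_insert m a hi)
    (fun i v => funext fun B => X_X_smul i (v B)) (fun i hi => ?_)
    (fun i _ T => sh_wtG (sh_C _ _)) (fun T _ i hi => sh_wtG (sh_X (mem_union_right _ hi)))
    (fun T i w v hv B A hA => hv B A fun h => hA
      ⟨h.1.trans (union_subset_union_right (subset_insert _ _)), h.2⟩)
    (fun T _ i hi hT w y hy => ?_) (fun T _ i hi hT w w' y0 hy0 y1 hy1 h => ?_)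
    (fun w hw => by rw [union_empty]; exact h0 w hw) w hw
  · rw [e2, dKosG, dI_dK, sum_eq_single (st k) (fun l _ hl => by simp [hl]) (by simp),
      yG_zero hp.ne_zero (h2 k (by omega)), mul_zero, zero_smul, zero_sub, neg_neg]
  · rw [io_ze]
    exact congrArg (· - _) (if_congr ⟨fun e => by
      rw [← h1 k (by omega), e, h1 l (by omega)], congrArg st⟩ rfl rfl)
  · rw [← om_st (h1 k (by omega)) hk]
    exact ze_memG _ hv
  · rw [← om_st (h1 k (by omega)) hk]
    exact io_memG _ hv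
  · obtain ⟨b, hb⟩ := (hS i hi).exists_left_inv
    exact ⟨C b, by rw [← map_mul, hb, map_one], fun T => sh_wtG (sh_C _ _)⟩
  · have h1 : ∀ A : Finset ι, i ∉ A → A ⊆ Z ∪ insert i T → A ⊆ Z ∪ T := fun A hA h j hj => by
      have := h hj
      rw [union_insert, mem_insert] at this
      exact this.resolve_left fun e => hA (e ▸ hj)
    refine ⟨fun B A => if i ∈ A then 0 else y B A, fun B A hA => ?_,
      fun B A => if i ∈ A then 0 else y B (insert i A), fun B A hA => ?_,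
      funext fun B => Sq.ext fun A => ?_⟩
    · exact ite_eq_left_iff.2 fun h2 => hy B A fun h => hA ⟨h1 A h2 h.1, h.2⟩
    · refine ite_eq_left_iff.2 fun h2 => hy B _ fun h =>
        hA ⟨h1 A h2 ((subset_insert _ _).trans h.1), ?_⟩
      have h3 := h.2
      rw [card_insert_of_notMem h2] at h3
      omega
    · refine Eq.symm ((congrArg ((if i ∈ A then 0 else y B A) + ·)
        (X_smul i (fun A => if i ∈ A then 0 else y B (insert i A)) A)).trans ?_)
      by_cases h2 : i ∈ A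
      · simp [h2]
      · simp [h2]
  · have h1 : ∀ A : Finset ι, i ∈ A → ¬ A ⊆ Z ∪ T := fun A hA h =>
      (mem_union.1 (h hA)).elim (hZ i hi) hT
    have h2 : ∀ B A, y0 B A + (if i ∈ A then y1 B (A.erase i) else 0) = 0 := fun B A => by
      rw [← X_smul]
      exact congrFun (congrFun h B) A
    refine ⟨funext fun B => Sq.ext fun A => ?_, funext fun B => Sq.ext fun A => ?_⟩ <;>
      by_cases h3 : i ∈ A
    · exact hy0 B A fun h => h1 A h3 h.1
    · have := h2 B A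
      rwa [if_neg h3, add_zero] at this
    · exact hy1 B A fun h => h1 A h3 h.1
    · have := h2 B (insert i A)
      rwa [if_pos (mem_insert_self _ _), erase_insert h3,
        hy0 B _ fun h => h1 _ (mem_insert_self _ _) h.1, zero_add] at this

omit [Fintype σ] in
theorem sh_single {C W : Type} [CommRing C] [AddCommGroup W] [Module C W]
    {𝒲 : ℤ → AddSubgroup W} {c : C} {j : σ} {k : σ → ℤ} (h : Sh 𝒲 c (k j)) (l : σ) :
    Sh 𝒲 ((Pi.single j c : σ → C) l) (k l) := by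
  rcases eq_or_ne l j with rfl | e
  · rwa [Pi.single_eq_same]
  · rw [Pi.single_eq_of_ne e]
    exact Sh.zero _

theorem rz_le {Z : Finset ι} {k i j : ℤ} {c : MvPolynomial ι K} (h : Sh (Rz K Z (k ≤ ·)) c i)
    (e : j ≤ i) : Sh (Rz K Z (k ≤ ·)) c j := fun m y hy A hA =>
  h m y hy A fun h1 => hA (by beta_reduce at h1 ⊢; omega)

end LeafB

open MvPolynomial Tate.Leaf LeafB in
/-- The normal form on a stratum. -/
theorem leaf_band {p : ℕ} (hp : p.Prime) [CharP F p] {lv : σ → ℕ} {J : ℕ} (g : ι → σ → F)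
    (st : ℕ → σ) (h1 : ∀ k ≤ J, lv (st k) = k) (h2 : ∀ k ≤ J, ∀ i, g i (st k) = 0) (a : ι → K)
    {S Z : Finset ι} (hd : Disjoint S Z) (hS : ∀ i ∈ S, IsUnit (a i)) (s0 : ℤ)
    (h0 : ∀ w < s0, Ex (dKosG K p lv (J + 1) g Z) (YwG K p lv (J + 1) Z) ((p : ℤ) ^ (J + 1)) w)
    {w : ℤ} (hw : w < s0 + S.card) :
    Ex (dK (Sq ι K) (yG K p lv (J + 1) g (Z ∪ S) +
        ∑ k ∈ range (J + 1), Pi.single (st k) (gam (p ^ k) a S)) +
      dI (Sq ι K) (Pi.single (st J) (gam (p ^ J) a S ^ (p - 1))))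
      (YwG K p lv (J + 1) (Z ∪ S)) ((p : ℤ) ^ (J + 1)) w := by
  classical
  have hK : (p : K) = 0 := by
    rw [← map_natCast (algebraMap F K), CharP.cast_eq_zero, map_zero]
  have hZ : ∀ i ∈ S, i ∉ Z := fun i hi => disjoint_left.1 hd hi
  have L := lead hp g st h1 h2 a hd hS s0 h0 hw
  obtain ⟨u, hu⟩ : ∃ u : σ → MvPolynomial ι K,
    u = ∑ k ∈ range (J + 1), Pi.single (st k) (gam (p ^ k) a S) := ⟨_, rfl⟩
  obtain ⟨b, hb⟩ : ∃ b : σ → MvPolynomial ι K,
    b = Pi.single (st J) (gam (p ^ J) a S ^ (p - 1)) := ⟨_, rfl⟩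
  have e0 : dK (Sq ι K) u =
      ∑ k ∈ range (J + 1), gam (p ^ k) a S • ze (MvPolynomial ι K) (Sq ι K) (st k) := by
    rw [hu]
    induction range (J + 1) using Finset.induction_on with
    | empty => simp [dK_zero]
    | insert k s hk ih => rw [sum_insert hk, sum_insert hk, dK_add, ih, dK_single]
  rw [← e0, ← dI_single, ← hb, dKosG, ← dK_add] at L
  rw [← hu, ← hb]
  obtain ⟨y, hy⟩ : ∃ y, y = yG K p lv (J + 1) g := ⟨_, rfl⟩
  rw [← hy] at L ⊢
  have e1 : dK (Sq ι K) (y (Z ∪ S) + u) + dI (Sq ι K) b =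
      dK (Sq ι K) (y Z + u) + dI (Sq ι K) b + dK (Sq ι K) (y (Z ∪ S) - y Z) := by
    rw [add_right_comm, ← dK_add]
    congr 2
    abel
  obtain ⟨ω, hω⟩ : ∃ ω : σ → ℤ,
    ω = fun j => if (∀ i, g i j = 0) ∨ J < lv j then 0 else (p : ℤ) ^ lv j := ⟨_, rfl⟩
  have ω0 : ∀ j, 0 ≤ ω j := fun j => by
    rw [hω]
    beta_reduce
    split_ifs
    exacts [le_rfl, by positivity]
  have ω1 : ∀ k ≤ J, ω (st k) = 0 := fun k hk => by rw [hω]; exact if_pos (.inl (h2 k hk))
  have ω2 : ∀ j U, (∀ i, g i j = 0) ∨ J < lv j → y U j = 0 := fun j U h => by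
    rw [hy]
    exact h.elim (fun h => yG_zero hp.ne_zero h U) fun h => if_neg (by omega)
  have ω3 : ∀ j, ¬ ((∀ i, g i j = 0) ∨ J < lv j) → ω j = (p : ℤ) ^ lv j ∧
      ∀ U, y U j = gam (p ^ lv j) (fun i => algebraMap F K (g i j)) U := fun j h => by
    rw [hω, hy]
    exact ⟨if_neg h, fun U => if_pos (by omega)⟩
  have r1 : ∀ φ m c, Sh (Rz K Z φ) (gam m c S) 0 := fun φ m c =>
    (Hg_sh rz_C (fun i hi => rz_out (hZ i hi)) (gam_mem m c S)).cast (mul_zero _)
  have r2 : ∀ φ (m : ℕ) c, Sh (Rz K Z φ) (gam m c Z) (-m) := fun φ m c =>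
    (Hg_sh rz_C (fun i hi => rz_in hi) (gam_mem m c Z)).cast (mul_neg_one _)
  have r3 : ∀ (m : ℕ), Sh (Hm K (Z ∪ S)) (gam m a S) (m * 2) := fun m =>
    Hg_sh (sh_C _) (fun i hi => sh_X (mem_union_right _ hi)) (gam_mem m a S)
  have key := filt_ex (d0 := dK (Sq ι K) (y Z + u) + dI (Sq ι K) b)
    (d1 := dK (Sq ι K) (y (Z ∪ S) - y Z))
    (fun B A => -((A ∩ Z).card : ℤ) - (0 - ∑ j ∈ B, ω j)) 0
    (fun B A => A ⊆ Z ∪ S ∧ 2 * (A.card : ℤ) = w - ∑ j ∈ B, om p lv (J + 1) j)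
    (fun B A => A ⊆ Z ∪ S ∧ 2 * (A.card : ℤ) = w - (p : ℤ) ^ (J + 1) - ∑ j ∈ B, om p lv (J + 1) j)
    (-Z.card) (∑ j, ω j) (fun B A _ => ?_) (fun φ v hv => ?_) (fun k v hv => ?_)
    (fun v hv => ?_) (fun v _ => ?_) fun k v hv h => ?_
  · rw [e1]
    exact key
  · have t1 := card_le_card (inter_subset_right (s₁ := A) (s₂ := Z))
    have t2 : 0 ≤ ∑ j ∈ B, ω j := sum_nonneg fun j _ => ω0 j
    have t3 : ∑ j ∈ B, ω j ≤ ∑ j, ω j :=
      sum_le_sum_of_subset_of_nonneg (subset_univ B) fun j _ _ => ω0 j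
    constructor <;> omega
  · have hv' : v ∈ WtG ω (Rz K Z φ) 0 := hv
    have t1 := dK_memG (a := y Z + u) (P := 0) (fun l => Sh.add ?_ ?_) hv'
    have t2 := dI_memG (a := b) (P := 0) (fun l => hb ▸ sh_single (k := fun l => 0 + ω l)
      (((r1 φ _ a).pow (p - 1)).cast (by rw [ω1 J le_rfl]; simp)) l) hv'
    · have t3 := add_mem t1 t2
      rw [add_zero] at t3
      simp only [sub_zero]
      exact t3
    · by_cases h : (∀ i, g i l = 0) ∨ J < lv l
      · rw [ω2 l _ h]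
        exact Sh.zero _
      · rw [(ω3 l h).1, (ω3 l h).2]
        exact (r2 φ _ _).cast (by simp)
    · rw [hu, Finset.sum_apply]
      exact Sh.sum _ fun k hk => sh_single (k := fun l => 0 - ω l)
        ((r1 φ _ a).cast (by rw [ω1 k (by have := mem_range.1 hk; omega)]; simp)) l
  · have hv' : v ∈ WtG ω (Rz K Z (k ≤ ·)) 0 := hv
    have t1 := dK_memG (a := y (Z ∪ S) - y Z) (P := 1) (fun l => ?_) hv'
    · exact fun B A hA => t1 B A fun h => hA (by beta_reduce at h ⊢; omega)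
    by_cases h : (∀ i, g i l = 0) ∨ J < lv l
    · rw [Pi.sub_apply, ω2 l _ h, ω2 l _ h, sub_zero]
      exact Sh.zero _
    · rw [Pi.sub_apply, (ω3 l h).1, (ω3 l h).2, (ω3 l h).2, gam_union _ _ hd.symm, sum_range_succ,
        Nat.sub_self, gam_zero, mul_one, add_sub_cancel_right]
      refine Sh.sum _ fun i hi => rz_le ((r2 _ _ _).mul (r1 _ _ _)) ?_
      have : (i : ℤ) < (p : ℤ) ^ lv l := by exact_mod_cast mem_range.1 hi
      omega
  · have hv' : v ∈ YwG K p lv (J + 1) (Z ∪ S) (w - (p : ℤ) ^ (J + 1)) := hv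
    have t1 := dK_memG (a := y (Z ∪ S) + u) (P := (p : ℤ) ^ (J + 1))
      (fun l => Sh.add (hy ▸ yG_sh g subset_rfl l) ?_) hv'
    have t2 := dI_memG (a := b) (P := (p : ℤ) ^ (J + 1)) (fun l => hb ▸ sh_single
      (k := fun l => (p : ℤ) ^ (J + 1) + om p lv (J + 1) l) (((r3 _).pow (p - 1)).cast (by
        rw [om_st (h1 J le_rfl) J.lt_add_one]
        push_cast [hp.one_le]
        ring)) l) hv'
    · have t3 := add_mem t1 t2
      rw [sub_add_cancel] at t3
      rw [← e1]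
      exact t3
    · rw [hu, Finset.sum_apply]
      refine Sh.sum _ fun k hk => sh_single
        (k := fun l => (p : ℤ) ^ (J + 1) - om p lv (J + 1) l) ((r3 _).cast ?_) l
      rw [om_st (h1 k (by have := mem_range.1 hk; omega)) (mem_range.1 hk)]
      push_cast
      ring
  · rw [← e1, ← Module.End.mul_apply, d_sq, sum_eq_single (st J)
      (fun l _ hl => by simp [hb, hl]) (by simp), Pi.add_apply, ω2 _ _ (.inl (h2 J le_rfl)),
      zero_add, hu, Finset.sum_apply, sum_eq_single J (fun k hk e => Pi.single_eq_of_ne (fun h =>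
        e (by rw [← h1 k (by have := mem_range.1 hk; omega), ← h, h1 J le_rfl])) _) (by simp),
      hb, Pi.single_eq_same, Pi.single_eq_same, ← pow_succ, Nat.sub_add_cancel hp.one_le]
    exact funext fun B => Module.mem_annihilator.1
      (Hg_pow hp hK (pow_ne_zero _ hp.ne_zero) (gam_mem _ a S)) (v B)
  · obtain ⟨z, z1, z2⟩ := L v (Gp_mono (fun _ _ k => k.1) hv) h
    exact ⟨z, fun B A hA => z1 B A fun k => hA fun _ => k, z2⟩

end Pool.Agent.Lib.MP_3184af_co.TateG
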