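import Pool.Agent.Lib.MP_3184af_co.TateG.ConjG
import Pool.Agent.Lib.MP_3184af_co.TateG.LeafB

set_option autoImplicit false

namespace Pool.Agent.Lib.MP_3184af_co.TateG

open Finset Tate

variable {ι σ F : Type} [DecidableEq ι] [LinearOrder σ] [Fintype σ] [Field F]
  {K : Type} [CommRing K] [Algebra F K]

namespace LeafG

omit [Fintype σ] in
theorem single_mem {R : Type} [CommRing R] (I : Ideal R) {x x' : R} (h : x - x' ∈ I) (i l : σ) :
    (Pi.single i x : σ → R) l - (Pi.single i x' : σ → R) l ∈ I := by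
  rcases eq_or_ne l i with rfl | k
  · rwa [Pi.single_eq_same, Pi.single_eq_same]
  · rw [Pi.single_eq_of_ne k, Pi.single_eq_of_ne k, sub_self]
    exact zero_mem _

theorem sum_single {R : Type} [CommRing R] (i : σ) (x : R) (y : σ → R) :
    ∑ l, y l * (Pi.single i x : σ → R) l = y i * x := by
  rw [sum_eq_single i (fun l _ k => by rw [Pi.single_eq_of_ne k, mul_zero])
    fun k => (k (mem_univ i)).elim, Pi.single_eq_same]

/-- The coefficients of the row operations. -/
theorem exists_rows {p : ℕ} (hp : p.Prime) [CharP F p] {lv : σ → ℕ} {J : ℕ} {g : ι → σ → F}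
    (hA : Adm lv (J + 1) g) (c : σ → K) (U : Finset ι) :
    ∃ (st : ℕ → σ) (ζ : ℕ → σ → MvPolynomial ι K), (∀ k ≤ J, lv (st k) = k) ∧
      (∀ k ≤ J, ∀ i, g i (st k) = 0) ∧ (∀ k, ∀ k' ≤ J, ζ k (st k') = 0) ∧
      (∀ k ≤ J, yG K p lv (J + 1) g U (st k) = 0) ∧
      (∀ k ≤ J, ∑ j, ζ k j * yG K p lv (J + 1) g U j -
        gam (p ^ k) (fun i => ∑ l, algebraMap F K (gl lv g J i l) * c l) U ∈ An ι K) ∧
      (∀ k ≤ J, ∀ l, Sh (Hm K U) (ζ k l) (om p lv (J + 1) l - om p lv (J + 1) (st k))) ∧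
      dTG p lv (J + 1) g U c = dI (Sq ι K) fun l =>
        (ζ J + Pi.single (st J) 1 : σ → MvPolynomial ι K) l ^ p *
          yG K p lv (J + 1) g U l ^ (p - 1) := by
  have hK : (p : K) = 0 := by
    rw [← map_natCast (algebraMap F K), CharP.cast_eq_zero, map_zero]
  have p1 : p - 1 ≠ 0 := by have := hp.two_le; omega
  have : Nonempty σ := ⟨(hA.st 0 (Nat.succ_pos J)).choose⟩
  choose! st h1 h2 using hA.st
  choose! z z1 z2 z3 z4 using fun k (hk : k ≤ J) => exists_z hp hA c U hk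
  have hy : ∀ k ≤ J, yG K p lv (J + 1) g U (st k) = 0 := fun k hk => by
    rw [yG]
    split_ifs
    · exact gam_of_zero (pow_ne_zero _ hp.ne_zero) fun i _ => by
        rw [h2 k (Nat.lt_succ_of_le hk), map_zero]
    · rfl
  have hy' : ∀ j ∈ (range (J + 1)).image st, yG K p lv (J + 1) g U j = 0 := fun j hj => by
    obtain ⟨k, hk, rfl⟩ := mem_image.1 hj
    exact hy k (mem_range_succ_iff.1 hk)
  refine ⟨st, fun k j => if j ∈ (range (J + 1)).image st then 0 else z k j,
    fun k hk => h1 k (Nat.lt_succ_of_le hk), fun k hk => h2 k (Nat.lt_succ_of_le hk),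
    fun k k' hk => if_pos (mem_image_of_mem _ (mem_range_succ_iff.2 hk)), hy, fun k hk => ?_,
    fun k hk l => ?_, dI_congr fun l => ?_⟩
  · rw [← neg_sub, sum_congr rfl fun j _ => show _ = z k j * yG K p lv (J + 1) g U j by
      beta_reduce
      split_ifs with h
      · rw [hy' j h, mul_zero, mul_zero]
      · rfl]
    exact neg_mem (z1 k hk)
  · beta_reduce
    split_ifs
    · exact Sh.zero _
    rcases le_or_gt (lv l) k with h | h
    · refine (Hg_sh (sh_C U) (fun i hi => sh_X hi) (z2 k hk l h)).cast ?_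
      rw [om, om, h1 k (Nat.lt_succ_of_le hk), if_pos (by omega), if_pos (by omega),
        Nat.cast_sub (Nat.pow_le_pow_right hp.pos h)]
      push_cast
      ring
    · rw [z3 k hk l h]
      exact Sh.zero _
  · by_cases h : l ∈ (range (J + 1)).image st
    · rw [hy' l h, zero_pow p1, mul_zero, mul_zero, ite_self, sub_self]
      exact zero_mem _
    have h3 : l ≠ st J := fun e => h (e ▸ mem_image_of_mem _ (self_mem_range_succ J))
    rw [Pi.add_apply, Pi.single_eq_of_ne h3, add_zero]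
    beta_reduce
    rw [if_neg h]
    rcases lt_trichotomy (lv l) J with k | k | k
    · rw [if_neg (by omega), zero_sub]
      refine neg_mem (Ideal.mul_mem_right _ _ (Hg_pow hp hK ?_ (z2 J le_rfl l k.le)))
      exact Nat.sub_ne_zero_of_lt (Nat.pow_lt_pow_right hp.one_lt k)
    · rw [if_pos (by omega), z4 J le_rfl rfl l k, ← pow_mul, ← pow_succ, sub_self]
      exact zero_mem _
    · rw [if_neg (by omega), z3 J le_rfl l k, zero_pow hp.ne_zero, zero_mul, sub_self]
      exact zero_mem _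

end LeafG

open LeafG in
/-- Exactness on a stratum. -/
theorem leafG {p : ℕ} (hp : p.Prime) [CharP F p] {lv : σ → ℕ} {J : ℕ} {g : ι → σ → F}
    (hA : Adm lv (J + 1) g) (c : σ → K) {S Z : Finset ι} (hd : Disjoint S Z)
    (hS : ∀ i ∈ S, IsUnit (∑ l, algebraMap F K (gl lv g J i l) * c l))
    (hZ : ∀ i ∈ Z, ∑ l, algebraMap F K (gl lv g J i l) * c l = 0) (s0 : ℤ)
    (h0 : ∀ w < s0, Ex (dKosG K p lv (J + 1) g Z) (YwG K p lv (J + 1) Z) ((p : ℤ) ^ (J + 1)) w)
    {w : ℤ} (hw : w < s0 + S.card) :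
    Ex (dSG p lv (J + 1) g (Z ∪ S) c) (YwG K p lv (J + 1) (Z ∪ S)) ((p : ℤ) ^ (J + 1)) w := by
  have hC : (p : MvPolynomial ι K) = 0 := by
    rw [← map_natCast (algebraMap F (MvPolynomial ι K)), CharP.cast_eq_zero, map_zero]
  obtain ⟨st, ζ, h1, h2, h3, h4, h5, h6, h7⟩ := exists_rows hp hA c (Z ∪ S)
  have hL := leaf_band hp g st h1 h2 _ hd hS s0 h0 hw
  simp only [gam_union_zero _ hd.symm hZ] at h5
  have hu := yG_sh (K := K) (p := p) (lv := lv) (n := J + 1) g (subset_refl (Z ∪ S))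
  rw [dSG, h7, dKosG]
  generalize yG K p lv (J + 1) g (Z ∪ S) = y at h4 h5 hL hu
  generalize (fun i => ∑ l, algebraMap F K (gl lv g J i l) * c l) = a at h5 hL
  refine conjG hp hC _ _ _ (2 * (p : ℤ) ^ J) (by ring) _ _ hu (fun l => ?_) w ?_
  · have e : 2 * (p : ℤ) ^ J - (p : ℤ) ^ (J + 1) + om p lv (J + 1) l =
        om p lv (J + 1) l - om p lv (J + 1) (st J) := by
      rw [om.eq_1 _ _ _ (st J), h1 J le_rfl, if_pos (Nat.lt_succ_self J)]
      ring
    rw [e]
    refine (h6 J le_rfl l).add ?_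
    rcases eq_or_ne l (st J) with rfl | k
    · rw [Pi.single_eq_same, sub_self]
      exact Sh.one
    · rw [Pi.single_eq_of_ne k]
      exact Sh.zero _
  have e1 : ∑ l, (ζ J + Pi.single (st J) 1 : σ → MvPolynomial ι K) l * y l = ∑ l, ζ J l * y l := by
    simp only [Pi.add_apply, mul_comm _ (y _), mul_add, sum_add_distrib, sum_single]
    rw [h4 J le_rfl, zero_mul, add_zero]
  rw [e1, ← dI_smul]
  refine rowG _ _ _ w (st J) (ζ J) _ _ (h3 J J le_rfl) (h6 J le_rfl) ?_
  have e2 : ∀ θ : MvPolynomial ι K, θ • (ζ J + Pi.single (st J) 1 : σ → MvPolynomial ι K) -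
      (θ • (ζ J + Pi.single (st J) 1 : σ → MvPolynomial ι K)) (st J) • ζ J =
        Pi.single (st J) θ := fun θ => by
    rw [Pi.smul_apply, Pi.add_apply, h3 J J le_rfl, Pi.single_eq_same, zero_add, smul_eq_mul,
      mul_one, smul_add, add_sub_cancel_left, ← Pi.single_smul, smul_eq_mul, mul_one]
  rw [e2]
  refine rowsG _ _ _ w (range J) st ζ _ _ (fun k _ k' hk => h3 k k' (mem_range.1 hk).le)
    (fun k hk => Pi.single_eq_of_ne (fun e => ?_) _) (fun k hk => h6 k (mem_range.1 hk).le) ?_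
  · have e3 := congrArg lv e
    rw [h1 k (mem_range.1 hk).le, h1 J le_rfl] at e3
    exact (mem_range.1 hk).ne e3
  have e4 : ∀ k (θ : MvPolynomial ι K),
      ∑ l, ζ k l * (y + Pi.single (st J) θ : σ → MvPolynomial ι K) l = ∑ l, ζ k l * y l :=
    fun k θ => by
      simp only [Pi.add_apply, mul_add, sum_add_distrib, sum_single]
      rw [h3 k J le_rfl, zero_mul, add_zero]
  simp only [e4]
  rw [add_assoc, ← sum_range_succ_comm fun k => (Pi.single (st k) (∑ l, ζ k l * y l) :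
      σ → MvPolynomial ι K),
    dK_congr (a' := y + ∑ k ∈ range (J + 1), Pi.single (st k) (gam (p ^ k) a S)) fun l => ?_,
    dI_congr (a' := Pi.single (st J) (gam (p ^ J) a S ^ (p - 1))) fun l =>
      single_mem _ (Ideal.mem_of_dvd _ (sub_dvd_pow_sub_pow _ _ _) (h5 J le_rfl)) _ _]
  · exact hL
  · rw [Pi.add_apply, Pi.add_apply, add_sub_add_left_eq_sub, Finset.sum_apply, Finset.sum_apply,
      ← sum_sub_distrib]
    exact sum_mem fun k hk => single_mem _ (h5 k (mem_range_succ_iff.1 hk)) _ _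

end Pool.Agent.Lib.MP_3184af_co.TateG
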