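import Pool.Agent.Lib.MP_3184af_co.Tate.Div
import Pool.Agent.Lib.MP_3184af_co.Tate.Filt
import Pool.Agent.Lib.MP_3184af_co.TateG.DefsG
import Pool.Agent.Lib.MP_3184af_co.TateG.Dbl

-- part Pool.Agent.Lib.MP_3184af_co.Tate.Step
section

set_option autoImplicit false

namespace Pool.Agent.Lib.MP_3184af_co.Tate

open Finset

variable {ι σ : Type} [DecidableEq ι] [Fintype ι] [LinearOrder σ] [Fintype σ]
  {p : ℕ} [hp : Fact p.Prime]

omit [Fintype ι] in
theorem lev_iff (U : Finset ι) (s a : ℤ) (e : ℕ) (ha : (p : ℤ) ^ e ∣ a) (I : Finset ι) :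
    I ∈ Lev (ZMod p) U (s + a) {q | ∃ k < e, q = p ^ k} ↔ I ⊆ U ∧ (p : ℤ) ^ e ∣ I.card - s := by
  have h : (p : ℤ) ^ e ∣ I.card - s ↔ (p : ℤ) ^ e ∣ I.card - (s + a) := by
    rw [← sub_sub]
    exact (dvd_sub_left ha).symm
  rw [h, ← ch_dvd]
  exact and_congr Iff.rfl ⟨fun h k hk => h _ ⟨k, hk, rfl⟩, by
    rintro h _ ⟨k, hk, rfl⟩
    exact h k hk⟩

omit [DecidableEq ι] [Fintype ι] in
theorem dig_iff (s : ℤ) (e : ℕ) {I : Finset ι} (h : (p : ℤ) ^ e ∣ I.card - s) :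
    bin (ZMod p) s (p ^ e) I = 0 ↔ (p : ℤ) ^ (e + 1) ∣ I.card - s := by
  rw [← ch_dvd]
  refine ⟨fun h0 k hk => ?_, fun h0 => h0 e (by omega)⟩
  rcases (Nat.lt_succ_iff.1 hk).eq_or_lt with rfl | hk
  · exact h0
  · exact (ch_dvd _ e).2 h k hk

omit [DecidableEq ι] [Fintype ι] in
theorem ind_eq (s : ℤ) (e : ℕ) {I : Finset ι} (h : (p : ℤ) ^ e ∣ I.card - s) :
    bin (ZMod p) (s + (p : ℤ) ^ e) ((p - 1) * p ^ e) I =
      if (p : ℤ) ^ (e + 1) ∣ I.card - s then 1 else 0 := by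
  rw [bin, ← sub_sub]
  exact ch_ind _ e h

omit [DecidableEq ι] [Fintype ι] in
theorem low_eq (s : ℤ) (I : Finset ι) :
    bin (ZMod p) (s - (p - 1)) (p - 1) I = if (p : ℤ) ∣ I.card - s then 1 else 0 := by
  have := ch_ind (p := p) (I.card - s + p) 0 (by simp)
  simp only [pow_zero, mul_one, zero_add, pow_one, dvd_add_self_right] at this
  rw [bin, ← this]
  congr 2
  ring

omit [Fintype ι] in
theorem blk_iff (U : Finset ι) (s : ℤ) (e : ℕ) {I : Finset ι} (h : (p : ℤ) ∣ I.card - s) :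
    I ∈ Lev (ZMod p) U (s - (p - 1)) {q | ∃ k, 1 ≤ k ∧ k ≤ e ∧ q = p ^ k} ↔
      I ⊆ U ∧ (p : ℤ) ^ (e + 1) ∣ I.card - s := by
  rw [← ch_block _ e h, show (I.card : ℤ) - s + (p - 1) = I.card - (s - (p - 1)) by ring]
  exact and_congr Iff.rfl ⟨fun h k h1 h2 => h _ ⟨k, h1, h2, rfl⟩, by
    rintro h _ ⟨k, h1, h2, rfl⟩
    exact h k h1 h2⟩

/-- One more digit of the size can be prescribed. -/
theorem step (g : ι → σ → ZMod p) (b : σ → ZMod p) (l0 : σ) (hg : ∀ i, g i l0 = 1)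
    (U : Finset ι) (s t : ℤ) (hb : b l0 = (s : ZMod p)) (e : ℕ) (he : 1 ≤ e) (h1 : t ≤ s)
    (h2 : s + t + 1 ≤ U.card)
    (hE : ∀ w ≤ 2 * t - 2 * (p : ℤ) ^ (e + 1) + 3 * p - 2,
      EF p g b (Lev (ZMod p) U (s - (p - 1)) {q | ∃ k, 1 ≤ k ∧ k ≤ e ∧ q = p ^ k}) w)
    (κ : Finset ι → ZMod p) (hκ : κ ∈ Pol ι (ZMod p) t)
    (h3 : ∃ I ⊆ U, (p : ℤ) ^ e ∣ I.card - s ∧ κ I ≠ 0)
    (h4 : ∀ I ⊆ U, (p : ℤ) ^ e ∣ I.card - s → κ I ≠ 0 → ∑ i ∈ I, g i = b) :
    ∃ I ⊆ U, (p : ℤ) ^ (e + 1) ∣ I.card - s ∧ ∑ i ∈ I, g i = b := by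
  by_contra hno
  push Not at hno
  have hp2 := hp.out.two_le
  have hQ : (p : ℤ) ≤ (p : ℤ) ^ e := le_self_pow₀ (by omega) (by omega)
  have hc1 : ((p ^ e : ℕ) : ℤ) = (p : ℤ) ^ e := by push_cast; rfl
  have hc2 : (((p - 1) * p ^ e : ℕ) : ℤ) = (p : ℤ) ^ (e + 1) - (p : ℤ) ^ e := by
    push_cast [hp.out.one_le]
    ring
  have hc3 : ((p - 1 : ℕ) : ℤ) = p - 1 := by push_cast [hp.out.one_le]; rfl
  have hdv : ∀ {u : ℤ}, (p : ℤ) ^ (e + 1) ∣ u → (p : ℤ) ^ e ∣ u :=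
    fun h => (pow_dvd_pow _ (Nat.le_succ e)).trans h
  have haf : ∀ I : Finset ι, (∀ l, af (ZMod p) g b l I = 0) ↔ ∑ i ∈ I, g i = b := fun I => by
    simp [af, funext_iff, Finset.sum_apply, sub_eq_zero]
  suffices H : ∀ (n : ℕ) (d : ℤ), d < n → d ≤ t → ∀ κ ∈ Pol ι (ZMod p) d,
      (∃ I ⊆ U, (p : ℤ) ^ e ∣ I.card - s ∧ κ I ≠ 0) →
      (∀ I ⊆ U, (p : ℤ) ^ e ∣ I.card - s → κ I ≠ 0 → ∑ i ∈ I, g i = b) → False from
    H (t + 1).toNat t (by omega) le_rfl κ hκ h3 h4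
  intro n
  induction n with
  | zero =>
    rintro d hd - κ hκ ⟨I, -, -, h⟩ -
    exact h (by rw [Pol.neg (by omega) hκ]; rfl)
  | succ n ih =>
  rintro d hd hdt κ hκ ⟨I0, a1, a2, a3⟩ h4
  have lv0 := fun I => lev_iff (p := p) U s 0 e (dvd_zero _) I
  have lv1 := fun I => lev_iff (p := p) U s ((p : ℤ) ^ e) e dvd_rfl I
  simp only [add_zero] at lv0
  obtain ⟨g', hg', e1⟩ := gdiv (ZMod p) U s d {q | ∃ k < e, q = p ^ k} (p ^ e) hκ (by omega)
    (by omega) fun I hI => by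
      have b1 := (lv0 I).1 ⟨hI.1, fun q hq => hI.2 q (Or.inr hq)⟩
      by_contra b2
      exact hno I b1.1 ((dig_iff s e b1.2).1 (hI.2 _ (Or.inl rfl))) (h4 I b1.1 b1.2 b2)
  have k1 : ∀ I ⊆ U, (p : ℤ) ^ e ∣ I.card - s → ¬ (p : ℤ) ^ (e + 1) ∣ I.card - s → g' I ≠ 0 →
      ∑ i ∈ I, g i = b := fun I b1 b2 b3 b4 => h4 I b1 b2 (by
    rw [e1 I ((lv0 I).2 ⟨b1, b2⟩)]
    exact mul_ne_zero (mt (dig_iff s e b2).1 b3) b4)
  obtain ⟨u', hu', e2⟩ := h_one g b _ (d - (p : ℤ) ^ (e + 1) + p - 1) (hE _ (by omega))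
    (bin (ZMod p) (s - (p - 1)) (p - 1) * g') fun l => by
      obtain ⟨E, m1, m2⟩ := gdiv (ZMod p) U (s + (p : ℤ) ^ e) _ {q | ∃ k < e, q = p ^ k}
        ((p - 1) * p ^ e) (Pol.mul (af_mem (K := ZMod p) g b l) hg') (by omega) (by omega)
        fun I hI => by
          have b1 := (lv1 I).1 ⟨hI.1, fun q hq => hI.2 q (Or.inr hq)⟩
          have b2 := hI.2 _ (Or.inl rfl)
          rw [ind_eq s e b1.2] at b2
          rw [Pi.mul_apply, mul_eq_zero, or_iff_not_imp_right]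
          exact fun b3 => (haf I).2 (k1 I b1.1 b1.2 (fun h => by simp [h] at b2) b3) l
      refine ⟨_, Pol.mono (by omega) (Pol.mul (bin_mem (s - (p - 1)) (p - 1)) m1), fun I hI => ?_⟩
      simp only [Pi.mul_apply, low_eq]
      split_ifs with b1
      · have b2 := (blk_iff U s e b1).1 hI
        have := m2 I ((lv1 I).2 ⟨b2.1, hdv b2.2⟩)
        rw [ind_eq s e (hdv b2.2), if_pos b2.2, Pi.mul_apply] at this
        rw [one_mul, this]
      · simp
  have k2 : ∀ I ⊆ U, (p : ℤ) ^ (e + 1) ∣ I.card - s → g' I = u' I := fun I b1 b2 => by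
    have b3 : (p : ℤ) ∣ I.card - s := (dvd_pow_self _ (Nat.succ_ne_zero e)).trans b2
    by_contra b4
    refine hno I b1 b2 ((haf I).1 fun l => ?_)
    have := e2 l I ((blk_iff U s e b3).2 ⟨b1, b2⟩)
    rw [Pi.mul_apply, low_eq, if_pos b3, one_mul] at this
    exact (mul_eq_zero.1 this).resolve_right (sub_ne_zero.2 b4)
  refine ih (d - 1) (by omega) (by omega)
    (g' - bin (ZMod p) (s + (p : ℤ) ^ e) ((p - 1) * p ^ e) * u')
    (sub_mem (Pol.mono (by omega) hg') (Pol.mono (by omega) (Pol.mul (bin_mem _ _) hu')))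
    ⟨I0, a1, a2, ?_⟩ fun I b1 b2 b3 => ?_
  · rw [Pi.sub_apply, Pi.mul_apply, ind_eq s e a2, if_neg fun h => hno I0 a1 h (h4 I0 a1 a2 a3),
      zero_mul, sub_zero]
    rw [e1 I0 ((lv0 I0).2 ⟨a1, a2⟩)] at a3
    exact right_ne_zero_of_mul a3
  · rw [Pi.sub_apply, Pi.mul_apply, ind_eq s e b2] at b3
    split_ifs at b3 with b4
    · rw [k2 I b1 b4, one_mul, sub_self] at b3
      exact absurd rfl b3
    · exact k1 I b1 b2 b4 (by simpa using b3)

end Pool.Agent.Lib.MP_3184af_co.Tate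
end

-- part Pool.Agent.Lib.MP_3184af_co.TateG.StepG
section

set_option autoImplicit false

namespace Pool.Agent.Lib.MP_3184af_co.TateG

open Finset Tate

variable {ι σ : Type} [DecidableEq ι] [Fintype ι] {p : ℕ} [hp : Fact p.Prime]

omit [DecidableEq ι] [Fintype ι] in
theorem low_eqG (s : ℤ) (n : ℕ) (I : Finset ι) :
    bin (ZMod p) (s - ((p : ℤ) ^ n - 1)) (p ^ n - 1) I =
      if (p : ℤ) ^ n ∣ I.card - s then 1 else 0 := by
  have h0 : 0 < p ^ n := pow_pos hp.out.pos n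
  have hq : ((p ^ n : ℕ) : ℤ) = (p : ℤ) ^ n := Nat.cast_pow _ _
  have h1 : (0 : ℤ) < (p : ℤ) ^ n := by omega
  obtain ⟨r, hr⟩ := Int.eq_ofNat_of_zero_le (Int.emod_nonneg (I.card - s - 1) h1.ne')
  have h2 := Int.emod_lt_of_pos (I.card - s - 1) h1
  have h3 := Int.emod_add_mul_ediv (I.card - s - 1) ((p : ℤ) ^ n)
  rw [hr] at h2 h3
  rw [bin, show (I.card : ℤ) - (s - ((p : ℤ) ^ n - 1)) =
    r + (p : ℤ) ^ n * ((I.card - s - 1) / (p : ℤ) ^ n + 1) by linarith,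
    ch_per (e := n) _ _ (dvd_mul_right _ _) (by omega), Ring.choose_natCast, Int.cast_natCast]
  have h4 : (p : ℤ) ^ n ∣ I.card - s ↔ (p : ℤ) ^ n ∣ r + 1 := by
    rw [show (I.card : ℤ) - s = r + 1 + (p : ℤ) ^ n * ((I.card - s - 1) / (p : ℤ) ^ n) by linarith]
    exact dvd_add_left (dvd_mul_right _ _)
  split_ifs with h
  · have h5 := Int.le_of_dvd (by omega) (h4.1 h)
    rw [show r = p ^ n - 1 by omega, Nat.choose_self, Nat.cast_one]
  · have h5 : (r : ℤ) + 1 ≠ (p : ℤ) ^ n := fun k => h (h4.2 (k ▸ dvd_rfl))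
    rw [Nat.choose_eq_zero_of_lt (by omega), Nat.cast_zero]

omit [Fintype ι] in
theorem blk_iffG (U : Finset ι) (s : ℤ) (n c : ℕ) {I : Finset ι} (h : (p : ℤ) ^ n ∣ I.card - s) :
    I ∈ Lev (ZMod p) U s {q | ∃ k, n ≤ k ∧ k < c ∧ q = p ^ k} ↔
      I ⊆ U ∧ (p : ℤ) ^ c ∣ I.card - s := by
  rw [← ch_dvd] at h ⊢
  refine and_congr Iff.rfl ⟨fun h1 k hk => ?_, ?_⟩
  · rcases lt_or_ge k n with h2 | h2
    · exact h k h2
    · exact h1 _ ⟨k, h2, hk, rfl⟩
  · rintro h1 _ ⟨k, -, h2, rfl⟩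
    exact h1 k h2

/-- One more digit of the size can be prescribed. -/
theorem stepG (af : σ → Finset ι → ZMod p) (dj : σ → ℤ) (haf : ∀ j, af j ∈ Pol ι (ZMod p) (dj j))
    (ε : ℤ) (hε0 : 0 ≤ ε) (hε : ∀ j, dj j ≤ ε) (U : Finset ι) (s t : ℤ) (n c : ℕ) (hc : n ≤ c)
    (hε1 : ε ≤ (p : ℤ) ^ c) (h1 : t ≤ s) (h2 : s + t + ε ≤ U.card)
    (hE : ∀ D ≤ t - (p : ℤ) ^ (c + 1) + (p : ℤ) ^ n - 1, ∀ u : Finset ι → ZMod p,
      (∀ j, ∃ E ∈ Pol ι (ZMod p) (D + dj j),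
        ∀ I ∈ Lev (ZMod p) U s {q | ∃ k, n ≤ k ∧ k < c + 1 ∧ q = p ^ k}, af j I * u I = E I) →
      ∃ u' ∈ Pol ι (ZMod p) D, ∀ j,
        ∀ I ∈ Lev (ZMod p) U s {q | ∃ k, n ≤ k ∧ k < c + 1 ∧ q = p ^ k},
          af j I * (u I - u' I) = 0)
    (κ : Finset ι → ZMod p) (hκ : κ ∈ Pol ι (ZMod p) t)
    (h3 : ∃ I ⊆ U, (p : ℤ) ^ c ∣ I.card - s ∧ κ I ≠ 0)
    (h4 : ∀ I ⊆ U, (p : ℤ) ^ c ∣ I.card - s → κ I ≠ 0 → ∀ j, af j I = 0) :
    ∃ I ⊆ U, (p : ℤ) ^ (c + 1) ∣ I.card - s ∧ ∀ j, af j I = 0 := by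
  by_contra hno
  have hno : ∀ I ⊆ U, (p : ℤ) ^ (c + 1) ∣ I.card - s → ¬ ∀ j, af j I = 0 :=
    fun I a b c => hno ⟨I, a, b, c⟩
  have hp2 := hp.out.two_le
  have hQ : (p : ℤ) ^ n ≤ (p : ℤ) ^ c := pow_le_pow_right₀ (by omega) hc
  have hQ0 : (0 : ℤ) < (p : ℤ) ^ n := by positivity
  have hc1 : ((p ^ c : ℕ) : ℤ) = (p : ℤ) ^ c := by push_cast; rfl
  have hc2 : (((p - 1) * p ^ c : ℕ) : ℤ) = (p : ℤ) ^ (c + 1) - (p : ℤ) ^ c := by
    push_cast [hp.out.one_le]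
    ring
  have hc3 : ((p ^ n - 1 : ℕ) : ℤ) = (p : ℤ) ^ n - 1 := by
    push_cast [Nat.one_le_pow _ _ hp.out.pos]
    rfl
  have hdv : ∀ {u : ℤ}, (p : ℤ) ^ (c + 1) ∣ u → (p : ℤ) ^ c ∣ u :=
    fun h => (pow_dvd_pow _ (Nat.le_succ c)).trans h
  suffices H : ∀ (m : ℕ) (d : ℤ), d < m → d ≤ t → ∀ κ ∈ Pol ι (ZMod p) d,
      (∃ I ⊆ U, (p : ℤ) ^ c ∣ I.card - s ∧ κ I ≠ 0) →
      (∀ I ⊆ U, (p : ℤ) ^ c ∣ I.card - s → κ I ≠ 0 → ∀ j, af j I = 0) → False from
    H (t + 1).toNat t (by omega) le_rfl κ hκ h3 h4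
  intro m
  induction m with
  | zero =>
    rintro d hd - κ hκ ⟨I, -, -, h⟩ -
    exact h (by rw [Pol.neg (by omega) hκ]; rfl)
  | succ m ih =>
  rintro d hd hdt κ hκ ⟨I0, a1, a2, a3⟩ h4
  have lv0 := fun I => lev_iff (p := p) U s 0 c (dvd_zero _) I
  have lv1 := fun I => lev_iff (p := p) U s ((p : ℤ) ^ c) c dvd_rfl I
  simp only [add_zero] at lv0
  obtain ⟨g', hg', e1⟩ := gdiv (ZMod p) U s d {q | ∃ k < c, q = p ^ k} (p ^ c) hκ (by omega)
    (by omega) fun I hI => by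
      have b1 := (lv0 I).1 ⟨hI.1, fun q hq => hI.2 q (Or.inr hq)⟩
      by_contra b2
      exact hno I b1.1 ((dig_iff s c b1.2).1 (hI.2 _ (Or.inl rfl))) (h4 I b1.1 b1.2 b2)
  have k1 : ∀ I ⊆ U, (p : ℤ) ^ c ∣ I.card - s → ¬ (p : ℤ) ^ (c + 1) ∣ I.card - s → g' I ≠ 0 →
      ∀ j, af j I = 0 := fun I b1 b2 b3 b4 => h4 I b1 b2 (by
    rw [e1 I ((lv0 I).2 ⟨b1, b2⟩)]
    exact mul_ne_zero (mt (dig_iff s c b2).1 b3) b4)
  obtain ⟨u', hu', e2⟩ := hE (d - (p : ℤ) ^ (c + 1) + (p : ℤ) ^ n - 1) (by omega)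
    (bin (ZMod p) (s - ((p : ℤ) ^ n - 1)) (p ^ n - 1) * g') fun l => by
      have := hε l
      obtain ⟨E, m1, m2⟩ := gdiv (ZMod p) U (s + (p : ℤ) ^ c) _ {q | ∃ k < c, q = p ^ k}
        ((p - 1) * p ^ c) (Pol.mul (haf l) hg') (by omega) (by omega)
        fun I hI => by
          have b1 := (lv1 I).1 ⟨hI.1, fun q hq => hI.2 q (Or.inr hq)⟩
          have b2 := hI.2 _ (Or.inl rfl)
          rw [ind_eq s c b1.2] at b2
          rw [Pi.mul_apply, mul_eq_zero, or_iff_not_imp_right]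
          exact fun b3 => k1 I b1.1 b1.2 (fun h => by simp [h] at b2) b3 l
      refine ⟨_, Pol.mono (by omega) (Pol.mul (bin_mem (s - ((p : ℤ) ^ n - 1)) (p ^ n - 1)) m1),
        fun I hI => ?_⟩
      simp only [Pi.mul_apply, low_eqG]
      split_ifs with b1
      · have b2 := (blk_iffG U s n _ b1).1 hI
        have := m2 I ((lv1 I).2 ⟨b2.1, hdv b2.2⟩)
        rw [ind_eq s c (hdv b2.2), if_pos b2.2, Pi.mul_apply] at this
        rw [one_mul, this]
      · simp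
  have k2 : ∀ I ⊆ U, (p : ℤ) ^ (c + 1) ∣ I.card - s → g' I = u' I := fun I b1 b2 => by
    have b3 : (p : ℤ) ^ n ∣ I.card - s := (pow_dvd_pow _ hc).trans (hdv b2)
    by_contra b4
    refine hno I b1 b2 fun l => ?_
    have := e2 l I ((blk_iffG U s n _ b3).2 ⟨b1, b2⟩)
    rw [Pi.mul_apply, low_eqG, if_pos b3, one_mul] at this
    exact (mul_eq_zero.1 this).resolve_right (sub_ne_zero.2 b4)
  refine ih (d - 1) (by omega) (by omega)
    (g' - bin (ZMod p) (s + (p : ℤ) ^ c) ((p - 1) * p ^ c) * u')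
    (sub_mem (Pol.mono (by omega) hg') (Pol.mono (by omega) (Pol.mul (bin_mem _ _) hu')))
    ⟨I0, a1, a2, ?_⟩ fun I b1 b2 b3 => ?_
  · rw [Pi.sub_apply, Pi.mul_apply, ind_eq s c a2, if_neg fun h => hno I0 a1 h (h4 I0 a1 a2 a3),
      zero_mul, sub_zero]
    rw [e1 I0 ((lv0 I0).2 ⟨a1, a2⟩)] at a3
    exact right_ne_zero_of_mul a3
  · rw [Pi.sub_apply, Pi.mul_apply, ind_eq s c b2] at b3
    split_ifs at b3 with b4
    · rw [k2 I b1 b4, one_mul, sub_self] at b3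
      exact absurd rfl b3
    · exact k1 I b1 b2 b4 (by simpa using b3)

end Pool.Agent.Lib.MP_3184af_co.TateG
end

-- part Pool.Agent.Lib.MP_3184af_co.TateG.PartB
section

/-!
The weighted doubling lemma for finite abelian `p`-groups given by coordinates.
-/

set_option autoImplicit false

namespace Pool.Agent.Lib.MP_3184af_co.TateG

open Finset Tate

section
variable {R σ : Type} [CommRing R] [Fintype σ]

/-- The ideal spanned by the monomials of weight at least `w`. -/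
def Fl (x : σ → R) (ω : σ → ℕ) (w : ℕ) : Ideal R :=
  Ideal.span {y | ∃ n : σ → ℕ, w ≤ ∑ l, ω l * n l ∧ y = ∏ l, x l ^ n l}

theorem Fl_mul (x : σ → R) (ω : σ → ℕ) (a b : ℕ) : Fl x ω a * Fl x ω b ≤ Fl x ω (a + b) := by
  rw [Fl, Fl, Ideal.span_mul_span']
  refine Ideal.span_mono ?_
  rintro _ ⟨_, ⟨n, h1, rfl⟩, _, ⟨m, h2, rfl⟩, rfl⟩
  refine ⟨n + m, ?_, ?_⟩
  · simp only [Pi.add_apply, mul_add, sum_add_distrib]
    omega
  · simp only [Pi.add_apply, pow_add, prod_mul_distrib]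

theorem Fl_pow [DecidableEq σ] (x : σ → R) (ω : σ → ℕ) (l : σ) {k w : ℕ} (h : w ≤ ω l * k) :
    x l ^ k ∈ Fl x ω w :=
  Ideal.subset_span ⟨Pi.single l k, by
    rwa [sum_eq_single l (fun j _ hj => by simp [hj]) (by simp), Pi.single_eq_same], by
    rw [prod_eq_single l (fun j _ hj => by simp [hj]) (by simp), Pi.single_eq_same]⟩

theorem Fl_prod {ι : Type} (x : σ → R) (ω N : σ → ℕ) (hx : ∀ l, x l ^ (N l + 1) = 0)
    (T : Finset ι) (y : ι → R) (wt : ι → ℕ) (hy : ∀ i ∈ T, y i ∈ Fl x ω (wt i))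
    (h : ∑ l, ω l * N l < ∑ i ∈ T, wt i) : ∏ i ∈ T, y i = 0 := by
  classical
  have h1 : ∏ i ∈ T, y i ∈ Fl x ω (∑ i ∈ T, wt i) := by
    clear h
    induction T using Finset.induction_on with
    | empty => exact Ideal.subset_span ⟨0, by simp, by simp⟩
    | insert i T hi ih =>
      rw [prod_insert hi, sum_insert hi]
      exact Fl_mul x ω _ _ (Ideal.mul_mem_mul (hy i (mem_insert_self i T))
        (ih fun j hj => hy j (mem_insert_of_mem hj)))
  have h2 : Fl x ω (∑ i ∈ T, wt i) ≤ ⊥ := Ideal.span_le.2 (by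
    rintro _ ⟨n, h2, rfl⟩
    obtain ⟨l, -, hl⟩ := exists_lt_of_sum_lt (h.trans_le h2)
    exact prod_eq_zero (mem_univ l) (pow_eq_zero_of_le (lt_of_mul_lt_mul_left hl (Nat.zero_le _))
      (hx l)))
  exact h2 h1

omit [Fintype σ] in
theorem tri_le [Finite σ] (r : σ → ℕ) (hr : Function.Injective r) (W S : Submodule R (σ → R))
    (h : ∀ v ∈ W, ∀ l, (∀ j, r j < r l → v j = 0) →
      ∃ u ∈ W, u ∈ S ∧ u l = v l ∧ ∀ j, r j < r l → u j = 0) : W ≤ S := by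
  obtain ⟨M, hM⟩ := (Set.finite_range r).bddAbove
  suffices H : ∀ n k, M < k + n → ∀ v ∈ W, (∀ j, r j < k → v j = 0) → v ∈ S from
    fun v hv => H (M + 1) 0 (by omega) v hv (by simp)
  intro n
  induction n with
  | zero =>
    intro k hk v _ h0
    rw [show v = 0 from funext fun j => h0 j ((hM ⟨j, rfl⟩).trans_lt hk)]
    exact zero_mem _
  | succ n ih =>
    intro k hk v hv h0
    by_cases h1 : ∃ l, r l = k
    · obtain ⟨l, rfl⟩ := h1
      obtain ⟨u, a1, a2, a3, a4⟩ := h v hv l h0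
      have := ih (r l + 1) (by omega) (v - u) (sub_mem hv a1) fun j hj => by
        rcases (Nat.lt_succ_iff.1 hj).eq_or_lt with e | e
        · rw [hr e, Pi.sub_apply, a3, sub_self]
        · rw [Pi.sub_apply, h0 j e, a4 j e, sub_self]
      simpa using add_mem this a2
    · exact ih (k + 1) (by omega) v hv fun j hj =>
        h0 j (lt_of_le_of_ne (Nat.lt_succ_iff.1 hj) fun e => h1 ⟨j, e⟩)

theorem exists_r (h : σ → ℕ) :
    ∃ r : σ → ℕ, Function.Injective r ∧ ∀ l j, r l ≤ r j → h j ≤ h l := by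
  obtain ⟨M, hM⟩ := (Set.finite_range h).bddAbove
  obtain ⟨N, ⟨E⟩⟩ := Finite.exists_equiv_fin σ
  have key : ∀ l, (E l + N * (M - h l)) % N = E l ∧ (E l + N * (M - h l)) / N = M - h l :=
    fun l => ⟨by rw [Nat.add_mul_mod_self_left, Nat.mod_eq_of_lt (E l).2], by
      rw [Nat.add_mul_div_left _ _ (E l).pos, Nat.div_eq_of_lt (E l).2, zero_add]⟩
  refine ⟨fun l => E l + N * (M - h l), fun l j e => E.injective (Fin.ext ?_), fun l j e => ?_⟩
  · rw [← (key l).1, ← (key j).1]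
    exact congrArg (· % N) e
  · have h1 := Nat.div_le_div_right (c := N) e
    have h2 := hM ⟨j, rfl⟩
    rw [(key l).2, (key j).2] at h1
    omega

theorem tri_card {F : Type} [Field F] (r : σ → ℕ) (hr : Function.Injective r) (B : Finset σ)
    (w : σ → σ → F) (L : Submodule F (σ → F))
    (h : ∀ l ∈ B, w l ∈ L ∧ w l l = 1 ∧ ∀ j, r j < r l → w l j = 0) :
    B.card ≤ Module.finrank F L := by
  classical
  have : LinearIndependent F fun l : B => (⟨w l, (h l l.2).1⟩ : L) := by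
    refine LinearIndependent.of_comp L.subtype (Fintype.linearIndependent_iff.2 fun c hc => ?_)
    by_contra k
    push Not at k
    obtain ⟨l, a1, a2⟩ := exists_min_image (univ.filter fun l : B => c l ≠ 0) (fun l => r l)
      (k.imp fun l hl => mem_filter.2 ⟨mem_univ l, hl⟩)
    have a3 := congrFun hc l
    rw [Finset.sum_apply, sum_eq_single l (fun j _ hj => ?_) (by simp)] at a3
    · simp [(h l l.2).2.1, (mem_filter.1 a1).2] at a3
    · by_cases a4 : c j = 0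
      · simp [a4]
      · have a5 := a2 j (mem_filter.2 ⟨mem_univ j, a4⟩)
        simp [(h j j.2).2.2 l (lt_of_le_of_ne a5 fun e => hj (Subtype.ext (hr e).symm))]
  simpa using this.fintype_card_le_finrank

end

theorem alt_X {ι A : Type} [DecidableEq ι] [AddCommGroup A] [DecidableEq A] {p : ℕ} [Fact p.Prime]
    (a : ι → A) (T : Finset ι) (h : ∏ i ∈ T, (1 - X p (a i)) = 0) (x : A) :
    alt (fib (ZMod p) a x) ∅ T = 0 := by
  have h1 : ∀ J : Finset ι, ∏ i ∈ J, -X p (a i) =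
      AddMonoidAlgebra.single (∑ i ∈ J, a i) ((-1 : ZMod p) ^ J.card) := fun J => by
    induction J using Finset.induction_on with
    | empty => simp [AddMonoidAlgebra.one_def]
    | insert i J hi ih =>
      rw [prod_insert hi, ih, sum_insert hi, card_insert_of_notMem hi, X,
        ← AddMonoidAlgebra.single_neg, AddMonoidAlgebra.single_mul_single, pow_succ']
  simp only [sub_eq_add_neg, prod_one_add, h1] at h
  have h2 := congrArg (fun P : AddMonoidAlgebra (ZMod p) A => P.coeff x) h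
  simpa [alt, fib, Finsupp.single_apply] using h2

section
variable {ι σ : Type} [DecidableEq ι] [Fintype ι] [Fintype σ] {p : ℕ} [hp : Fact p.Prime]

variable (p) in
/-- Reduction modulo `p` of the coordinates of height larger than `k`. -/
def cutk (g : ι → σ → ℤ) (e : σ → ℕ) (k : ℕ) (i : ι) (l : σ) : ZMod p :=
  if k < e l then (g i l : ZMod p) else 0

variable (p) in
/-- The weighted rank of a subfamily. -/
noncomputable def tau (g : ι → σ → ℤ) (e : σ → ℕ) (E : ℕ) (Z : Finset ι) : ℤ :=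
  ((p : ℤ) - 1) * ∑ k ∈ range E, (p : ℤ) ^ k * rk (cutk p g e k) Z

/-- The weighted doubling inequality. -/
theorem partB (g : ι → σ → ℤ) (e : σ → ℕ) (l0 : σ) (hg : ∀ i, g i l0 = 1) (he : ∀ l, e l ≤ e l0)
    (c : ℕ) (hc : e l0 ≤ c) (U : Finset ι) (s : ℤ) {I0 : Finset ι} (hI : I0 ⊆ U)
    (hs : (p : ℤ) ^ c ∣ I0.card - s)
    (hno : ∀ I ⊆ U, (∀ l, (p : ℤ) ^ e l ∣ ∑ i ∈ I, g i l - ∑ i ∈ I0, g i l) →
      ¬ (p : ℤ) ^ (c + 1) ∣ I.card - s)
    {Z : Finset ι} (hZ : Z ⊆ U) (hZ' : Z.Nonempty) :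
    (p : ℤ) * Z.card + (U \ Z).card ≤ 2 * (∑ l, ((p : ℤ) ^ e l - 1) - p * (p ^ e l0 - 1) +
      (p - 1) * tau p g e (e l0) Z + p * (p ^ c - 1)) + p * (p - 2) * p ^ c := by
  classical
  have p2 := hp.out.two_le
  obtain ⟨h, hh⟩ : ∃ h : σ → ℕ, h = fun l => if l = l0 then c else e l := ⟨_, rfl⟩
  have h0 : h l0 = c := by simp [hh]
  have h1 : ∀ l, e l ≤ h l ∧ h l ≤ c := fun l => by
    have := he l
    by_cases k : l = l0
    · rw [k, h0]; omega
    · simp only [hh, if_neg k]; omega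
  obtain ⟨r, r1, r2⟩ := exists_r fun l => if l = l0 then c + 1 else e l
  have r3 : ∀ l j, r l ≤ r j → h j ≤ h l := fun l j k => by
    have := r2 l j k
    have := he l
    have := he j
    simp only [hh]
    split_ifs at * <;> omega
  have r4 : ∀ j, ¬ r j < r l0 := fun j k => by
    have a1 := r2 j l0 k.le
    have := he j
    rw [if_pos rfl, if_neg fun e => by rw [e] at k; exact k.false] at a1
    omega
  obtain ⟨W, hW⟩ : ∃ W : Submodule (ZMod p) (σ → ZMod p),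
      W = Submodule.span (ZMod p) ((fun i l => (g i l : ZMod p)) '' (Z : Set ι)) := ⟨_, rfl⟩
  have mW : ∀ i ∈ Z, (fun l => (g i l : ZMod p)) ∈ W := fun i hi =>
    hW ▸ Submodule.subset_span ⟨i, hi, rfl⟩
  obtain ⟨B, hB⟩ : ∃ B : Finset σ, ∀ l, l ∈ B ↔ ∃ v ∈ W, v l = 1 ∧ ∀ j, r j < r l → v j = 0 :=
    ⟨univ.filter fun l => ∃ v ∈ W, v l = 1 ∧ ∀ j, r j < r l → v j = 0, fun l => by
      rw [mem_filter, and_iff_right (mem_univ l)]⟩
  have b0 : l0 ∈ B := by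
    obtain ⟨i, hi⟩ := hZ'
    exact (hB l0).2 ⟨_, mW i hi, by simp [hg], fun j k => (r4 j k).elim⟩
  obtain ⟨β, hβ⟩ : ∃ β : σ → σ → ℤ, ∀ l, β l l = 1 ∧ (∀ j, r j < r l → β l j = 0) ∧
      (l ∈ B → (fun j => (β l j : ZMod p)) ∈ W) := by
    refine (Classical.skolem (p := fun l (b : σ → ℤ) => b l = 1 ∧ (∀ j, r j < r l → b j = 0) ∧
      (l ∈ B → (fun j => (b j : ZMod p)) ∈ W))).1 fun l => ?_
    by_cases k : l ∈ B
    · obtain ⟨v, a1, a2, a3⟩ := (hB l).1 k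
      exact ⟨fun j => (v j).val, by simp [a2, ZMod.val_one], fun j k => by simp [a3 j k],
        fun _ => by simpa using a1⟩
    · exact ⟨Pi.single l 1, by simp, fun j k => Pi.single_eq_of_ne (fun e => by
        rw [e] at k; exact k.false) _, fun k' => (k k').elim⟩
  have g1 : (⊤ : Submodule ℤ (σ → ℤ)) ≤ Submodule.span ℤ (Set.range β) :=
    tri_le r r1 _ _ fun v _ l _ => ⟨v l • β l, trivial, Submodule.smul_mem _ _
      (Submodule.subset_span ⟨l, rfl⟩), by simp [(hβ l).1], fun j k => by simp [(hβ l).2.1 j k]⟩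
  have g2 : W ≤ Submodule.span (ZMod p) ((fun l j => (β l j : ZMod p)) '' (B : Set σ)) :=
    tri_le r r1 _ _ fun v hv l k => by
      by_cases a : v l = 0
      · exact ⟨0, zero_mem _, zero_mem _, a.symm, fun _ _ => rfl⟩
      have a1 : l ∈ B := (hB l).2 ⟨(v l)⁻¹ • v, W.smul_mem _ hv, by simp [a],
        fun j k' => by simp [k j k']⟩
      exact ⟨v l • fun j => (β l j : ZMod p), W.smul_mem _ ((hβ l).2.2 a1), Submodule.smul_mem _ _
        (Submodule.subset_span ⟨l, a1, rfl⟩), by simp [(hβ l).1],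
        fun j k => by simp [(hβ l).2.1 j k]⟩
  let φ : (σ → ℤ) →+ ∀ l, ZMod (p ^ h l) :=
    { toFun := fun v l => v l, map_zero' := by ext; simp, map_add' := fun _ _ => by ext; simp }
  have φ1 : ∀ v, φ v = 0 ↔ ∀ l, (p : ℤ) ^ h l ∣ v l := fun v => by
    rw [funext_iff]
    refine forall_congr' fun l => ?_
    exact_mod_cast ZMod.intCast_zmod_eq_zero_iff_dvd (v l) (p ^ h l)
  have φ2 : ∀ I J : Finset ι, ∑ i ∈ I, φ (g i) = ∑ i ∈ J, φ (g i) →
      ∀ l, (p : ℤ) ^ h l ∣ ∑ i ∈ I, g i l - ∑ i ∈ J, g i l := fun I J k l => by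
    rw [← map_sum, ← map_sum, ← sub_eq_zero, ← map_sub, φ1] at k
    simpa using k l
  obtain ⟨ω, hω⟩ : ∃ ω : σ → ℕ, ω = fun l => if l ∈ B then p else 1 := ⟨_, rfl⟩
  obtain ⟨x, hx⟩ : ∃ x : σ → _, x = fun l => X p (φ (β l)) - 1 := ⟨_, rfl⟩
  have sub : ∀ (w : ℕ) (S : Set (σ → ℤ)), (∀ v ∈ S, X p (φ v) - 1 ∈ Fl x ω w) →
      ∀ v ∈ Submodule.span ℤ S, X p (φ v) - 1 ∈ Fl x ω w := fun w S k v hv => by
    have a1 : φ v ∈ AddSubgroup.closure (φ '' S) := by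
      rw [← AddMonoidHom.map_closure, ← Submodule.span_int_eq_addSubgroupClosure]
      exact ⟨v, hv, rfl⟩
    refine (J_le (S := {φ v}) (by simpa using a1)).trans (Ideal.span_le.2 ?_) (mem_J rfl)
    rintro _ ⟨_, ⟨u, hu, rfl⟩, rfl⟩
    exact k u hu
  have ω1 : ∀ l, 1 ≤ ω l := fun l => by
    simp only [hω]
    split_ifs <;> omega
  have w1 : ∀ v, X p (φ v) - 1 ∈ Fl x ω 1 := fun v => sub 1 _ (by
    rintro _ ⟨l, rfl⟩
    simpa [hx] using Fl_pow x ω l (k := 1) (by simpa using ω1 l)) v (g1 trivial)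
  have w2 : ∀ v : σ → ℤ, X p (φ ((p : ℤ) • v)) - 1 ∈ Fl x ω p := fun v =>
    sub p (((p : ℤ) • ·) '' Set.range β) (by
      rintro _ ⟨_, ⟨l, rfl⟩, rfl⟩
      have a1 := Fl_pow x ω l (k := p) (Nat.le_mul_of_pos_left p (ω1 l))
      have a2 := X_pow (p := p) (φ (β l)) 1
      rw [pow_one, ← map_nsmul, ← natCast_zsmul] at a2
      rw [← a2]
      rwa [hx] at a1 ⊢) _ (by
      have := Submodule.mem_map_of_mem (f := (p : ℤ) • LinearMap.id) (g1 (x := v) trivial)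
      rwa [Submodule.map_span] at this)
  have w3 : ∀ i ∈ Z, X p (φ (g i)) - 1 ∈ Fl x ω p := fun i hi => by
    obtain ⟨c, a1⟩ := (Submodule.mem_span_image_finset_iff_exists_fun' _).1 (g2 (mW i hi))
    obtain ⟨v, hv⟩ : ∃ v : σ → ℤ, ∀ j, g i j - ∑ l ∈ B, ((c l).val : ℤ) * β l j = p * v j := by
      refine (Classical.skolem (p := fun j (v : ℤ) =>
        g i j - ∑ l ∈ B, ((c l).val : ℤ) * β l j = p * v)).1 fun j =>
          (ZMod.intCast_zmod_eq_zero_iff_dvd _ p).1 ?_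
      have := congrFun a1 j
      simp only [Finset.sum_apply, Pi.smul_apply, smul_eq_mul] at this
      simp [← this]
    refine sub p (β '' B ∪ {(p : ℤ) • v}) ?_ _ ?_
    · rintro _ (⟨l, hl, rfl⟩ | rfl)
      · simpa [hx] using Fl_pow x ω l (k := 1) (w := p) (by simp [hω, mem_coe.1 hl])
      · exact w2 v
    · rw [show g i = ∑ l ∈ B, ((c l).val : ℤ) • β l + (p : ℤ) • v from funext fun j => by
        simp only [Pi.add_apply, Finset.sum_apply, Pi.smul_apply, smul_eq_mul, ← hv j,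
          add_sub_cancel]]
      exact add_mem (sum_mem fun l hl => Submodule.smul_mem _ _
        (Submodule.subset_span (Or.inl ⟨l, hl, rfl⟩))) (Submodule.subset_span (Or.inr rfl))
  have main := doubling (p := p) c (fun i => φ (g i)) U (fun i => if i ∈ Z then p else 1)
    (fun i => by split_ifs <;> omega) (∑ l, ω l * (p ^ h l - 1))
    (fun i => by
      rw [← map_nsmul, φ1]
      exact fun l => (pow_dvd_pow _ (h1 l).2).trans (by simp))
    (fun I J k => by simpa [hg, h0] using φ2 I J k l0)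
    (fun T _ k => alt_X _ T (Fl_prod x ω _ (fun l => by
        rw [Nat.sub_add_cancel (Nat.one_le_pow _ _ hp.out.pos), hx]
        simp only
        rw [X_pow, ← map_nsmul, (φ1 _).2 fun j => ?_, X_zero, sub_self]
        by_cases a : r j < r l
        · simp [(hβ l).2.1 j a]
        · exact (pow_dvd_pow _ (r3 l j (not_lt.1 a))).trans (by simp)) T _ _ (fun i _ => by
        rw [← neg_sub]
        refine neg_mem ?_
        split_ifs with a
        · exact w3 i a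
        · exact w1 _) k)) s hI hs
    fun I a1 a2 => hno I a1 fun l => (pow_dvd_pow _ (h1 l).1).trans (φ2 I I0 a2 l)
  have c1 : ∑ i ∈ U, (if i ∈ Z then p else 1) = p * Z.card + (U \ Z).card := by
    rw [← sum_sdiff hZ, sum_congr rfl fun i hi => if_neg (mem_sdiff.1 hi).2,
      sum_congr rfl fun i hi => if_pos hi]
    simp [mul_comm, add_comm]
  have c2 : ∑ l ∈ B, ((p : ℤ) ^ e l - 1) ≤ tau p g e (e l0) Z := by
    have a1 : ∀ l ∈ B, (p : ℤ) ^ e l - 1 =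
        ((p : ℤ) - 1) * ∑ k ∈ range (e l0), if k < e l then (p : ℤ) ^ k else 0 := fun l _ => by
      rw [← sum_filter, show (range (e l0)).filter (· < e l) = range (e l) by
        ext k; have := he l; simp only [mem_filter, mem_range]; omega, mul_geom_sum]
    rw [sum_congr rfl a1, ← mul_sum, sum_comm]
    refine mul_le_mul_of_nonneg_left (sum_le_sum fun k _ => ?_) (by omega)
    rw [← sum_filter, sum_const, nsmul_eq_mul, mul_comm]
    refine mul_le_mul_of_nonneg_left (Int.ofNat_le.2 ?_) (by positivity)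
    let π : (σ → ZMod p) →ₗ[ZMod p] σ → ZMod p :=
      LinearMap.pi fun j => if k < e j then LinearMap.proj j else 0
    have π1 : ∀ v j, π v j = if k < e j then v j else 0 := fun v j => by
      simp only [π, LinearMap.pi_apply]
      split_ifs <;> rfl
    refine tri_card r r1 _ (fun l => π fun j => (β l j : ZMod p)) _ fun l hl => ?_
    rw [mem_filter] at hl
    refine ⟨?_, by simp [π1, hl.2, (hβ l).1], fun j a => by simp [π1, (hβ l).2.1 j a]⟩
    have := Submodule.mem_map_of_mem (f := π) ((hβ l).2.2 hl.1)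
    rw [hW, Submodule.map_span, Set.image_image] at this
    convert this using 3 with i
    exact funext fun j => (π1 (fun l => (g i l : ZMod p)) j).symm
  have c3 : ((∑ l, ω l * (p ^ h l - 1) : ℕ) : ℤ) = ∑ l, ((p : ℤ) ^ e l - 1) +
      (p - 1) * ∑ l ∈ B, ((p : ℤ) ^ e l - 1) + p * (p ^ c - p ^ e l0) := by
    have a1 : ∀ l, ((ω l * (p ^ h l - 1) : ℕ) : ℤ) = (p : ℤ) ^ e l - 1 +
        (if l ∈ B then (p - 1) * ((p : ℤ) ^ e l - 1) else 0) +
        if l = l0 then (p : ℤ) * (p ^ c - p ^ e l0) else 0 := fun l => by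
      push_cast [Nat.one_le_pow _ _ hp.out.pos]
      by_cases a : l = l0
      · simp only [a, hω, if_pos b0, h0, if_true]
        ring
      · simp only [hω, hh, if_neg a]
        split_ifs
        · ring
        · simp
    rw [Nat.cast_sum, sum_congr rfl fun l _ => a1 l, sum_add_distrib, sum_add_distrib, mul_sum]
    simp
  have c4 := Int.ofNat_le.2 main
  rw [c1, Nat.cast_add (2 * _), Nat.cast_mul 2, c3] at c4
  push_cast [p2] at c4
  have c5 := mul_le_mul_of_nonneg_left c2 (show (0 : ℤ) ≤ p - 1 by omega)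
  linarith

/-- The form used by the digit step: every subfamily satisfies the inequality of the vanishing
theorem. Here `t` is the sum of `p ^ e l - 1` over `l ≠ l0`. -/
theorem partB_step (g : ι → σ → ℤ) (e : σ → ℕ) (l0 : σ) (hg : ∀ i, g i l0 = 1)
    (he : ∀ l, e l ≤ e l0) (c : ℕ) (hc : e l0 ≤ c) (U : Finset ι) (s t : ℤ)
    (ht : ∑ l, ((p : ℤ) ^ e l - 1) = t + (p ^ e l0 - 1))
    (hn : p * (2 * t) + (p : ℤ) ^ e l0 ≤ p * U.card) {I0 : Finset ι} (hI : I0 ⊆ U)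
    (hs : (p : ℤ) ^ c ∣ I0.card - s)
    (hno : ∀ I ⊆ U, (∀ l, (p : ℤ) ^ e l ∣ ∑ i ∈ I, g i l - ∑ i ∈ I0, g i l) →
      ¬ (p : ℤ) ^ (c + 1) ∣ I.card - s)
    {Z : Finset ι} (hZ : Z ⊆ U) :
    2 * (t - (p : ℤ) ^ (c + 1) + p ^ e l0 - 1) + p ^ e l0 <
      (U \ Z).card + 2 * tau p g e (e l0) Z := by
  have p2 : (2 : ℤ) ≤ p := by exact_mod_cast hp.out.two_le
  have q1 : (p : ℤ) ^ e l0 ≤ (p : ℤ) ^ c := pow_le_pow_right₀ (by omega) hc
  have q0 : (0 : ℤ) < (p : ℤ) ^ e l0 := by positivity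
  rcases Z.eq_empty_or_nonempty with rfl | hZ'
  · have h0 : ∀ k, rk (cutk p g e k) ∅ = 0 := fun k => by
      rw [rk, coe_empty, Set.image_empty, Submodule.span_empty, finrank_bot]
    have h1 : tau p g e (e l0) ∅ = 0 := by simp [tau, h0]
    have h2 : 2 * t ≤ U.card := le_of_mul_le_mul_left (by linarith) (show (0 : ℤ) < p by omega)
    rw [h1, sdiff_empty, pow_succ]
    nlinarith
  have h1 := partB g e l0 hg he c hc U s hI hs hno hZ hZ'
  have h2 : ((U \ Z).card : ℤ) + Z.card = U.card := by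
    exact_mod_cast card_sdiff_add_card_eq_card hZ
  rw [ht] at h1
  rw [← h2] at hn
  rw [pow_succ]
  generalize (p : ℤ) ^ e l0 = q at *
  generalize (p : ℤ) ^ c = d at *
  refine lt_of_mul_lt_mul_left (a := (p : ℤ) - 1) ?_ (by omega)
  have h3 : ((p : ℤ) - 2) * q ≤ p * (p - 2) * d := by
    rw [mul_comm (p : ℤ), mul_assoc]
    exact mul_le_mul_of_nonneg_left (by nlinarith) (by omega)
  linarith

end

end Pool.Agent.Lib.MP_3184af_co.TateG
end
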